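import Pool.Agent.Helper811.Lines

set_option autoImplicit false
set_option linter.unusedSectionVars false

open Set Topology Cardinal

namespace Pool.Agent.Helper811

variable {Γ : Type} {K : Type} [LinearOrder K] [TopologicalSpace K] [OrderTopology K]
  [CompactSpace K]

/-- At most aleph one points are not limits of countable sets from the left. -/
theorem mk_left_le {L : Set (Γ → ℝ)} (hL : IsCompact L) (hd : L ⊆ closure (L ∩ Sg Γ))
    {f : (Γ → ℝ) → K} (hf : ContinuousOn f L) (hs : ∀ k, ∃ x ∈ L, f x = k) :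
    #{k : K | ∀ Y : Set K, Y ⊆ Iio k → Y.Countable → ∃ y < k, ∀ y' ∈ Y, y' < y} ≤ ℵ₁ := by
  classical
  have h01 : ℵ₀ ≤ ℵ₁ := Cardinal.aleph0_lt_aleph_one.le
  obtain ⟨J, hJc, hJ⟩ := exists_small_coordinates hL hd hf hs
  set G : Set K := {k : K | ∀ Y : Set K, Y ⊆ Iio k → Y.Countable → ∃ y < k, ∀ y' ∈ Y, y' < y}
    with hG
  have hsuppcl : IsClosed {v : Γ → ℝ | Function.support v ⊆ J} := by
    have : {v : Γ → ℝ | Function.support v ⊆ J} = ⋂ γ ∈ Jᶜ, {v : Γ → ℝ | v γ = 0} := by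
      ext v
      simp only [mem_ofPred_eq, mem_iInter]
      constructor
      · intro h γ hγ
        by_contra hne
        exact hγ (h hne)
      · intro h γ hγ
        by_contra hne
        exact hγ (h γ hne)
    rw [this]
    exact isClosed_biInter fun γ _ => isClosed_eq (continuous_apply γ) continuous_const
  have hUL : ∀ k : K, closure {a | a ∈ L ∩ Sg Γ ∧ f a < k} ⊆ L := fun k =>
    closure_minimal (fun a ha => ha.1.1) hL.isClosed
  have hU'L : ∀ k : K, closure {a | a ∈ L ∩ Sg Γ ∧ k ≤ f a} ⊆ L := fun k =>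
    closure_minimal (fun a ha => ha.1.1) hL.isClosed
  have hbox : ∀ k : G, ∃ F : Finset Γ, (F : Set Γ) ⊆ J ∧ ∃ W ∈ boxes F,
      closure {a | a ∈ L ∩ Sg Γ ∧ f a < k.1} ∩ {v | Function.support v ⊆ J} ⊆ W ∧
      Disjoint (closure {a | a ∈ L ∩ Sg Γ ∧ k.1 ≤ f a} ∩ {v | Function.support v ⊆ J}) W := by
    intro k
    refine exists_box_sep ((hL.of_isClosed_subset isClosed_closure (hUL k.1)).inter_right hsuppcl)
      ((hL.of_isClosed_subset isClosed_closure (hU'L k.1)).inter_right hsuppcl) J ?_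
    intro a ha b hb
    by_contra hne
    have hab : a = b := by
      funext γ
      by_cases hγ : γ ∈ J
      · by_contra h
        exact hne ⟨γ, hγ, h⟩
      · have h1 : a γ = 0 := by
          by_contra h
          exact hγ (ha.2 h)
        have h2 : b γ = 0 := by
          by_contra h
          exact hγ (hb.2 h)
        rw [h1, h2]
    rw [← hab] at hb
    exact sides_disjoint hL hf k.1 k.2 a ha.1 hb.1
  choose F hFJ W hW hW1 hW2 using hbox
  have hcard : #(⋃ F ∈ {F : Finset Γ | (F : Set Γ) ⊆ J}, boxes F : Set (Set (Γ → ℝ))) ≤ ℵ₁ := by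
    refine mk_biUnion_le' h01 _ (mk_finsets_le h01 J hJc) _ fun F _ => ?_
    exact (Cardinal.le_aleph0_iff_set_countable.2 (boxes_countable F)).trans h01
  refine le_trans ?_ hcard
  refine Cardinal.mk_le_of_injective (f := fun k : G =>
    (⟨W k, mem_biUnion (show F k ∈ {F : Finset Γ | (F : Set Γ) ⊆ J} from hFJ k) (hW k)⟩ :
      (⋃ F ∈ {F : Finset Γ | (F : Set Γ) ⊆ J}, boxes F : Set (Set (Γ → ℝ))))) ?_
  -- injectivity
  have hlt : ∀ k k' : G, k.1 < k'.1 → W k ≠ W k' := by
    intro k k' hkk heq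
    obtain ⟨y, hyk', hy⟩ := k'.2 {k.1} (by simpa using hkk) (countable_singleton _)
    have hky : k.1 < y := hy _ (mem_singleton _)
    obtain ⟨l0, hl0, hl0y⟩ := hs y
    have hlL : res J l0 ∈ L := (hJ l0 hl0).1
    have hly : f (res J l0) = y := by rw [(hJ l0 hl0).2, hl0y]
    have hsupp : Function.support (res J l0) ⊆ J := support_res_subset J l0
    have h1 : res J l0 ∈ W k' := by
      refine hW1 k' ⟨?_, hsupp⟩
      have := exists_sigma_mem hd hf (isOpen_Iio (a := k'.1)) hlL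
        (show f (res J l0) < k'.1 by rw [hly]; exact hyk')
      refine closure_mono ?_ this
      exact fun a ha => ⟨ha.1, ha.2⟩
    have h2 : res J l0 ∉ W k := by
      have h3 : res J l0 ∈ closure {a | a ∈ L ∩ Sg Γ ∧ k.1 ≤ f a} ∩
          {v | Function.support v ⊆ J} := by
        refine ⟨?_, hsupp⟩
        have := exists_sigma_mem hd hf (isOpen_Ioi (a := k.1)) hlL
          (show k.1 < f (res J l0) by rw [hly]; exact hky)
        refine closure_mono ?_ this
        exact fun a ha => ⟨ha.1, le_of_lt ha.2⟩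
      exact Set.disjoint_left.1 (hW2 k) h3
    rw [heq] at h2
    exact h2 h1
  intro k k' hkk
  have hkk' : W k = W k' := congrArg Subtype.val hkk
  rcases lt_trichotomy k.1 k'.1 with h | h | h
  · exact absurd hkk' (hlt k k' h)
  · exact Subtype.ext h
  · exact absurd hkk'.symm (hlt k' k h)

/-- At most aleph one points are not limits of countable sets from the right. -/
theorem mk_right_le {L : Set (Γ → ℝ)} (hL : IsCompact L) (hd : L ⊆ closure (L ∩ Sg Γ))
    {f : (Γ → ℝ) → K} (hf : ContinuousOn f L) (hs : ∀ k, ∃ x ∈ L, f x = k) :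
    #{k : K | ∀ Y : Set K, Y ⊆ Ioi k → Y.Countable → ∃ y, k < y ∧ ∀ y' ∈ Y, y < y'} ≤ ℵ₁ := by
  have : CompactSpace Kᵒᵈ := inferInstanceAs (CompactSpace K)
  have h := mk_left_le (K := Kᵒᵈ) hL hd (f := fun v => OrderDual.toDual (f v))
    (continuous_toDual.comp_continuousOn hf)
    (fun k => by
      obtain ⟨v, hv, hvk⟩ := hs (OrderDual.ofDual k)
      exact ⟨v, hv, congrArg OrderDual.toDual hvk⟩)
  exact h

/-- The neighbourhood filter is countably generated when both sides have countable cofinality. -/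
theorem isCountablyGenerated_of_sides (k : K)
    (h1 : ¬ ∀ Y : Set K, Y ⊆ Iio k → Y.Countable → ∃ y < k, ∀ y' ∈ Y, y' < y)
    (h2 : ¬ ∀ Y : Set K, Y ⊆ Ioi k → Y.Countable → ∃ y, k < y ∧ ∀ y' ∈ Y, y < y') :
    (𝓝 k).IsCountablyGenerated := by
  obtain ⟨Y, hY, hYc, hYcof⟩ : ∃ Y : Set K, Y ⊆ Iio k ∧ Y.Countable ∧ ∀ y < k, ∃ y' ∈ Y, y ≤ y' := by
    by_contra hcon
    refine h1 fun Y hY hYc => ?_
    by_contra h
    refine hcon ⟨Y, hY, hYc, fun y hy => ?_⟩
    by_contra h3
    refine h ⟨y, hy, fun y' hy' => ?_⟩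
    by_contra h4
    exact h3 ⟨y', hy', not_lt.1 h4⟩
  obtain ⟨Z, hZ, hZc, hZcof⟩ : ∃ Z : Set K, Z ⊆ Ioi k ∧ Z.Countable ∧ ∀ y, k < y → ∃ y' ∈ Z, y' ≤ y := by
    by_contra hcon
    refine h2 fun Y hY hYc => ?_
    by_contra h
    refine hcon ⟨Y, hY, hYc, fun y hy => ?_⟩
    by_contra h3
    refine h ⟨y, hy, fun y' hy' => ?_⟩
    by_contra h4
    exact h3 ⟨y', hy', not_lt.1 h4⟩
  have e1 : (⨅ b ∈ Iio k, Filter.principal (Ioi b)) = ⨅ b : Y, Filter.principal (Ioi b.1) := by
    refine le_antisymm ?_ ?_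
    · refine le_iInf fun b => ?_
      exact iInf₂_le b.1 (hY b.2)
    · refine le_iInf₂ fun b hb => ?_
      obtain ⟨y', hy', hle⟩ := hYcof b hb
      exact (iInf_le _ (⟨y', hy'⟩ : Y)).trans (Filter.principal_mono.2 (Ioi_subset_Ioi hle))
  have e2 : (⨅ b ∈ Ioi k, Filter.principal (Iio b)) = ⨅ b : Z, Filter.principal (Iio b.1) := by
    refine le_antisymm ?_ ?_
    · refine le_iInf fun b => ?_
      exact iInf₂_le b.1 (hZ b.2)
    · refine le_iInf₂ fun b hb => ?_
      obtain ⟨y', hy', hle⟩ := hZcof b hb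
      exact (iInf_le _ (⟨y', hy'⟩ : Z)).trans (Filter.principal_mono.2 (Iio_subset_Iio hle))
  have : Countable Y := hYc.to_subtype
  have : Countable Z := hZc.to_subtype
  rw [nhds_eq_order, e1, e2]
  infer_instance

end Pool.Agent.Helper811
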