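import Mathlib

set_option autoImplicit false

open Set Topology

namespace Pool.Agent.Helper811.Cplx

/-! ### Three dimensional vectors -/

abbrev V3 : Type := Fin 3 → ℂ

/-- The square of the Euclidean norm. -/
noncomputable def n2 (x : V3) : ℝ := ‖x 0‖ ^ 2 + ‖x 1‖ ^ 2 + ‖x 2‖ ^ 2

/-- Coordinatewise complex conjugation. -/
noncomputable def cj (x : V3) : V3 := fun i => (starRingEnd ℂ) (x i)

/-- `x` is a multiple of `y` with a coefficient in the unit disc. -/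
def Dk (x y : V3) : Prop := ∃ ζ : ℂ, ‖ζ‖ ≤ 1 ∧ x = ζ • y

/-- The bilinear pairing. -/
noncomputable def bl (x y : V3) : ℂ := x 0 * y 0 + x 1 * y 1 + x 2 * y 2

theorem n2_nonneg (x : V3) : 0 ≤ n2 x := by unfold n2; positivity

theorem n2_cj (x : V3) : n2 (cj x) = n2 x := by
  simp [n2, cj]

theorem cj_cj (x : V3) : cj (cj x) = x := by
  funext i; simp [cj]

theorem n2_smul (s : ℂ) (x : V3) : n2 (s • x) = ‖s‖ ^ 2 * n2 x := by
  simp only [n2, Pi.smul_apply, smul_eq_mul, norm_mul]; ring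

theorem n2_smul_le {s : ℂ} (hs : ‖s‖ ≤ 1) (x : V3) : n2 (s • x) ≤ n2 x := by
  rw [n2_smul]
  have h1 : ‖s‖ ^ 2 ≤ 1 := by
    have := norm_nonneg s
    nlinarith
  have := n2_nonneg x
  nlinarith

theorem Dk.n2_le {x y : V3} (h : Dk x y) : n2 x ≤ n2 y := by
  obtain ⟨ζ, hζ, rfl⟩ := h
  exact n2_smul_le hζ y

theorem Dk.coord_le {x y : V3} (h : Dk x y) (i : Fin 3) : ‖x i‖ ≤ ‖y i‖ := by
  obtain ⟨ζ, hζ, rfl⟩ := h
  rw [Pi.smul_apply, smul_eq_mul, norm_mul]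
  have := norm_nonneg (y i)
  nlinarith

theorem coord_sq_le (x : V3) (i : Fin 3) : ‖x i‖ ^ 2 ≤ n2 x := by
  have h0 := sq_nonneg ‖x 0‖
  have h1 := sq_nonneg ‖x 1‖
  have h2 := sq_nonneg ‖x 2‖
  unfold n2
  fin_cases i
  · show ‖x 0‖ ^ 2 ≤ _; linarith
  · show ‖x 1‖ ^ 2 ≤ _; linarith
  · show ‖x 2‖ ^ 2 ≤ _; linarith

theorem coord_sq_add_le (x : V3) (i j : Fin 3) (hij : i ≠ j) : ‖x i‖ ^ 2 + ‖x j‖ ^ 2 ≤ n2 x := by
  have h0 := sq_nonneg ‖x 0‖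
  have h1 := sq_nonneg ‖x 1‖
  have h2 := sq_nonneg ‖x 2‖
  unfold n2
  fin_cases i <;> fin_cases j <;>
    first
    | exact absurd rfl hij
    | (simp only [Fin.zero_eta, Fin.mk_one, Fin.reduceFinMk]; linarith)

theorem cs (x y : V3) : ‖bl x y‖ ^ 2 ≤ n2 x * n2 y := by
  have h1 : ‖bl x y‖ ≤ ‖x 0‖ * ‖y 0‖ + ‖x 1‖ * ‖y 1‖ + ‖x 2‖ * ‖y 2‖ := by
    unfold bl
    refine (norm_add_le _ _).trans ?_
    rw [norm_mul (x 2)]
    refine add_le_add_left ((norm_add_le _ _).trans ?_) _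
    rw [norm_mul, norm_mul]
  have h2 : ‖bl x y‖ ^ 2 ≤ (‖x 0‖ * ‖y 0‖ + ‖x 1‖ * ‖y 1‖ + ‖x 2‖ * ‖y 2‖) ^ 2 :=
    pow_le_pow_left₀ (norm_nonneg _) h1 2
  refine h2.trans ?_
  unfold n2
  nlinarith [sq_nonneg (‖x 0‖ * ‖y 1‖ - ‖x 1‖ * ‖y 0‖), sq_nonneg (‖x 0‖ * ‖y 2‖ - ‖x 2‖ * ‖y 0‖),
    sq_nonneg (‖x 1‖ * ‖y 2‖ - ‖x 2‖ * ‖y 1‖)]

theorem n2_sub (x y : V3) : n2 (x - y) = n2 x + n2 y - 2 * (bl x (cj y)).re := by
  have h : ∀ a b : ℂ, ‖a - b‖ ^ 2 = ‖a‖ ^ 2 + ‖b‖ ^ 2 - 2 * (a * (starRingEnd ℂ) b).re := by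
    intro a b
    rw [← Complex.normSq_eq_norm_sq, ← Complex.normSq_eq_norm_sq, ← Complex.normSq_eq_norm_sq,
      Complex.normSq_sub]
  simp only [n2, bl, cj, Pi.sub_apply, Complex.add_re, h]
  ring

theorem bl_self (v : V3) : (bl v (cj v)).re = n2 v := by
  simp only [n2, bl, cj, Complex.add_re, Complex.mul_conj, Complex.ofReal_re,
    Complex.normSq_eq_norm_sq]

theorem re_bl_le {y v : V3} (hy : n2 y ≤ 1) (hv : n2 v = 1) : (bl y (cj v)).re ≤ 1 := by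
  have h1 := n2_nonneg (y - v)
  rw [n2_sub] at h1
  linarith

theorem q_ineq {y v q : V3} (hq : bl q (cj v) = 0) (hy : n2 y ≤ 1) (hv : n2 v = 1) :
    ‖bl q (cj y)‖ ^ 2 ≤ n2 q * (2 - 2 * (bl y (cj v)).re) := by
  have h1 : bl q (cj y) = bl q (cj (y - v)) := by
    have : bl q (cj (y - v)) = bl q (cj y) - bl q (cj v) := by
      simp only [bl, cj, Pi.sub_apply, map_sub]; ring
    rw [this, hq, sub_zero]
  rw [h1]
  refine (cs _ _).trans ?_
  rw [n2_cj, n2_sub]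
  refine mul_le_mul_of_nonneg_left ?_ (n2_nonneg q)
  linarith

theorem add_le_of_sq {x y : ℝ} (h : x ^ 2 + y ^ 2 ≤ 1) : x + y ≤ 3 / 2 := by
  nlinarith [sq_nonneg (x - y), sq_nonneg (x + y - 3 / 2)]

theorem bessel {x v : V3} {a : Fin 3} (hva : v a = 0) (hv : n2 v = 1) (hx : n2 x ≤ 1) :
    ‖x a‖ + ‖bl x v‖ ≤ 3 / 2 := by
  apply add_le_of_sq
  have h1 : bl x v = bl (fun i => if i = a then 0 else x i) v := by
    fin_cases a
    · simp only [Fin.zero_eta] at hva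
      simp [bl, hva]
    · simp only [Fin.mk_one] at hva
      simp [bl, hva]
    · simp only [Fin.reduceFinMk] at hva
      simp [bl, hva]
  have h2 : ‖x a‖ ^ 2 + n2 (fun i => if i = a then 0 else x i) = n2 x := by
    fin_cases a
    · simp [n2]; ring
    · simp [n2]; ring
    · simp [n2]; ring
  have h3 := cs (fun i => if i = a then 0 else x i) v
  rw [← h1, hv, mul_one] at h3
  linarith

/-- The unit vectors. -/
noncomputable def e (j : Fin 3) : V3 := Pi.single j 1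

/-! ### The generating set -/

inductive Ix (A B : Type) : Type
  | z : Ix A B
  | y (b : B) : Ix A B
  | w (a : A) (b : B) : Ix A B

abbrev Sp (A B : Type) : Type := Ix A B → V3

variable {A B : Type}

def GenII (β : Option B) (φ : Sp A B) : Prop :=
  n2 (φ .z) ≤ 1 ∧
  (∀ b, β = some b → n2 (φ (.y b)) ≤ 1 ∧ ∀ a, Dk (φ (.w a b)) (cj (φ (.y b)))) ∧
  (∀ b, β ≠ some b → Dk (φ (.y b)) (cj (φ .z)) ∧ ∀ a, Dk (φ (.w a b)) (φ .z))

def GenIII (a0 : A) (b0 : B) (φ : Sp A B) : Prop :=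
  n2 (φ .z) ≤ 1 / 4 ∧ n2 (φ (.y b0)) ≤ 1 ∧ n2 (φ (.w a0 b0)) ≤ 1 ∧
  (∀ a, a ≠ a0 → Dk (φ (.w a b0)) (cj (φ (.y b0)))) ∧
  (∀ b, b ≠ b0 → Dk (φ (.y b)) (cj (φ .z)) ∧ φ (.w a0 b) = φ .z ∧
    ∀ a, a ≠ a0 → Dk (φ (.w a b)) (φ .z))

def Gen (A B : Type) : Set (Sp A B) := {φ | (∃ β, GenII β φ) ∨ ∃ a0 b0, GenIII a0 b0 φ}

def KK (A B : Type) : Set (Sp A B) := closure (convexHull ℝ (Gen A B))

theorem gen_bound {φ : Sp A B} (h : φ ∈ Gen A B) (c : Ix A B) : n2 (φ c) ≤ 1 := by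
  classical
  rcases h with ⟨β, h1, h2, h3⟩ | ⟨a0, b0, h1, h2, h3, h4, h5⟩
  · rcases c with _ | b | ⟨a, b⟩
    · exact h1
    · by_cases hb : β = some b
      · exact (h2 b hb).1
      · have := ((h3 b hb).1).n2_le
        rw [n2_cj] at this
        exact this.trans h1
    · by_cases hb : β = some b
      · have := ((h2 b hb).2 a).n2_le
        rw [n2_cj] at this
        exact this.trans (h2 b hb).1
      · exact ((h3 b hb).2 a).n2_le.trans h1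
  · rcases c with _ | b | ⟨a, b⟩
    · linarith
    · by_cases hb : b = b0
      · rw [hb]; exact h2
      · have := (h5 b hb).1.n2_le
        rw [n2_cj] at this
        linarith
    · by_cases hb : b = b0
      · rw [hb]
        by_cases ha : a = a0
        · rw [ha]; exact h3
        · have := (h4 a ha).n2_le
          rw [n2_cj] at this
          linarith
      · by_cases ha : a = a0
        · rw [ha, (h5 b hb).2.1]; linarith
        · have := ((h5 b hb).2.2 a ha).n2_le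
          linarith

theorem Gen_subset_KK : Gen A B ⊆ KK A B := (subset_convexHull ℝ _).trans subset_closure

theorem KK_convex : Convex ℝ (KK A B) := (convex_convexHull ℝ _).closure

theorem KK_closed : IsClosed (KK A B) := isClosed_closure

theorem KK_min {T : Set (Sp A B)} (h1 : Gen A B ⊆ T) (h2 : Convex ℝ T) (h3 : IsClosed T) :
    KK A B ⊆ T := closure_minimal (convexHull_min h1 h2) h3

theorem hull_ineq (F : Sp A B → ℂ) (Λ : Sp A B → ℝ) (C m : ℝ)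
    (hF : ∀ (s t : ℝ) (φ ψ : Sp A B), F (s • φ + t • ψ) = (s : ℂ) * F φ + (t : ℂ) * F ψ)
    (hFc : Continuous F)
    (hΛ : ∀ (s t : ℝ) (φ ψ : Sp A B), Λ (s • φ + t • ψ) = s * Λ φ + t * Λ ψ) (hΛc : Continuous Λ)
    (h : ∀ φ ∈ Gen A B, ‖F φ‖ ^ 2 ≤ C * (m - Λ φ)) :
    ∀ φ ∈ KK A B, ‖F φ‖ ^ 2 ≤ C * (m - Λ φ) := by
  refine fun φ hφ => KK_min (T := {φ | ‖F φ‖ ^ 2 ≤ C * (m - Λ φ)}) h ?_ ?_ hφ
  · intro φ hφ ψ hψ s t hs ht hst
    simp only [mem_ofPred_eq] at hφ hψ ⊢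
    rw [hF, hΛ]
    have h1 : ‖(s : ℂ) * F φ + (t : ℂ) * F ψ‖ ≤ s * ‖F φ‖ + t * ‖F ψ‖ := by
      refine (norm_add_le _ _).trans ?_
      rw [norm_mul, norm_mul, Complex.norm_real, Complex.norm_real, Real.norm_of_nonneg hs,
        Real.norm_of_nonneg ht]
    have h2 : ‖(s : ℂ) * F φ + (t : ℂ) * F ψ‖ ^ 2 ≤ (s * ‖F φ‖ + t * ‖F ψ‖) ^ 2 :=
      pow_le_pow_left₀ (norm_nonneg _) h1 2
    have h3 : t = 1 - s := by linarith
    subst h3
    have h4 : 0 ≤ s * (1 - s) * (‖F φ‖ - ‖F ψ‖) ^ 2 := by positivity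
    nlinarith
  · exact isClosed_le (by fun_prop) (by fun_prop)

theorem KK_bound {φ : Sp A B} (h : φ ∈ KK A B) (c : Ix A B) : n2 (φ c) ≤ 1 := by
  refine KK_min (T := {φ | n2 (φ c) ≤ 1}) (fun φ hφ => gen_bound hφ c) ?_ ?_ h
  · intro φ hφ ψ hψ s t hs ht hst
    simp only [mem_ofPred_eq] at hφ hψ ⊢
    have key : ∀ a b : ℂ, ‖s • a + t • b‖ ^ 2 ≤ s * ‖a‖ ^ 2 + t * ‖b‖ ^ 2 := by
      intro a b
      have h1 : ‖s • a + t • b‖ ≤ s * ‖a‖ + t * ‖b‖ := by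
        refine (norm_add_le _ _).trans ?_
        rw [norm_smul, norm_smul, Real.norm_of_nonneg hs, Real.norm_of_nonneg ht]
      have h2 : ‖s • a + t • b‖ ^ 2 ≤ (s * ‖a‖ + t * ‖b‖) ^ 2 :=
        pow_le_pow_left₀ (norm_nonneg _) h1 2
      have h3 : t = 1 - s := by linarith
      subst h3
      have h4 : 0 ≤ s * (1 - s) * (‖a‖ - ‖b‖) ^ 2 := by positivity
      nlinarith
    have k0 := key (φ c 0) (ψ c 0)
    have k1 := key (φ c 1) (ψ c 1)
    have k2 := key (φ c 2) (ψ c 2)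
    have e : n2 ((s • φ + t • ψ) c) = ‖s • φ c 0 + t • ψ c 0‖ ^ 2 + ‖s • φ c 1 + t • ψ c 1‖ ^ 2 +
      ‖s • φ c 2 + t • ψ c 2‖ ^ 2 := rfl
    rw [e]
    unfold n2 at hφ hψ
    nlinarith
  · unfold n2
    exact isClosed_le (by fun_prop) (by fun_prop)

theorem KK_compact : IsCompact (KK A B) := by
  have h1 : IsCompact {φ : Sp A B | ∀ c i, φ c i ∈ Metric.closedBall (0 : ℂ) 1} := by
    have h2 : {φ : Sp A B | ∀ c i, φ c i ∈ Metric.closedBall (0 : ℂ) 1} =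
        Set.pi Set.univ (fun _ => Set.pi Set.univ (fun _ => Metric.closedBall (0 : ℂ) 1)) := by
      ext φ
      simp only [mem_ofPred_eq, mem_pi, mem_univ, true_imp_iff]
    rw [h2]
    exact isCompact_univ_pi fun _ => isCompact_univ_pi fun _ => isCompact_closedBall _ _
  refine h1.of_isClosed_subset KK_closed ?_
  intro φ hφ c i
  rw [mem_closedBall_zero_iff]
  have h3 := (coord_sq_le (φ c) i).trans (KK_bound hφ c)
  have h4 := norm_nonneg (φ c i)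
  nlinarith

/-! ### Balancedness -/

theorem Dk.smul_smul {x y : V3} (h : Dk x y) (s : ℂ) : Dk (s • x) (s • y) := by
  obtain ⟨ζ, hζ, rfl⟩ := h
  exact ⟨ζ, hζ, by rw [smul_comm]⟩

theorem Dk.smul_cj {x y : V3} (h : Dk x (cj y)) (s : ℂ) : Dk (s • x) (cj (s • y)) := by
  by_cases hs : s = 0
  · subst hs
    exact ⟨0, by simp, by simp⟩
  obtain ⟨ζ, hζ, rfl⟩ := h
  have hcs : (starRingEnd ℂ) s ≠ 0 := by simpa using hs
  refine ⟨ζ * s / (starRingEnd ℂ) s, ?_, ?_⟩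
  · rw [norm_div, norm_mul, RCLike.norm_conj, mul_div_assoc, div_self (norm_ne_zero_iff.2 hs), mul_one]
    exact hζ
  · funext i
    simp only [Pi.smul_apply, smul_eq_mul, cj, map_mul]
    field_simp

theorem gen_smul {φ : Sp A B} (h : φ ∈ Gen A B) {s : ℂ} (hs : ‖s‖ ≤ 1) : s • φ ∈ Gen A B := by
  rcases h with ⟨β, h1, h2, h3⟩ | ⟨a0, b0, h1, h2, h3, h4, h5⟩
  · refine Or.inl ⟨β, (n2_smul_le hs _).trans h1, fun b hb => ⟨(n2_smul_le hs _).trans (h2 b hb).1,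
      fun a => ((h2 b hb).2 a).smul_cj s⟩, fun b hb => ⟨(h3 b hb).1.smul_cj s,
      fun a => ((h3 b hb).2 a).smul_smul s⟩⟩
  · refine Or.inr ⟨a0, b0, (n2_smul_le hs _).trans h1, (n2_smul_le hs _).trans h2,
      (n2_smul_le hs _).trans h3, fun a ha => (h4 a ha).smul_cj s, fun b hb =>
      ⟨(h5 b hb).1.smul_cj s, ?_, fun a ha => ((h5 b hb).2.2 a ha).smul_smul s⟩⟩
    show s • φ (.w a0 b) = s • φ .z
    rw [(h5 b hb).2.1]

theorem KK_smul {φ : Sp A B} (h : φ ∈ KK A B) {s : ℂ} (hs : ‖s‖ ≤ 1) : s • φ ∈ KK A B := by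
  refine KK_min (T := {φ | s • φ ∈ KK A B}) (fun φ hφ => Gen_subset_KK (gen_smul hφ hs)) ?_ ?_ h
  · intro φ hφ ψ hψ a b ha hb hab
    simp only [mem_ofPred_eq] at hφ hψ ⊢
    rw [smul_add, smul_comm s a, smul_comm s b]
    exact KK_convex hφ hψ ha hb hab
  · exact KK_closed.preimage (continuous_const_smul s)

theorem KK_nonempty : (0 : Sp A B) ∈ KK A B := by
  refine Gen_subset_KK (Or.inl ⟨none, ?_, ?_, ?_⟩)
  · simp [n2]
  · intro b hb; exact absurd hb (by simp)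
  · intro b _
    exact ⟨⟨0, by simp, by simp⟩, fun a => ⟨0, by simp, by simp⟩⟩

theorem KK_abs {φ ψ : Sp A B} (hφ : φ ∈ KK A B) (hψ : ψ ∈ KK A B) {s t : ℂ}
    (hst : ‖s‖ + ‖t‖ ≤ 1) : s • φ + t • ψ ∈ KK A B := by
  have hs0 := norm_nonneg s
  have ht0 := norm_nonneg t
  by_cases ht : ‖t‖ = 0
  · rw [norm_eq_zero] at ht
    subst ht
    rw [zero_smul, add_zero]
    exact KK_smul hφ (by linarith)
  by_cases ht1 : ‖t‖ = 1
  · have : ‖s‖ = 0 := by linarith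
    rw [norm_eq_zero] at this
    subst this
    rw [zero_smul, zero_add]
    exact KK_smul hψ ht1.le
  have hlt : ‖t‖ < 1 := lt_of_le_of_ne (by linarith) ht1
  have hpos : 0 < ‖t‖ := lt_of_le_of_ne ht0 (Ne.symm ht)
  have ha : 0 < 1 - ‖t‖ := by linarith
  have hac : ((1 - ‖t‖ : ℝ) : ℂ) ≠ 0 := by exact_mod_cast ha.ne'
  have htc : ((‖t‖ : ℝ) : ℂ) ≠ 0 := by exact_mod_cast hpos.ne'
  have h1 : (s / ((1 - ‖t‖ : ℝ) : ℂ)) • φ ∈ KK A B := by
    refine KK_smul hφ ?_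
    rw [norm_div, Complex.norm_real, Real.norm_of_nonneg ha.le, div_le_one ha]
    linarith
  have h2 : (t / ((‖t‖ : ℝ) : ℂ)) • ψ ∈ KK A B := by
    refine KK_smul hψ ?_
    rw [norm_div, Complex.norm_real, Real.norm_of_nonneg ht0, div_self ht]
  have h3 := KK_convex h1 h2 ha.le ht0 (by ring)
  convert h3 using 2
  · rw [← Complex.coe_smul, smul_smul, mul_div_cancel₀ _ hac]
  · rw [← Complex.coe_smul, smul_smul, mul_div_cancel₀ _ htc]

end Pool.Agent.Helper811.Cplx
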