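import Pool.Agent.Helper811.Cplx

set_option autoImplicit false

open Set Topology

namespace Pool.Agent.Helper811.Cplx

variable {A B : Type}

/-! ### The first forcing functional -/

noncomputable def LA (b0 : B) (a : Fin 3) (v : V3) (φ : Sp A B) : ℝ :=
  (φ .z a).re + (bl (φ (.y b0)) (cj v)).re

theorem bl_add_left (x y v : V3) : bl (x + y) v = bl x v + bl y v := by
  simp only [bl, Pi.add_apply]; ring

theorem bl_smul_left (s : ℂ) (x v : V3) : bl (s • x) v = s * bl x v := by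
  simp only [bl, Pi.smul_apply, smul_eq_mul]; ring

theorem bl_cj (x v : V3) : bl (cj x) (cj v) = (starRingEnd ℂ) (bl x v) := by
  simp only [bl, cj, map_add, map_mul]

theorem abs_re_le (c : ℂ) : c.re ≤ ‖c‖ := Complex.re_le_norm c

theorem re_coord_le {x : V3} (hx : n2 x ≤ 1) (a : Fin 3) : (x a).re ≤ 1 := by
  have h1 := abs_re_le (x a)
  have h2 := coord_sq_le x a
  have h3 := norm_nonneg (x a)
  nlinarith

theorem re_coord_le' {x : V3} (hx : n2 x ≤ 1 / 4) (a : Fin 3) : (x a).re ≤ 1 / 2 := by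
  have h1 := abs_re_le (x a)
  have h2 := coord_sq_le x a
  have h3 := norm_nonneg (x a)
  nlinarith

/-- The value of the first functional when the column is not exceptional. -/
theorem LA_le_of_Dk {φ : Sp A B} {b0 : B} {a : Fin 3} {v : V3} (hva : v a = 0) (hv : n2 v = 1)
    (hz : n2 (φ .z) ≤ 1) (hy : Dk (φ (.y b0)) (cj (φ .z))) : LA b0 a v φ ≤ 3 / 2 := by
  obtain ⟨ζ, hζ, hy⟩ := hy
  have h1 := bessel hva hv hz
  have h2 : (bl (φ (.y b0)) (cj v)).re ≤ ‖bl (φ .z) v‖ := by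
    refine (abs_re_le _).trans ?_
    rw [hy, bl_smul_left, bl_cj, norm_mul, RCLike.norm_conj]
    have := norm_nonneg (bl (φ .z) v)
    nlinarith
  have h3 := abs_re_le (φ .z a)
  unfold LA
  linarith

theorem LA_cases {φ : Sp A B} (h : φ ∈ Gen A B) (b0 : B) (a : Fin 3) (v : V3) (hva : v a = 0)
    (hv : n2 v = 1) : LA b0 a v φ ≤ 3 / 2 ∨ GenII (some b0) φ := by
  classical
  rcases h with ⟨β, h⟩ | ⟨a1, b1, h⟩
  · by_cases hβ : β = some b0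
    · subst hβ
      exact Or.inr h
    · exact Or.inl (LA_le_of_Dk hva hv h.1 (h.2.2 b0 hβ).1)
  · left
    by_cases hb : b1 = b0
    · subst hb
      have h1 := re_coord_le' h.1 a
      have h2 := re_bl_le h.2.1 hv
      unfold LA
      linarith
    · have hz : n2 (φ .z) ≤ 1 := by linarith [h.1]
      exact LA_le_of_Dk hva hv hz (h.2.2.2.2 b0 (Ne.symm hb)).1

theorem coord_le_of_re {x : V3} (hx : n2 x ≤ 1) {a i : Fin 3} (hi : i ≠ a) :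
    ‖x i‖ ^ 2 ≤ 2 * (1 - (x a).re) := by
  have h1 := coord_sq_add_le x i a hi
  have h2 := re_coord_le hx a
  have h3 : (x a).re ^ 2 ≤ ‖x a‖ ^ 2 := by
    rw [← Complex.normSq_eq_norm_sq, Complex.normSq_apply]
    nlinarith [sq_nonneg (x a).im]
  have h4 : -1 ≤ (x a).re := by
    have h5 := coord_sq_le x a
    nlinarith
  nlinarith

theorem LA_lin (b0 : B) (a : Fin 3) (v : V3) (s t : ℝ) (φ ψ : Sp A B) :
    LA b0 a v (s • φ + t • ψ) = s * LA b0 a v φ + t * LA b0 a v ψ := by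
  have e1 : (s • φ + t • ψ) (.y b0) = (s : ℂ) • φ (.y b0) + (t : ℂ) • ψ (.y b0) := by
    funext i
    show s • φ (.y b0) i + t • ψ (.y b0) i = (s : ℂ) • φ (.y b0) i + (t : ℂ) • ψ (.y b0) i
    rw [Complex.coe_smul, Complex.coe_smul]
  unfold LA
  rw [e1, bl_add_left, bl_smul_left, bl_smul_left]
  have e2 : (s • φ + t • ψ) .z a = s • φ .z a + t • ψ .z a := rfl
  rw [e2]
  simp only [Complex.add_re, Complex.real_smul, Complex.re_ofReal_mul]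
  ring

theorem continuous_bl (c : Ix A B) (u : V3) : Continuous fun φ : Sp A B => bl (φ c) u := by
  unfold bl
  fun_prop

theorem LA_cont (b0 : B) (a : Fin 3) (v : V3) : Continuous (LA (A := A) b0 a v) := by
  unfold LA
  have := continuous_bl (A := A) (Ix.y b0) (cj v)
  fun_prop

/-- The general consequence of maximality of the first functional. -/
theorem forcedA_aux (b0 : B) (a : Fin 3) (v : V3) (hva : v a = 0) (hv : n2 v = 1)
    (F : Sp A B → ℂ) (C : ℝ) (hC : 0 ≤ C)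
    (hF : ∀ (s t : ℝ) (φ ψ : Sp A B), F (s • φ + t • ψ) = (s : ℂ) * F φ + (t : ℂ) * F ψ)
    (hFc : Continuous F)
    (h1 : ∀ φ ∈ Gen A B, ‖F φ‖ ^ 2 ≤ C / 2)
    (h2 : ∀ φ, GenII (some b0) φ → ‖F φ‖ ^ 2 ≤ C * (2 - LA b0 a v φ))
    {φ : Sp A B} (hφ : φ ∈ KK A B) (hz : φ .z = e a) (hy : φ (.y b0) = v) : F φ = 0 := by
  have h3 := hull_ineq F (LA b0 a v) C 2 hF hFc (LA_lin b0 a v) (LA_cont b0 a v)
    (fun φ hφ => by
      rcases LA_cases hφ b0 a v hva hv with h | h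
      · refine (h1 φ hφ).trans ?_
        nlinarith
      · exact h2 φ h) φ hφ
  have h4 : LA b0 a v φ = 2 := by
    unfold LA
    rw [hz, hy, bl_self, hv]
    simp [e]
    norm_num
  rw [h4] at h3
  have h5 : ‖F φ‖ ^ 2 ≤ 0 := by simpa using h3
  have h6 : ‖F φ‖ = 0 := by
    have := sq_nonneg ‖F φ‖
    have : ‖F φ‖ ^ 2 = 0 := le_antisymm h5 this
    exact pow_eq_zero_iff (two_ne_zero) |>.1 this
  exact norm_eq_zero.1 h6

theorem coord_lin (c : Ix A B) (i : Fin 3) (s t : ℝ) (φ ψ : Sp A B) :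
    (s • φ + t • ψ) c i = (s : ℂ) * φ c i + (t : ℂ) * ψ c i := by
  show s • φ c i + t • ψ c i = _
  rw [Complex.real_smul, Complex.real_smul]

theorem forcedA_y {φ : Sp A B} (hφ : φ ∈ KK A B) {b0 : B} {a : Fin 3} {v : V3} (hva : v a = 0)
    (hv : n2 v = 1) (hz : φ .z = e a) (hy : φ (.y b0) = v) {b : B} (hb : b ≠ b0) {i : Fin 3}
    (hi : i ≠ a) : φ (.y b) i = 0 := by
  refine forcedA_aux b0 a v hva hv (fun φ => φ (.y b) i) 2 (by norm_num)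
    (fun s t φ ψ => coord_lin _ _ s t φ ψ) (by fun_prop) ?_ ?_ hφ hz hy
  · intro φ hφ
    have := (coord_sq_le (φ (.y b)) i).trans (gen_bound hφ _)
    linarith
  · intro φ h
    have h1 := (h.2.2 b (by simpa using Ne.symm hb)).1.coord_le i
    have h2 : ‖cj (φ .z) i‖ = ‖φ .z i‖ := by simp [cj]
    rw [h2] at h1
    have h3 := coord_le_of_re h.1 hi
    have h4 := re_bl_le (h.2.1 b0 rfl).1 hv
    have h5 : ‖φ (.y b) i‖ ^ 2 ≤ ‖φ .z i‖ ^ 2 := pow_le_pow_left₀ (norm_nonneg _) h1 2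
    show ‖φ (.y b) i‖ ^ 2 ≤ _
    unfold LA
    linarith

theorem forcedA_w {φ : Sp A B} (hφ : φ ∈ KK A B) {b0 : B} {a : Fin 3} {v : V3} (hva : v a = 0)
    (hv : n2 v = 1) (hz : φ .z = e a) (hy : φ (.y b0) = v) (a' : A) {b : B} (hb : b ≠ b0)
    {i : Fin 3} (hi : i ≠ a) : φ (.w a' b) i = 0 := by
  refine forcedA_aux b0 a v hva hv (fun φ => φ (.w a' b) i) 2 (by norm_num)
    (fun s t φ ψ => coord_lin _ _ s t φ ψ) (by fun_prop) ?_ ?_ hφ hz hy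
  · intro φ hφ
    have := (coord_sq_le (φ (.w a' b)) i).trans (gen_bound hφ _)
    linarith
  · intro φ h
    have h1 := ((h.2.2 b (by simpa using Ne.symm hb)).2 a').coord_le i
    have h3 := coord_le_of_re h.1 hi
    have h4 := re_bl_le (h.2.1 b0 rfl).1 hv
    have h5 : ‖φ (.w a' b) i‖ ^ 2 ≤ ‖φ .z i‖ ^ 2 := pow_le_pow_left₀ (norm_nonneg _) h1 2
    show ‖φ (.w a' b) i‖ ^ 2 ≤ _
    unfold LA
    linarith

theorem forcedA_q {φ : Sp A B} (hφ : φ ∈ KK A B) {b0 : B} {a : Fin 3} {v : V3} (hva : v a = 0)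
    (hv : n2 v = 1) (hz : φ .z = e a) (hy : φ (.y b0) = v) (a' : A) {q : V3}
    (hq : bl q (cj v) = 0) : bl q (φ (.w a' b0)) = 0 := by
  have hq0 := n2_nonneg q
  refine forcedA_aux b0 a v hva hv (fun φ => bl q (φ (.w a' b0))) (2 * n2 q) (by positivity)
    ?_ ?_ ?_ ?_ hφ hz hy
  · intro s t φ ψ
    simp only [bl, coord_lin]
    ring
  · unfold bl
    fun_prop
  · intro φ hφ
    refine (cs _ _).trans ?_
    have := gen_bound hφ (.w a' b0)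
    nlinarith
  · intro φ h
    obtain ⟨ζ, hζ, hw⟩ := (h.2.1 b0 rfl).2 a'
    show ‖bl q (φ (.w a' b0))‖ ^ 2 ≤ _
    have h1 : bl q (φ (.w a' b0)) = ζ * bl q (cj (φ (.y b0))) := by
      rw [hw]
      simp only [bl, Pi.smul_apply, smul_eq_mul]
      ring
    have h2 := q_ineq hq (h.2.1 b0 rfl).1 hv
    have h3 : ‖bl q (φ (.w a' b0))‖ ^ 2 ≤ ‖bl q (cj (φ (.y b0)))‖ ^ 2 := by
      rw [h1, norm_mul]
      refine pow_le_pow_left₀ (by positivity) ?_ 2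
      have := norm_nonneg (bl q (cj (φ (.y b0))))
      nlinarith
    refine h3.trans (h2.trans ?_)
    have h4 := re_coord_le h.1 a
    have h5 : 2 - 2 * (bl (φ (.y b0)) (cj v)).re ≤ 2 * (2 - LA b0 a v φ) := by
      unfold LA
      linarith
    calc n2 q * (2 - 2 * (bl (φ (.y b0)) (cj v)).re) ≤ n2 q * (2 * (2 - LA b0 a v φ)) :=
          mul_le_mul_of_nonneg_left h5 hq0
      _ = 2 * n2 q * (2 - LA b0 a v φ) := by ring

/-! ### The second forcing functional -/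

noncomputable def LB (a0 : A) (b0 : B) (j k : Fin 3) (σ τ : ℝ) (φ : Sp A B) : ℝ :=
  (φ .z 0).re + 2 * (σ * (φ (.y b0) j).re) + 2 * (τ * (φ (.w a0 b0) k).re)

theorem sgn_re_le {σ : ℝ} (hσ : σ ^ 2 = 1) (c : ℂ) : σ * c.re ≤ ‖c‖ := by
  have h1 := Complex.abs_re_le_norm c
  have h2 : |σ| = 1 := by
    have : |σ| ^ 2 = 1 := by rw [sq_abs]; exact hσ
    have h3 := abs_nonneg σ
    nlinarith
  calc σ * c.re ≤ |σ * c.re| := le_abs_self _
    _ = |c.re| := by rw [abs_mul, h2, one_mul]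
    _ ≤ ‖c‖ := h1

theorem pair_le {x : V3} (hx : n2 x ≤ 1) {j k : Fin 3} (hjk : j ≠ k) : ‖x j‖ + ‖x k‖ ≤ 3 / 2 :=
  add_le_of_sq ((coord_sq_add_le x j k hjk).trans hx)

theorem LB_cases {φ : Sp A B} (h : φ ∈ Gen A B) (a0 : A) (b0 : B) {j k : Fin 3} (hjk : j ≠ k)
    {σ τ : ℝ} (hσ : σ ^ 2 = 1) (hτ : τ ^ 2 = 1) : LB a0 b0 j k σ τ φ ≤ 4 ∨ GenIII a0 b0 φ := by
  classical
  -- two ways of bounding
  have hb1 : n2 (φ .z) ≤ 1 → n2 (φ (.y b0)) ≤ 1 → Dk (φ (.w a0 b0)) (cj (φ (.y b0))) →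
      LB a0 b0 j k σ τ φ ≤ 4 := by
    intro h1 h2 h3
    have h4 := re_coord_le h1 0
    have h5 := pair_le h2 hjk
    have h6 := sgn_re_le hσ (φ (.y b0) j)
    have h7 := sgn_re_le hτ (φ (.w a0 b0) k)
    have h8 := h3.coord_le k
    have h9 : ‖cj (φ (.y b0)) k‖ = ‖φ (.y b0) k‖ := by simp [cj]
    rw [h9] at h8
    unfold LB
    linarith
  have hb2 : n2 (φ .z) ≤ 1 → Dk (φ (.y b0)) (cj (φ .z)) → Dk (φ (.w a0 b0)) (φ .z) →
      LB a0 b0 j k σ τ φ ≤ 4 := by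
    intro h1 h2 h3
    have h4 := re_coord_le h1 0
    have h5 := pair_le h1 hjk
    have h6 := sgn_re_le hσ (φ (.y b0) j)
    have h7 := sgn_re_le hτ (φ (.w a0 b0) k)
    have h8 := h3.coord_le k
    have h10 := h2.coord_le j
    have h9 : ‖cj (φ .z) j‖ = ‖φ .z j‖ := by simp [cj]
    rw [h9] at h10
    unfold LB
    linarith
  rcases h with ⟨β, h⟩ | ⟨a1, b1, h⟩
  · left
    by_cases hβ : β = some b0
    · exact hb1 h.1 (h.2.1 b0 hβ).1 ((h.2.1 b0 hβ).2 a0)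
    · exact hb2 h.1 (h.2.2 b0 hβ).1 ((h.2.2 b0 hβ).2 a0)
  · have hz : n2 (φ .z) ≤ 1 := by linarith [h.1]
    by_cases hb : b0 = b1
    · subst hb
      by_cases ha : a0 = a1
      · subst ha
        exact Or.inr h
      · exact Or.inl (hb1 hz h.2.1 (h.2.2.2.1 a0 ha))
    · left
      have h1 := h.2.2.2.2 b0 hb
      refine hb2 hz h1.1 ?_
      by_cases ha : a0 = a1
      · subst ha
        exact ⟨1, by simp, by rw [one_smul]; exact h1.2.1⟩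
      · exact h1.2.2 a0 ha

theorem LB_lin (a0 : A) (b0 : B) (j k : Fin 3) (σ τ : ℝ) (s t : ℝ) (φ ψ : Sp A B) :
    LB a0 b0 j k σ τ (s • φ + t • ψ) = s * LB a0 b0 j k σ τ φ + t * LB a0 b0 j k σ τ ψ := by
  unfold LB
  simp only [coord_lin, Complex.add_re, Complex.re_ofReal_mul]
  ring

theorem LB_cont (a0 : A) (b0 : B) (j k : Fin 3) (σ τ : ℝ) :
    Continuous (LB (A := A) (B := B) a0 b0 j k σ τ) := by
  unfold LB
  fun_prop

theorem forcedB_aux (a0 : A) (b0 : B) {j k : Fin 3} (hjk : j ≠ k) {σ τ : ℝ} (hσ : σ ^ 2 = 1)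
    (hτ : τ ^ 2 = 1)
    (F : Sp A B → ℂ) (C : ℝ) (hC : 0 ≤ C)
    (hF : ∀ (s t : ℝ) (φ ψ : Sp A B), F (s • φ + t • ψ) = (s : ℂ) * F φ + (t : ℂ) * F ψ)
    (hFc : Continuous F)
    (h1 : ∀ φ ∈ Gen A B, ‖F φ‖ ^ 2 ≤ C / 2)
    (h2 : ∀ φ, GenIII a0 b0 φ → ‖F φ‖ ^ 2 ≤ C * (9 / 2 - LB a0 b0 j k σ τ φ))
    {φ : Sp A B} (hφ : φ ∈ KK A B) (hz : φ .z = (1 / 2 : ℂ) • e 0)
    (hy : φ (.y b0) = (σ : ℂ) • e j) (hw : φ (.w a0 b0) = (τ : ℂ) • e k) : F φ = 0 := by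
  have h3 := hull_ineq F (LB a0 b0 j k σ τ) C (9 / 2) hF hFc (LB_lin a0 b0 j k σ τ)
    (LB_cont a0 b0 j k σ τ)
    (fun φ hφ => by
      rcases LB_cases hφ a0 b0 hjk hσ hτ with h | h
      · refine (h1 φ hφ).trans ?_
        nlinarith
      · exact h2 φ h) φ hφ
  have h4 : LB a0 b0 j k σ τ φ = 9 / 2 := by
    unfold LB
    rw [hz, hy, hw]
    simp only [e, Pi.smul_apply, Pi.single_eq_same, smul_eq_mul, mul_one, Complex.ofReal_re]
    have : (1 / 2 : ℂ).re = 1 / 2 := by norm_num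
    rw [this]
    nlinarith
  rw [h4] at h3
  have h5 : ‖F φ‖ ^ 2 ≤ 0 := by simpa using h3
  have h6 : ‖F φ‖ = 0 := by
    have := sq_nonneg ‖F φ‖
    have : ‖F φ‖ ^ 2 = 0 := le_antisymm h5 this
    exact pow_eq_zero_iff (two_ne_zero) |>.1 this
  exact norm_eq_zero.1 h6

theorem genIII_LB {φ : Sp A B} {a0 : A} {b0 : B} (h : GenIII a0 b0 φ) {j k : Fin 3} {σ τ : ℝ}
    (hσ : σ ^ 2 = 1) (hτ : τ ^ 2 = 1) :
    (φ .z 0).re ≤ 1 / 2 ∧ σ * (φ (.y b0) j).re ≤ 1 ∧ τ * (φ (.w a0 b0) k).re ≤ 1 := by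
  refine ⟨re_coord_le' h.1 0, (sgn_re_le hσ _).trans ?_, (sgn_re_le hτ _).trans ?_⟩
  · have h1 := (coord_sq_le (φ (.y b0)) j).trans h.2.1
    have h2 := norm_nonneg (φ (.y b0) j)
    nlinarith
  · have h1 := (coord_sq_le (φ (.w a0 b0)) k).trans h.2.2.1
    have h2 := norm_nonneg (φ (.w a0 b0) k)
    nlinarith

theorem forcedB_w {φ : Sp A B} (hφ : φ ∈ KK A B) {a0 : A} {b0 : B} {j k : Fin 3} (hjk : j ≠ k)
    {σ τ : ℝ} (hσ : σ ^ 2 = 1) (hτ : τ ^ 2 = 1) (hz : φ .z = (1 / 2 : ℂ) • e 0)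
    (hy : φ (.y b0) = (σ : ℂ) • e j) (hw : φ (.w a0 b0) = (τ : ℂ) • e k) {b : B} (hb : b ≠ b0) :
    φ (.w a0 b) = φ .z := by
  funext i
  rw [← sub_eq_zero]
  refine forcedB_aux a0 b0 hjk hσ hτ (fun φ => φ (.w a0 b) i - φ .z i) 8 (by norm_num)
    ?_ (by fun_prop) ?_ ?_ hφ hz hy hw
  · intro s t φ ψ
    simp only [coord_lin]
    ring
  · intro φ hφ
    have h1 := (coord_sq_le (φ (.w a0 b)) i).trans (gen_bound hφ _)
    have h2 := (coord_sq_le (φ .z) i).trans (gen_bound hφ _)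
    have h3 : ‖φ (.w a0 b) i - φ .z i‖ ≤ ‖φ (.w a0 b) i‖ + ‖φ .z i‖ := norm_sub_le _ _
    have h4 : ‖φ (.w a0 b) i - φ .z i‖ ^ 2 ≤ (‖φ (.w a0 b) i‖ + ‖φ .z i‖) ^ 2 :=
      pow_le_pow_left₀ (norm_nonneg _) h3 2
    nlinarith [sq_nonneg (‖φ (.w a0 b) i‖ - ‖φ .z i‖)]
  · intro φ h
    have h1 : φ (.w a0 b) i - φ .z i = 0 := by
      rw [(h.2.2.2.2 b hb).2.1, sub_self]
    obtain ⟨g1, g2, g3⟩ := genIII_LB h (j := j) (k := k) hσ hτ
    show ‖φ (.w a0 b) i - φ .z i‖ ^ 2 ≤ _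
    rw [h1, norm_zero]
    unfold LB
    linarith

theorem forcedB_col {φ : Sp A B} (hφ : φ ∈ KK A B) {a0 : A} {b0 : B} {j k : Fin 3} (hjk : j ≠ k)
    {σ τ : ℝ} (hσ : σ ^ 2 = 1) (hτ : τ ^ 2 = 1) (hz : φ .z = (1 / 2 : ℂ) • e 0)
    (hy : φ (.y b0) = (σ : ℂ) • e j) (hw : φ (.w a0 b0) = (τ : ℂ) • e k) {a : A} (ha : a ≠ a0)
    {i : Fin 3} (hi : i ≠ j) : φ (.w a b0) i = 0 := by
  refine forcedB_aux a0 b0 hjk hσ hτ (fun φ => φ (.w a b0) i) 2 (by norm_num)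
    (fun s t φ ψ => coord_lin _ _ s t φ ψ) (by fun_prop) ?_ ?_ hφ hz hy hw
  · intro φ hφ
    have h1 := (coord_sq_le (φ (.w a b0)) i).trans (gen_bound hφ _)
    linarith
  · intro φ h
    obtain ⟨g1, g2, g3⟩ := genIII_LB h (j := j) (k := k) hσ hτ
    have h1 := (h.2.2.2.1 a ha).coord_le i
    have h2 : ‖cj (φ (.y b0)) i‖ = ‖φ (.y b0) i‖ := by simp [cj]
    rw [h2] at h1
    have h3 := coord_sq_add_le (φ (.y b0)) i j hi
    have h4 : ‖φ (.w a b0) i‖ ^ 2 ≤ ‖φ (.y b0) i‖ ^ 2 := pow_le_pow_left₀ (norm_nonneg _) h1 2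
    have h5 : (σ * (φ (.y b0) j).re) ^ 2 ≤ ‖φ (.y b0) j‖ ^ 2 := by
      rw [mul_pow, hσ, one_mul, ← Complex.normSq_eq_norm_sq, Complex.normSq_apply]
      nlinarith [sq_nonneg (φ (.y b0) j).im]
    have h6 : 1 - (σ * (φ (.y b0) j).re) ^ 2 ≤ 2 * (1 - σ * (φ (.y b0) j).re) := by
      nlinarith [sq_nonneg (1 - σ * (φ (.y b0) j).re)]
    have h7 := h.2.1
    show ‖φ (.w a b0) i‖ ^ 2 ≤ _
    unfold LB
    linarith

end Pool.Agent.Helper811.Cplx
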