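import Pool.Agent.Helper811.Cplx2

set_option autoImplicit false

open Set Topology

namespace Pool.Agent.Helper811.Cplx

open scoped Classical

variable {A B : Type}

/-! ### Special elements -/

theorem n2_e (j : Fin 3) : n2 (e j) = 1 := by
  fin_cases j <;> simp [n2, e]

theorem n2_smul_e (s : ℂ) (j : Fin 3) : n2 (s • e j) = ‖s‖ ^ 2 := by
  rw [n2_smul, n2_e, mul_one]

theorem cj_e (j : Fin 3) : cj (e j) = e j := by
  funext i
  by_cases h : i = j
  · subst h; simp [cj, e]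
  · simp [cj, e, h]

theorem cj_smul (s : ℂ) (x : V3) : cj (s • x) = (starRingEnd ℂ) s • cj x := by
  funext i; simp [cj]

theorem Dk_of_smul {ζ : ℂ} (hζ : ‖ζ‖ ≤ 1) (x : V3) : Dk (ζ • x) x := ⟨ζ, hζ, rfl⟩

theorem Dk_zero (x : V3) : Dk 0 x := ⟨0, by simp, by simp⟩

/-- Elements all of whose coordinates are multiples of the first unit vector. -/
noncomputable def T0 (η : Ix A B → ℂ) : Sp A B := fun c => η c • e 0

def Ok (η : Ix A B → ℂ) : Prop := η .z = 1 ∧ ∀ c, ‖η c‖ ≤ 1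

theorem T0_mem {η : Ix A B → ℂ} (h : Ok η) : T0 η ∈ KK A B := by
  refine Gen_subset_KK (Or.inl ⟨none, ?_, ?_, ?_⟩)
  · show n2 (η .z • e 0) ≤ 1
    rw [h.1, one_smul, n2_e]
  · intro b hb; exact absurd hb (by simp)
  · intro b _
    have hz : T0 η .z = e 0 := by
      show η .z • e 0 = e 0
      rw [h.1, one_smul]
    rw [hz, cj_e]
    exact ⟨Dk_of_smul (h.2 _) _, fun a => Dk_of_smul (h.2 _) _⟩

/-- Elements with exceptional column `b0`, based on the first unit vector. -/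
noncomputable def tA (b0 : B) (v : V3) (η : Ix A B → ℂ) : Sp A B
  | .z => e 0
  | .y b => if b = b0 then v else η (.y b) • e 0
  | .w a b => if b = b0 then 0 else η (.w a b) • e 0

theorem tA_mem {b0 : B} {v : V3} (hv : n2 v ≤ 1) {η : Ix A B → ℂ} (h : ∀ c, ‖η c‖ ≤ 1) :
    tA b0 v η ∈ KK A B := by
  refine Gen_subset_KK (Or.inl ⟨some b0, ?_, ?_, ?_⟩)
  · show n2 (e 0) ≤ 1
    rw [n2_e]
  · intro b hb
    have hb' : b = b0 := by simpa using hb.symm
    subst hb'
    simp only [tA, if_true]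
    exact ⟨hv, fun a => Dk_zero _⟩
  · intro b hb
    have hb' : b ≠ b0 := by
      intro h; exact hb (by rw [h])
    simp only [tA, if_neg hb', cj_e]
    exact ⟨Dk_of_smul (h _) _, fun a => Dk_of_smul (h _) _⟩

/-- Elements with exceptional column `b0`, based on the third unit vector. -/
noncomputable def t3 (b0 : B) (v : V3) : Sp A B
  | .z => e 2
  | .y b => if b = b0 then v else 0
  | .w _ _ => 0

theorem t3_mem {b0 : B} {v : V3} (hv : n2 v ≤ 1) : t3 b0 v ∈ KK A B := by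
  refine Gen_subset_KK (Or.inl ⟨some b0, ?_, ?_, ?_⟩)
  · show n2 (e 2) ≤ 1
    rw [n2_e]
  · intro b hb
    have hb' : b = b0 := by simpa using hb.symm
    subst hb'
    simp only [t3, if_true]
    exact ⟨hv, fun a => Dk_zero _⟩
  · intro b hb
    have hb' : b ≠ b0 := by
      intro h; exact hb (by rw [h])
    simp only [t3, if_neg hb']
    exact ⟨Dk_zero _, fun a => Dk_zero _⟩

/-- Elements of the third kind. -/
noncomputable def tB (a0 : A) (b0 : B) (v g : V3) (η : A → ℂ) : Sp A B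
  | .z => (1 / 2 : ℂ) • e 0
  | .y b => if b = b0 then v else 0
  | .w a b => if b = b0 then (if a = a0 then g else η a • cj v)
      else (if a = a0 then (1 / 2 : ℂ) • e 0 else 0)

theorem tB_mem {a0 : A} {b0 : B} {v g : V3} (hv : n2 v ≤ 1) (hg : n2 g ≤ 1) {η : A → ℂ}
    (h : ∀ c, ‖η c‖ ≤ 1) : tB a0 b0 v g η ∈ KK A B := by
  refine Gen_subset_KK (Or.inr ⟨a0, b0, ?_, ?_, ?_, ?_, ?_⟩)
  · show n2 ((1 / 2 : ℂ) • e 0) ≤ 1 / 4
    rw [n2_smul_e]
    norm_num
  · simp only [tB, if_true]; exact hv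
  · simp only [tB, if_true]; exact hg
  · intro a ha
    simp only [tB, if_true, if_neg ha]
    exact Dk_of_smul (h _) _
  · intro b hb
    simp only [tB, if_neg hb, if_true]
    refine ⟨Dk_zero _, trivial, fun a ha => ?_⟩
    rw [if_neg ha]
    exact Dk_zero _

/-! ### Retractions -/

/-- The coordinates attached to a pair of sets of indices. -/
def Cm (M1 : Set A) (M2 : Set B) : Set (Ix A B)
  | .z => True
  | .y b => b ∈ M2
  | .w a b => a ∈ M1 ∧ b ∈ M2

/-- The properties of the linear retractions that will be used. -/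
structure Ret (M1 : Set A) (M2 : Set B) (R : Sp A B →ₗ[ℂ] Sp A B) : Prop where
  maps : ∀ φ ∈ KK A B, R φ ∈ KK A B
  cont : ContinuousOn R (KK A B)
  fix : ∀ φ ∈ KK A B, ∀ c ∈ Cm M1 M2, R φ c = φ c
  det : ∀ φ ∈ KK A B, ∀ ψ ∈ KK A B, (∀ c ∈ Cm M1 M2, φ c = ψ c) → R φ = R ψ

/-- Changing the coefficients of a special element. -/
theorem finite_change {M1 : Set A} {M2 : Set B} {R : Sp A B →ₗ[ℂ] Sp A B} (hR : Ret M1 M2 R)
    (c0 : Ix A B) (i : Fin 3) {η η' : Ix A B → ℂ} (hη : Ok η) (hη' : Ok η')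
    (hnull : ∀ c ∈ Cm M1 M2, η c ≠ η' c → R (Pi.single c (e 0)) c0 i = 0) :
    R (T0 η) c0 i = R (T0 η') c0 i := by
  -- mixing
  let mix : Ix A B → ℂ := fun c => if c ∈ Cm M1 M2 then η' c else η c
  let mixF : Finset (Ix A B) → Ix A B → ℂ := fun F c => if c ∈ F then mix c else η c
  have hmix : Ok mix := by
    refine ⟨?_, fun c => ?_⟩
    · show (if _ then _ else _) = _
      split_ifs
      · exact hη'.1
      · exact hη.1
    · show ‖(if _ then _ else _)‖ ≤ _
      split_ifs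
      · exact hη'.2 c
      · exact hη.2 c
  have hmixF : ∀ F, Ok (mixF F) := by
    intro F
    refine ⟨?_, fun c => ?_⟩
    · show (if _ then _ else _) = _
      split_ifs
      · exact hmix.1
      · exact hη.1
    · show ‖(if _ then _ else _)‖ ≤ _
      split_ifs
      · exact hmix.2 c
      · exact hη.2 c
  have h1 : R (T0 η') = R (T0 mix) := by
    refine hR.det _ (T0_mem hη') _ (T0_mem hmix) fun c hc => ?_
    show η' c • e 0 = (if _ then _ else _) • e 0
    rw [if_pos hc]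
  have h2 : ∀ F : Finset (Ix A B), R (T0 (mixF F)) c0 i = R (T0 η) c0 i := by
    intro F
    induction F using Finset.induction_on with
    | empty =>
      have : mixF ∅ = η := by
        funext c
        show (if _ then _ else _) = _
        rw [if_neg (Finset.notMem_empty c)]
      rw [this]
    | insert c F hc ih =>
      have h3 : T0 (mixF (insert c F)) = T0 (mixF F) + (mix c - η c) • (Pi.single c (e 0) : Sp A B) := by
        funext c'
        by_cases hcc : c' = c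
        · subst hcc
          have e1 : mixF (insert c' F) c' = mix c' := if_pos (Finset.mem_insert_self _ _)
          have e2 : mixF F c' = η c' := if_neg hc
          simp only [T0, Pi.add_apply, Pi.smul_apply, Pi.single_eq_same, e1, e2]
          rw [← add_smul]
          congr 1
          ring
        · have e1 : mixF (insert c F) c' = mixF F c' := by
            show (if _ then _ else _) = (if _ then _ else _)
            simp only [Finset.mem_insert, hcc, false_or]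
          simp only [T0, Pi.add_apply, Pi.smul_apply, Pi.single_eq_of_ne hcc, e1, smul_zero, add_zero]
      rw [h3, map_add, map_smul]
      have h4 : (mix c - η c) * R (Pi.single c (e 0)) c0 i = 0 := by
        by_cases hm : mix c = η c
        · rw [hm, sub_self, zero_mul]
        · have hcC : c ∈ Cm M1 M2 := by
            by_contra hcC
            exact hm (if_neg hcC)
          have e1 : mix c = η' c := if_pos hcC
          rw [hnull c hcC (by rw [← e1]; exact Ne.symm hm), mul_zero]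
      show R (T0 (mixF F)) c0 i + (mix c - η c) * R (Pi.single c (e 0)) c0 i = _
      rw [h4, add_zero, ih]
  have h3 : Filter.Tendsto (fun F => T0 (mixF F)) Filter.atTop (𝓝[KK A B] (T0 mix)) := by
    refine tendsto_nhdsWithin_iff.2 ⟨?_, Filter.Eventually.of_forall fun F => T0_mem (hmixF F)⟩
    rw [tendsto_pi_nhds]
    intro c
    refine tendsto_const_nhds.congr' ?_
    filter_upwards [Filter.eventually_ge_atTop {c}] with F hF
    have hcF : c ∈ F := hF (Finset.mem_singleton_self c)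
    show mix c • e 0 = (if _ then _ else _) • e 0
    rw [if_pos hcF]
  have h4 : Filter.Tendsto (fun F => R (T0 (mixF F)) c0 i) Filter.atTop (𝓝 (R (T0 mix) c0 i)) := by
    have h5 := (hR.cont (T0 mix) (T0_mem hmix)).tendsto.comp h3
    exact ((continuous_apply i).comp (continuous_apply c0)).continuousAt.tendsto.comp h5
  simp only [h2] at h4
  rw [h1]
  exact tendsto_nhds_unique tendsto_const_nhds h4

/-! ### Rows of `M` outside of the columns of `M` -/

theorem R_tB {M1 : Set A} {M2 : Set B} {R : Sp A B →ₗ[ℂ] Sp A B} (hR : Ret M1 M2 R)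
    {a0 : A} {b0 : B} (ha0 : a0 ∈ M1) (hb0 : b0 ∈ M2) {j k : Fin 3}
    {σ τ : ℝ} (hσ : σ ^ 2 = 1) (hτ : τ ^ 2 = 1) {η : A → ℂ} (hη : ∀ c, ‖η c‖ ≤ 1) :
    R (tB a0 b0 ((σ : ℂ) • e j) ((τ : ℂ) • e k) η) ∈ KK A B ∧
    R (tB a0 b0 ((σ : ℂ) • e j) ((τ : ℂ) • e k) η) .z = (1 / 2 : ℂ) • e 0 ∧
    R (tB a0 b0 ((σ : ℂ) • e j) ((τ : ℂ) • e k) η) (.y b0) = (σ : ℂ) • e j ∧
    R (tB a0 b0 ((σ : ℂ) • e j) ((τ : ℂ) • e k) η) (.w a0 b0) = (τ : ℂ) • e k := by
  have hn : ∀ {ρ : ℝ} (j : Fin 3), ρ ^ 2 = 1 → n2 ((ρ : ℂ) • e j) ≤ 1 := by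
    intro ρ j hρ
    rw [n2_smul_e, Complex.norm_real, Real.norm_eq_abs, sq_abs, hρ]
  have hm : tB a0 b0 ((σ : ℂ) • e j) ((τ : ℂ) • e k) η ∈ KK A B := tB_mem (hn j hσ) (hn k hτ) hη
  refine ⟨hR.maps _ hm, ?_, ?_, ?_⟩
  · rw [hR.fix _ hm .z trivial]
    rfl
  · rw [hR.fix _ hm (.y b0) hb0]
    simp [tB]
  · rw [hR.fix _ hm (.w a0 b0) ⟨ha0, hb0⟩]
    simp [tB]

theorem R_tB_row {M1 : Set A} {M2 : Set B} {R : Sp A B →ₗ[ℂ] Sp A B} (hR : Ret M1 M2 R)
    {a0 : A} {b0 : B} (ha0 : a0 ∈ M1) (hb0 : b0 ∈ M2) {j k : Fin 3} (hjk : j ≠ k)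
    {σ τ : ℝ} (hσ : σ ^ 2 = 1) (hτ : τ ^ 2 = 1) {η : A → ℂ} (hη : ∀ c, ‖η c‖ ≤ 1)
    {b : B} (hb : b ≠ b0) :
    R (tB a0 b0 ((σ : ℂ) • e j) ((τ : ℂ) • e k) η) (.w a0 b) = (1 / 2 : ℂ) • e 0 := by
  obtain ⟨h1, h2, h3, h4⟩ := R_tB hR ha0 hb0 (j := j) (k := k) hσ hτ hη
  rw [forcedB_w h1 hjk hσ hτ h2 h3 h4 hb, h2]

theorem R_tB_col {M1 : Set A} {M2 : Set B} {R : Sp A B →ₗ[ℂ] Sp A B} (hR : Ret M1 M2 R)
    {a0 : A} {b0 : B} (ha0 : a0 ∈ M1) (hb0 : b0 ∈ M2) {j k : Fin 3} (hjk : j ≠ k)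
    {σ τ : ℝ} (hσ : σ ^ 2 = 1) (hτ : τ ^ 2 = 1) {η : A → ℂ} (hη : ∀ c, ‖η c‖ ≤ 1)
    {a : A} (ha : a ≠ a0) {i : Fin 3} (hi : i ≠ j) :
    R (tB a0 b0 ((σ : ℂ) • e j) ((τ : ℂ) • e k) η) (.w a b0) i = 0 := by
  obtain ⟨h1, h2, h3, h4⟩ := R_tB hR ha0 hb0 (j := j) (k := k) hσ hτ hη
  exact forcedB_col h1 hjk hσ hτ h2 h3 h4 ha hi


theorem tB_sub_y (a0 : A) (b0 : B) (v v' g : V3) :
    tB a0 b0 v g 0 - tB a0 b0 v' g 0 = Pi.single (.y b0) (v - v') := by
  funext c
  rcases c with _ | b | ⟨a, b⟩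
  · simp [tB]
  · by_cases hb : b = b0
    · subst hb; simp [tB]
    · simp [tB, hb]
  · by_cases hb : b = b0
    · subst hb
      by_cases ha : a = a0
      · subst ha; simp [tB]
      · simp [tB, ha]
    · simp [tB, hb]

theorem tB_sub_w (a0 : A) (b0 : B) (v g g' : V3) :
    tB a0 b0 v g 0 - tB a0 b0 v g' 0 = Pi.single (.w a0 b0) (g - g') := by
  funext c
  rcases c with _ | b | ⟨a, b⟩
  · simp [tB]
  · simp [tB]
  · by_cases hb : b = b0
    · subst hb
      by_cases ha : a = a0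
      · subst ha; simp [tB]
      · simp [tB, ha]
    · simp [tB, hb]

theorem tB_sub_eta (a0 : A) (b0 : B) (v g : V3) {a : A} (ha : a ≠ a0) :
    tB a0 b0 v g (Pi.single a 1) - tB a0 b0 v g (Pi.single a (-1)) =
      Pi.single (.w a b0) ((2 : ℂ) • cj v) := by
  funext c
  rcases c with _ | b | ⟨a', b⟩
  · simp [tB]
  · simp [tB]
  · by_cases hb : b = b0
    · subst hb
      by_cases ha' : a' = a0
      · subst ha'
        simp [tB, Ne.symm ha]
      · by_cases haa : a' = a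
        · subst haa
          simp [tB, ha']
          rw [two_smul]
        · simp [tB, ha', haa]
    · simp [tB, hb]

theorem norm_single_le (a : A) {s : ℂ} (hs : ‖s‖ ≤ 1) (c : A) : ‖(Pi.single a s : A → ℂ) c‖ ≤ 1 := by
  by_cases h : c = a
  · subst h; simpa using hs
  · simp [h]

theorem norm_zero_fun_le (c : A) : ‖(0 : A → ℂ) c‖ ≤ 1 := by simp

theorem single_smul_eq {c : Ix A B} (s : ℂ) (x : V3) :
    (Pi.single c (s • x) : Sp A B) = s • Pi.single c x := by
  rw [← Pi.single_smul]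

/-- Differences of elements with the same image coordinate give null directions. -/
theorem null_of_sub {R : Sp A B →ₗ[ℂ] Sp A B} {φ ψ : Sp A B} {c c0 : Ix A B} {i : Fin 3} {k : ℂ}
    (hk : k ≠ 0) {x : V3} (h : φ - ψ = Pi.single c (k • x)) (h1 : R φ c0 i = R ψ c0 i) :
    R (Pi.single c x) c0 i = 0 := by
  have h2 : R (φ - ψ) c0 i = 0 := by
    rw [map_sub]
    show R φ c0 i - R ψ c0 i = 0
    rw [h1, sub_self]
  rw [h, single_smul_eq, map_smul] at h2
  have h3 : k * R (Pi.single c x) c0 i = 0 := h2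
  exact (mul_eq_zero.1 h3).resolve_left hk

section F1

variable {M1 : Set A} {M2 : Set B} {R : Sp A B →ₗ[ℂ] Sp A B}

theorem F1_null_y (hR : Ret M1 M2 R) {a : A} {b b' : B} (ha : a ∈ M1) (hb : b ∉ M2)
    (hb' : b' ∈ M2) : R (Pi.single (.y b') (e 0)) (.w a b) 0 = 0 := by
  have hbb : b ≠ b' := fun h => hb (h ▸ hb')
  refine null_of_sub (φ := tB a b' (((1 : ℝ) : ℂ) • e 0) (((1 : ℝ) : ℂ) • e 1) 0)
    (ψ := tB a b' (((-1 : ℝ) : ℂ) • e 0) (((1 : ℝ) : ℂ) • e 1) 0) (k := 2) two_ne_zero ?_ ?_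
  · rw [tB_sub_y, ← sub_smul]
    congr 2
    push_cast
    ring
  · rw [R_tB_row hR ha hb' (by decide) (by norm_num) (by norm_num) norm_zero_fun_le hbb,
      R_tB_row hR ha hb' (by decide) (by norm_num) (by norm_num) norm_zero_fun_le hbb]

theorem F1_null_row (hR : Ret M1 M2 R) {a : A} {b b' : B} (ha : a ∈ M1) (hb : b ∉ M2)
    (hb' : b' ∈ M2) : R (Pi.single (.w a b') (e 0)) (.w a b) 0 = 0 := by
  have hbb : b ≠ b' := fun h => hb (h ▸ hb')
  refine null_of_sub (φ := tB a b' (((1 : ℝ) : ℂ) • e 1) (((1 : ℝ) : ℂ) • e 0) 0)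
    (ψ := tB a b' (((1 : ℝ) : ℂ) • e 1) (((-1 : ℝ) : ℂ) • e 0) 0) (k := 2) two_ne_zero ?_ ?_
  · rw [tB_sub_w, ← sub_smul]
    congr 2
    push_cast
    ring
  · rw [R_tB_row hR ha hb' (by decide) (by norm_num) (by norm_num) norm_zero_fun_le hbb,
      R_tB_row hR ha hb' (by decide) (by norm_num) (by norm_num) norm_zero_fun_le hbb]

theorem F1_null_col (hR : Ret M1 M2 R) {a a' : A} {b b' : B} (ha : a ∈ M1) (hb : b ∉ M2)
    (hb' : b' ∈ M2) (haa : a' ≠ a) : R (Pi.single (.w a' b') (e 0)) (.w a b) 0 = 0 := by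
  have hbb : b ≠ b' := fun h => hb (h ▸ hb')
  refine null_of_sub
    (φ := tB a b' (((1 : ℝ) : ℂ) • e 0) (((1 : ℝ) : ℂ) • e 1) (Pi.single a' 1))
    (ψ := tB a b' (((1 : ℝ) : ℂ) • e 0) (((1 : ℝ) : ℂ) • e 1) (Pi.single a' (-1)))
    (k := 2) two_ne_zero ?_ ?_
  · rw [tB_sub_eta _ _ _ _ haa, cj_smul, cj_e]
    simp
  · rw [R_tB_row hR ha hb' (by decide) (by norm_num) (by norm_num)
        (norm_single_le a' (by simp)) hbb,
      R_tB_row hR ha hb' (by decide) (by norm_num) (by norm_num)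
        (norm_single_le a' (by simp)) hbb]

/-- The reference element for the first computation. -/
noncomputable def ref1 (a : A) (b1 : B) : Ix A B → ℂ
  | .z => 1
  | .y _ => 0
  | .w a' b' => if b' = b1 then 0 else (if a' = a then 1 else 0)

theorem ref1_ok (a : A) (b1 : B) : Ok (ref1 a b1) := by
  refine ⟨rfl, ?_⟩
  rintro (_ | b | ⟨a', b⟩)
  · simp [ref1]
  · simp [ref1]
  · simp only [ref1]
    split_ifs <;> simp

theorem T0_ref1 (a : A) (b1 : B) :
    T0 (ref1 a b1) = (1 / 2 : ℂ) • (tB a b1 (((1 : ℝ) : ℂ) • e 1) (((1 : ℝ) : ℂ) • e 0) 0 +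
      tB a b1 (((-1 : ℝ) : ℂ) • e 1) (((1 : ℝ) : ℂ) • e 0) 0 +
      tB a b1 (((1 : ℝ) : ℂ) • e 1) (((-1 : ℝ) : ℂ) • e 0) 0 +
      tB a b1 (((-1 : ℝ) : ℂ) • e 1) (((-1 : ℝ) : ℂ) • e 0) 0) := by
  funext c
  rcases c with _ | b | ⟨a', b⟩
  · simp only [T0, ref1, tB, Pi.smul_apply, Pi.add_apply]
    rw [← add_smul, ← add_smul, ← add_smul, smul_smul]
    congr 1
    norm_num
  · by_cases hb : b = b1
    · subst hb
      simp [T0, ref1, tB]
    · simp [T0, ref1, tB, hb]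
  · by_cases hb : b = b1
    · subst hb
      by_cases ha : a' = a
      · subst ha
        simp [T0, ref1, tB]
      · simp [T0, ref1, tB, ha]
    · by_cases ha : a' = a
      · subst ha
        simp only [T0, ref1, tB, Pi.smul_apply, Pi.add_apply, if_neg hb, if_true]
        rw [← add_smul, ← add_smul, ← add_smul, smul_smul]
        congr 1
        norm_num
      · simp [T0, ref1, tB, ha, hb]

theorem F1 (hR : Ret M1 M2 R) {a : A} {b b1 : B} (ha : a ∈ M1) (hb : b ∉ M2) (hb1 : b1 ∈ M2)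
    {η : Ix A B → ℂ} (hη : Ok η) : R (T0 η) (.w a b) 0 = 1 := by
  have hbb : b ≠ b1 := fun h => hb (h ▸ hb1)
  have h1 : R (T0 (ref1 a b1)) (.w a b) 0 = 1 := by
    rw [T0_ref1, map_smul, map_add, map_add, map_add]
    simp only [Pi.smul_apply, Pi.add_apply]
    rw [R_tB_row hR ha hb1 (by decide) (by norm_num) (by norm_num) norm_zero_fun_le hbb,
      R_tB_row hR ha hb1 (by decide) (by norm_num) (by norm_num) norm_zero_fun_le hbb,
      R_tB_row hR ha hb1 (by decide) (by norm_num) (by norm_num) norm_zero_fun_le hbb,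
      R_tB_row hR ha hb1 (by decide) (by norm_num) (by norm_num) norm_zero_fun_le hbb]
    simp [e]
    norm_num
  rw [finite_change hR (.w a b) 0 hη (ref1_ok a b1) ?_, h1]
  rintro (_ | b' | ⟨a', b'⟩) hc hne
  · exact absurd (hη.1.trans (ref1_ok a b1).1.symm) hne
  · exact F1_null_y hR ha hb hc
  · by_cases haa : a' = a
    · subst haa
      exact F1_null_row hR ha hb hc.2
    · exact F1_null_col hR ha hb hc.2 haa

end F1

end Pool.Agent.Helper811.Cplx
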