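import Pool.Agent.Helper811.Cplx3

set_option autoImplicit false

open Set Topology

namespace Pool.Agent.Helper811.Cplx

open scoped Classical

variable {A B : Type} {M1 : Set A} {M2 : Set B} {R : Sp A B →ₗ[ℂ] Sp A B}

theorem bl_e_left (i : Fin 3) (x : V3) : bl (e i) x = x i := by
  fin_cases i <;> simp [bl, e]

theorem n2_neg (x : V3) : n2 (-x) = n2 x := by simp [n2]

theorem cj_neg (x : V3) : cj (-x) = -cj x := by
  funext i; simp [cj]

theorem bl_neg_right (x y : V3) : bl x (-y) = -bl x y := by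
  simp only [bl, Pi.neg_apply]; ring

/-! ### First computation in column `b` -/

theorem R_tA (hR : Ret M1 M2 R) {b : B} (hb : b ∈ M2) {v : V3} (hv : n2 v = 1)
    {η : Ix A B → ℂ} (hη : ∀ c, ‖η c‖ ≤ 1) :
    R (tA b v η) ∈ KK A B ∧ R (tA b v η) .z = e 0 ∧ R (tA b v η) (.y b) = v := by
  have hm : tA b v η ∈ KK A B := tA_mem hv.le hη
  refine ⟨hR.maps _ hm, ?_, ?_⟩
  · rw [hR.fix _ hm .z trivial]
    rfl
  · rw [hR.fix _ hm (.y b) hb]
    simp [tA]

/-- The reference element for the second computation. -/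
noncomputable def ref2 (b : B) (η : Ix A B → ℂ) : Ix A B → ℂ
  | .z => η .z
  | .y b' => if b' = b then 0 else η (.y b')
  | .w a' b' => if b' = b then 0 else η (.w a' b')

theorem ref2_ok (b : B) {η : Ix A B → ℂ} (hη : Ok η) : Ok (ref2 b η) := by
  refine ⟨hη.1, ?_⟩
  rintro (_ | b' | ⟨a', b'⟩)
  · exact hη.2 _
  · simp only [ref2]
    split_ifs
    · simp
    · exact hη.2 _
  · simp only [ref2]
    split_ifs
    · simp
    · exact hη.2 _

theorem T0_ref2 (b : B) (v : V3) {η : Ix A B → ℂ} (hη : Ok η) :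
    T0 (ref2 b η) = (1 / 2 : ℂ) • (tA b v η + tA b (-v) η) := by
  funext c
  rcases c with _ | b' | ⟨a', b'⟩
  · simp only [T0, ref2, tA, Pi.smul_apply, Pi.add_apply, hη.1, one_smul]
    rw [← two_smul ℂ (e 0), smul_smul]
    norm_num
  · by_cases hb : b' = b
    · subst hb
      simp [T0, ref2, tA]
    · simp only [T0, ref2, tA, Pi.smul_apply, Pi.add_apply, if_neg hb]
      rw [← two_smul ℂ (η (.y b') • e 0), smul_smul]
      norm_num
  · by_cases hb : b' = b
    · subst hb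
      simp [T0, ref2, tA]
    · simp only [T0, ref2, tA, Pi.smul_apply, Pi.add_apply, if_neg hb]
      rw [← two_smul ℂ (η (.w a' b') • e 0), smul_smul]
      norm_num

theorem bl_e01 : bl (e 0) (cj (e 1)) = 0 := by
  rw [cj_e, bl_e_left]; simp [e]

theorem bl_e01' : bl (e 0) (cj (-e 1)) = 0 := by
  rw [cj_neg, cj_e, bl_neg_right, bl_e_left]; simp [e]

theorem F2_ref (hR : Ret M1 M2 R) {a : A} {b : B} (hb : b ∈ M2)
    {η : Ix A B → ℂ} (hη : Ok η) : R (T0 (ref2 b η)) (.w a b) 0 = 0 := by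
  rw [T0_ref2 b (e 1) hη, map_smul, map_add]
  simp only [Pi.smul_apply, Pi.add_apply]
  obtain ⟨h1, h2, h3⟩ := R_tA hR hb (n2_e 1) hη.2
  obtain ⟨g1, g2, g3⟩ := R_tA hR hb (v := -e 1) (by rw [n2_neg, n2_e]) hη.2
  have k1 := forcedA_q h1 (a := 0) (v := e 1) (by simp [e]) (n2_e 1) h2 h3 a bl_e01
  have k2 := forcedA_q g1 (a := 0) (v := -e 1) (by simp [e]) (by rw [n2_neg, n2_e]) g2 g3 a bl_e01'
  rw [bl_e_left] at k1 k2
  rw [k1, k2]
  simp

theorem F2_null_col (hR : Ret M1 M2 R) {a a' : A} {b : B} (ha : a ∉ M1) (ha' : a' ∈ M1)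
    (hb : b ∈ M2) : R (Pi.single (.w a' b) (e 0)) (.w a b) 0 = 0 := by
  have haa : a ≠ a' := fun h => ha (h ▸ ha')
  refine null_of_sub (φ := tB a' b (((1 : ℝ) : ℂ) • e 1) (((1 : ℝ) : ℂ) • e 0) 0)
    (ψ := tB a' b (((1 : ℝ) : ℂ) • e 1) (((-1 : ℝ) : ℂ) • e 0) 0) (k := 2) two_ne_zero ?_ ?_
  · rw [tB_sub_w, ← sub_smul]
    congr 2
    push_cast
    ring
  · rw [R_tB_col hR ha' hb (by decide) (by norm_num) (by norm_num) norm_zero_fun_le haa (by decide),
      R_tB_col hR ha' hb (by decide) (by norm_num) (by norm_num) norm_zero_fun_le haa (by decide)]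

theorem t3_sub (b : B) (v : V3) :
    (t3 b v : Sp A B) - t3 b (-v) = Pi.single (.y b) ((2 : ℂ) • v) := by
  funext c
  rcases c with _ | b' | ⟨a', b'⟩
  · simp [t3]
  · by_cases hb : b' = b
    · subst hb
      simp [t3, two_smul]
    · simp [t3, hb]
  · simp [t3]

theorem R_t3_q (hR : Ret M1 M2 R) {b : B} (hb : b ∈ M2) (a : A) {v q : V3} (hv2 : v 2 = 0)
    (hv : n2 v = 1) (hq : bl q (cj v) = 0) : bl q (R (t3 b v) (.w a b)) = 0 := by
  have hm : (t3 b v : Sp A B) ∈ KK A B := t3_mem hv.le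
  refine forcedA_q (hR.maps _ hm) (b0 := b) hv2 hv ?_ ?_ a hq
  · rw [hR.fix _ hm .z trivial]
    rfl
  · rw [hR.fix _ hm (.y b) hb]
    simp [t3]

/-- The linear map describing the dependence on the coordinate `y b`. -/
theorem R_single_q (hR : Ret M1 M2 R) {b : B} (hb : b ∈ M2) (a : A) {v q : V3} (hv2 : v 2 = 0)
    (hv : n2 v = 1) (hq : bl q (cj v) = 0) : bl q (R (Pi.single (.y b) v) (.w a b)) = 0 := by
  have h1 := R_t3_q hR hb a hv2 hv hq
  have h2 := R_t3_q hR hb a (v := -v) (q := q) (by simp [hv2]) (by rw [n2_neg, hv])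
    (by rw [cj_neg, bl_neg_right, hq, neg_zero])
  have h3 : R ((t3 b v : Sp A B) - t3 b (-v)) (.w a b) = (2 : ℂ) • R (Pi.single (.y b) v) (.w a b) := by
    rw [t3_sub, single_smul_eq, map_smul]
    rfl
  rw [map_sub] at h3
  have h4 : bl q ((2 : ℂ) • R (Pi.single (.y b) v) (.w a b)) = 0 := by
    rw [← h3]
    have : bl q ((R (t3 b v) - R (t3 b (-v))) (.w a b)) =
        bl q (R (t3 b v) (.w a b)) - bl q (R (t3 b (-v)) (.w a b)) := by
      simp only [bl, Pi.sub_apply]; ring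
    rw [this, h1, h2, sub_zero]
  have h5 : bl q ((2 : ℂ) • R (Pi.single (.y b) v) (.w a b)) =
      2 * bl q (R (Pi.single (.y b) v) (.w a b)) := by
    simp only [bl, Pi.smul_apply, smul_eq_mul]; ring
  rw [h5] at h4
  exact (mul_eq_zero.1 h4).resolve_left two_ne_zero

theorem F2_null_y (hR : Ret M1 M2 R) {a : A} {b : B} (hb : b ∈ M2) :
    R (Pi.single (.y b) (e 0)) (.w a b) 0 = 0 := by
  set x : V3 := R (Pi.single (.y b) (e 0)) (.w a b) with hx
  set y : V3 := R (Pi.single (.y b) (e 1)) (.w a b) with hy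
  -- the image of a combination
  have hlin : ∀ s t : ℂ, R (Pi.single (.y b) (s • e 0 + t • e 1)) (.w a b) = s • x + t • y := by
    intro s t
    rw [Pi.single_add, single_smul_eq, single_smul_eq, map_add, map_smul, map_smul]
    rfl
  have h0 : x 1 = 0 := by
    have := R_single_q hR hb a (v := e 0) (q := e 1) (by simp [e]) (n2_e 0)
      (by rw [cj_e, bl_e_left]; simp [e])
    rwa [bl_e_left] at this
  have h1 : y 0 = 0 := by
    have := R_single_q hR hb a (v := e 1) (q := e 0) (by simp [e]) (n2_e 1) bl_e01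
    rwa [bl_e_left] at this
  have c3 : (starRingEnd ℂ) 3 = 3 := map_ofNat _ 3
  have c4 : (starRingEnd ℂ) 4 = 4 := map_ofNat _ 4
  have c5 : (starRingEnd ℂ) 5 = 5 := map_ofNat _ 5
  have h2 := R_single_q hR hb a (v := (3 / 5 : ℂ) • e 0 + (4 / 5 : ℂ) • e 1)
    (q := ![4, -3, 0]) (by simp [e]) (by simp [n2, e]; norm_num)
    (by simp [bl, cj, e, c3, c4, c5]; ring)
  have h3 := R_single_q hR hb a (v := (3 / 5 : ℂ) • e 0 + (4 / 5 * Complex.I : ℂ) • e 1)
    (q := ![4 * Complex.I, 3, 0]) (by simp [e]) (by simp [n2, e]; norm_num)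
    (by simp [bl, cj, e, c3, c4, c5]; ring)
  rw [hlin] at h2 h3
  simp only [bl, Pi.add_apply, Pi.smul_apply, smul_eq_mul, h0, h1, mul_zero, add_zero, zero_add,
    Matrix.cons_val_zero, Matrix.cons_val_one, Matrix.cons_val] at h2 h3
  have h4 : Complex.I ≠ 0 := Complex.I_ne_zero
  have h5 : x 0 - y 1 = 0 := by linear_combination (5 / 12) * h2
  have h6 : Complex.I * (x 0 + y 1) = 0 := by linear_combination (5 / 12) * h3
  have h7 : x 0 + y 1 = 0 := (mul_eq_zero.1 h6).resolve_left h4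
  linear_combination (1 / 2) * h5 + (1 / 2) * h7

theorem F2 (hR : Ret M1 M2 R) {a : A} {b : B} (ha : a ∉ M1) (hb : b ∈ M2)
    {η : Ix A B → ℂ} (hη : Ok η) : R (T0 η) (.w a b) 0 = 0 := by
  rw [finite_change hR (.w a b) 0 hη (ref2_ok b hη) ?_, F2_ref hR hb hη]
  rintro (_ | b' | ⟨a', b'⟩) hc hne
  · exact absurd rfl hne
  · by_cases hbb : b' = b
    · subst hbb
      exact F2_null_y hR hb
    · exact absurd (by simp [ref2, hbb]) hne
  · by_cases hbb : b' = b
    · subst hbb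
      exact F2_null_col hR ha hc.1 hb
    · exact absurd (by simp [ref2, hbb]) hne

/-! ### Images of the central element are special -/

/-- The central element. -/
noncomputable def star0 : Ix A B → ℂ
  | .z => 1
  | _ => 0

theorem star0_ok : Ok (star0 : Ix A B → ℂ) := by
  refine ⟨rfl, ?_⟩
  rintro (_ | b | ⟨a, b⟩) <;> simp [star0]

theorem T0_star (b : B) :
    (T0 star0 : Sp A B) = (1 / 2 : ℂ) • (tA b (e 1) star0 + tA b (-e 1) star0) := by
  rw [← T0_ref2 b (e 1) star0_ok]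
  congr 1
  funext c
  rcases c with _ | b' | ⟨a', b'⟩
  · rfl
  · simp [star0, ref2]
  · simp [star0, ref2]

theorem R_star (hR : Ret M1 M2 R) {b1 b2 : B} (hb1 : b1 ∈ M2) (hb2 : b2 ∈ M2) (hne : b1 ≠ b2) :
    ∃ η : Ix A B → ℂ, Ok η ∧ R (T0 star0) = T0 η := by
  have hm : (T0 star0 : Sp A B) ∈ KK A B := T0_mem star0_ok
  have hRm := hR.maps _ hm
  -- vanishing outside of the first coordinate
  have hz : R (T0 star0) .z = e 0 := by
    rw [hR.fix _ hm .z trivial]
    show (1 : ℂ) • e 0 = e 0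
    rw [one_smul]
  have key : ∀ b0 ∈ M2, ∀ b, b ≠ b0 → ∀ i, i ≠ 0 → R (T0 star0) (.y b) i = 0 ∧
      ∀ a, R (T0 star0) (.w a b) i = 0 := by
    intro b0 hb0 b hb i hi
    rw [T0_star b0, map_smul, map_add]
    simp only [Pi.smul_apply, Pi.add_apply]
    obtain ⟨h1, h2, h3⟩ := R_tA hR hb0 (n2_e 1) (η := star0) star0_ok.2
    obtain ⟨g1, g2, g3⟩ := R_tA hR hb0 (v := -e 1) (by rw [n2_neg, n2_e]) (η := star0) star0_ok.2
    constructor
    · rw [forcedA_y h1 (by simp [e]) (n2_e 1) h2 h3 hb hi,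
        forcedA_y g1 (by simp [e]) (by rw [n2_neg, n2_e]) g2 g3 hb hi]
      simp
    · intro a
      rw [forcedA_w h1 (by simp [e]) (n2_e 1) h2 h3 a hb hi,
        forcedA_w g1 (by simp [e]) (by rw [n2_neg, n2_e]) g2 g3 a hb hi]
      simp
  have key2 : ∀ c i, i ≠ 0 → R (T0 star0) c i = 0 := by
    rintro (_ | b | ⟨a, b⟩) i hi
    · rw [hz]; simp [e, hi]
    · by_cases hb : b = b1
      · exact (key b2 hb2 b (hb ▸ hne) i hi).1
      · exact (key b1 hb1 b hb i hi).1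
    · by_cases hb : b = b1
      · exact (key b2 hb2 b (hb ▸ hne) i hi).2 a
      · exact (key b1 hb1 b hb i hi).2 a
  refine ⟨fun c => R (T0 star0) c 0, ⟨?_, fun c => ?_⟩, ?_⟩
  · show R (T0 star0) .z 0 = 1
    rw [hz]; simp [e]
  · have h1 := (coord_sq_le (R (T0 star0) c) 0).trans (KK_bound hRm c)
    have h2 := norm_nonneg (R (T0 star0) c 0)
    show ‖R (T0 star0) c 0‖ ≤ 1
    nlinarith
  · funext c i
    show _ = R (T0 star0) c 0 * e 0 i
    by_cases hi : i = 0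
    · subst hi; simp [e]
    · rw [key2 c i hi]; simp [e, hi]

/-- Two commuting retractions cannot be in the wrong position. -/
theorem no_commute {M1 M1' : Set A} {M2 M2' : Set B} {R R' : Sp A B →ₗ[ℂ] Sp A B}
    (hR : Ret M1 M2 R) (hR' : Ret M1' M2' R') {a : A} {b b1 b2 : B} (hne : b1 ≠ b2)
    (h1 : b1 ∈ M2) (h2 : b2 ∈ M2) (h1' : b1 ∈ M2') (h2' : b2 ∈ M2')
    (ha : a ∈ M1) (hb : b ∉ M2) (ha' : a ∉ M1') (hb' : b ∈ M2')
    (hcomm : ∀ φ ∈ KK A B, R (R' φ) = R' (R φ)) : False := by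
  obtain ⟨η, hη, hRη⟩ := R_star hR h1 h2 hne
  obtain ⟨η', hη', hRη'⟩ := R_star hR' h1' h2' hne
  have h3 := hcomm (T0 star0) (T0_mem star0_ok)
  have h4 : R (R' (T0 star0)) (.w a b) 0 = 1 := by
    rw [hRη']
    exact F1 hR ha hb h1 hη'
  have h5 : R' (R (T0 star0)) (.w a b) 0 = 0 := by
    rw [hRη]
    exact F2 hR' ha' hb' hη
  rw [h3, h5] at h4
  exact zero_ne_one h4

end Pool.Agent.Helper811.Cplx
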