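import Mathlib

set_option autoImplicit false

open Set Topology

namespace Pool.Agent.Helper811

/-- A map on an absolutely convex set which respects absolutely convex combinations extends to a
linear map. -/
theorem exists_lin_ext {E F : Type} [AddCommGroup E] [Module ℂ E] [AddCommGroup F] [Module ℂ F]
    (K : Set E) (hne : K.Nonempty)
    (hK : ∀ φ ∈ K, ∀ ψ ∈ K, ∀ s t : ℂ, ‖s‖ + ‖t‖ ≤ 1 → s • φ + t • ψ ∈ K) (r : E → F)
    (hr : ∀ φ ∈ K, ∀ ψ ∈ K, ∀ s t : ℂ, ‖s‖ + ‖t‖ ≤ 1 → r (s • φ + t • ψ) = s • r φ + t • r ψ) :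
    ∃ R : E →ₗ[ℂ] F, ∀ φ ∈ K, R φ = r φ := by
  classical
  have hs : ∀ φ ∈ K, ∀ s : ℂ, ‖s‖ ≤ 1 → s • φ ∈ K := by
    intro φ hφ s hs
    have := hK φ hφ φ hφ s 0 (by simpa using hs)
    simpa using this
  have hrs : ∀ φ ∈ K, ∀ s : ℂ, ‖s‖ ≤ 1 → r (s • φ) = s • r φ := by
    intro φ hφ s hs
    have := hr φ hφ φ hφ s 0 (by simpa using hs)
    simpa using this
  -- the value of the extension
  let P : E → Prop := fun x => ∃ t : ℝ, 0 < t ∧ (t : ℂ) • x ∈ K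
  have hval : ∀ x (t t' : ℝ), 0 < t → 0 < t' → (t : ℂ) • x ∈ K → (t' : ℂ) • x ∈ K →
      ((t : ℂ)⁻¹) • r ((t : ℂ) • x) = ((t' : ℂ)⁻¹) • r ((t' : ℂ) • x) := by
    have key : ∀ x (t t' : ℝ), 0 < t → 0 < t' → t ≤ t' → (t' : ℂ) • x ∈ K →
        ((t : ℂ)⁻¹) • r ((t : ℂ) • x) = ((t' : ℂ)⁻¹) • r ((t' : ℂ) • x) := by
      intro x t t' ht ht' hle hx'
      have ht0 : (t : ℂ) ≠ 0 := by exact_mod_cast ht.ne'
      have ht0' : (t' : ℂ) ≠ 0 := by exact_mod_cast ht'.ne'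
      have h1 : (t : ℂ) • x = ((t : ℂ) / t') • ((t' : ℂ) • x) := by
        rw [smul_smul, div_mul_cancel₀ _ ht0']
      have h2 : ‖((t : ℂ) / t')‖ ≤ 1 := by
        rw [norm_div, Complex.norm_real, Complex.norm_real, Real.norm_of_nonneg ht.le,
          Real.norm_of_nonneg ht'.le]
        exact (div_le_one ht').2 hle
      rw [h1, hrs _ hx' _ h2, smul_smul]
      congr 1
      field_simp
    intro x t t' ht ht' hx hx'
    rcases le_total t t' with h | h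
    · exact key x t t' ht ht' h hx'
    · exact (key x t' t ht' ht h hx).symm
  let T : E → F := fun x => if h : P x then (((h.choose : ℝ) : ℂ)⁻¹) • r (((h.choose : ℝ) : ℂ) • x) else 0
  have hT : ∀ x (t : ℝ), 0 < t → (t : ℂ) • x ∈ K → T x = ((t : ℂ)⁻¹) • r ((t : ℂ) • x) := by
    intro x t ht hx
    have h : P x := ⟨t, ht, hx⟩
    have : T x = (((h.choose : ℝ) : ℂ)⁻¹) • r (((h.choose : ℝ) : ℂ) • x) := dif_pos h
    rw [this]
    exact hval x _ _ h.choose_spec.1 ht h.choose_spec.2 hx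
  have hPmono : ∀ x (t t' : ℝ), 0 < t → 0 < t' → t ≤ t' → (t' : ℂ) • x ∈ K → (t : ℂ) • x ∈ K := by
    intro x t t' ht ht' hle hx'
    have ht0' : (t' : ℂ) ≠ 0 := by exact_mod_cast ht'.ne'
    have h1 : (t : ℂ) • x = ((t : ℂ) / t') • ((t' : ℂ) • x) := by
      rw [smul_smul, div_mul_cancel₀ _ ht0']
    rw [h1]
    refine hs _ hx' _ ?_
    rw [norm_div, Complex.norm_real, Complex.norm_real, Real.norm_of_nonneg ht.le,
      Real.norm_of_nonneg ht'.le]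
    exact (div_le_one ht').2 hle
  have hcommon : ∀ x y, P x → P y → ∃ t : ℝ, 0 < t ∧ (t : ℂ) • x ∈ K ∧ (t : ℂ) • y ∈ K := by
    rintro x y ⟨t, ht, hx⟩ ⟨t', ht', hy⟩
    refine ⟨min t t', lt_min ht ht', ?_, ?_⟩
    · exact hPmono x _ t (lt_min ht ht') ht (min_le_left _ _) hx
    · exact hPmono y _ t' (lt_min ht ht') ht' (min_le_right _ _) hy
  have hadd : ∀ x y (t : ℝ), 0 < t → (t : ℂ) • x ∈ K → (t : ℂ) • y ∈ K →
      ((t / 2 : ℝ) : ℂ) • (x + y) ∈ K ∧ T (x + y) = T x + T y := by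
    intro x y t ht hx hy
    have ht0 : (t : ℂ) ≠ 0 := by exact_mod_cast ht.ne'
    have h1 : ((t / 2 : ℝ) : ℂ) • (x + y) = (1 / 2 : ℂ) • ((t : ℂ) • x) + (1 / 2 : ℂ) • ((t : ℂ) • y) := by
      rw [smul_smul, smul_smul, smul_add]
      push_cast
      congr 2 <;> ring
    have h2 : ‖(1 / 2 : ℂ)‖ + ‖(1 / 2 : ℂ)‖ ≤ 1 := by norm_num
    have h3 : ((t / 2 : ℝ) : ℂ) • (x + y) ∈ K := by
      rw [h1]
      exact hK _ hx _ hy _ _ h2
    refine ⟨h3, ?_⟩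
    rw [hT _ _ (half_pos ht) h3, hT _ _ ht hx, hT _ _ ht hy, h1, hr _ hx _ hy _ _ h2, smul_add,
      smul_smul, smul_smul]
    push_cast
    congr 2 <;> field_simp
  have hsmul : ∀ x (t : ℝ) (s : ℂ), 0 < t → (t : ℂ) • x ∈ K →
      ((t / (‖s‖ + 1) : ℝ) : ℂ) • (s • x) ∈ K ∧ T (s • x) = s • T x := by
    intro x t s ht hx
    have hpos : 0 < ‖s‖ + 1 := by positivity
    have ht0 : (t : ℂ) ≠ 0 := by exact_mod_cast ht.ne'
    have hp0 : ((‖s‖ + 1 : ℝ) : ℂ) ≠ 0 := by exact_mod_cast hpos.ne'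
    have h1 : ((t / (‖s‖ + 1) : ℝ) : ℂ) • (s • x) = (s / ((‖s‖ + 1 : ℝ) : ℂ)) • ((t : ℂ) • x) := by
      rw [smul_smul, smul_smul]
      congr 1
      rw [Complex.ofReal_div]
      field_simp
    have h2 : ‖(s / ((‖s‖ + 1 : ℝ) : ℂ))‖ ≤ 1 := by
      rw [norm_div, Complex.norm_real, Real.norm_of_nonneg hpos.le]
      exact (div_le_one hpos).2 (by linarith)
    have h3 : ((t / (‖s‖ + 1) : ℝ) : ℂ) • (s • x) ∈ K := by
      rw [h1]
      exact hs _ hx _ h2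
    refine ⟨h3, ?_⟩
    rw [hT _ _ (div_pos ht hpos) h3, hT _ _ ht hx, h1, hrs _ hx _ h2, smul_smul, smul_smul]
    congr 1
    rw [Complex.ofReal_div]
    field_simp
  let D : Submodule ℂ E :=
    { carrier := {x | P x}
      add_mem' := by
        intro x y hx hy
        obtain ⟨t, ht, h1, h2⟩ := hcommon x y hx hy
        exact ⟨t / 2, half_pos ht, (hadd x y t ht h1 h2).1⟩
      zero_mem' := by
        obtain ⟨φ, hφ⟩ := hne
        refine ⟨1, one_pos, ?_⟩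
        have := hs φ hφ 0 (by simp)
        simpa using this
      smul_mem' := by
        rintro s x ⟨t, ht, hx⟩
        exact ⟨t / (‖s‖ + 1), by positivity, (hsmul x t s ht hx).1⟩ }
  let R0 : D →ₗ[ℂ] F :=
    { toFun := fun x => T x.1
      map_add' := by
        intro x y
        obtain ⟨t, ht, h1, h2⟩ := hcommon x.1 y.1 x.2 y.2
        exact (hadd x.1 y.1 t ht h1 h2).2
      map_smul' := by
        intro s x
        obtain ⟨t, ht, hx⟩ := x.2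
        exact (hsmul x.1 t s ht hx).2 }
  obtain ⟨R, hR⟩ := R0.exists_extend
  refine ⟨R, fun φ hφ => ?_⟩
  have h1 : ((1 : ℝ) : ℂ) • φ ∈ K := by simpa using hφ
  have h2 : R φ = R0 ⟨φ, ⟨1, one_pos, h1⟩⟩ := by
    rw [← hR]
    rfl
  rw [h2]
  show T φ = r φ
  rw [hT φ 1 one_pos h1]
  simp

end Pool.Agent.Helper811
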