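import Pool.Agent.Helper811.Retract
import Pool.Agent.Helper811.LinExt
import Pool.Agent.Helper811.Cplx4

set_option autoImplicit false

open Set Topology

namespace Pool.Agent.Helper811.Cplx

open scoped Classical

variable {A B : Type}

/-- The parameters of absolutely convex combinations. -/
abbrev Par : Type := {p : ℂ × ℂ // ‖p.1‖ + ‖p.2‖ ≤ 1}

theorem par_isCompact : IsCompact {p : ℂ × ℂ | ‖p.1‖ + ‖p.2‖ ≤ 1} := by
  have h1 : IsCompact (Metric.closedBall (0 : ℂ) 1 ×ˢ Metric.closedBall (0 : ℂ) 1) :=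
    (isCompact_closedBall _ _).prod (isCompact_closedBall _ _)
  refine h1.of_isClosed_subset (isClosed_le (by fun_prop) (by fun_prop)) ?_
  rintro ⟨s, t⟩ h
  have h2 : ‖s‖ + ‖t‖ ≤ 1 := h
  have h3 := norm_nonneg s
  have h4 := norm_nonneg t
  simp only [mem_prod, mem_closedBall_zero_iff]
  constructor <;> linarith

instance : CompactSpace Par := isCompact_iff_compactSpace.1 par_isCompact

instance : Nonempty Par := ⟨⟨(0, 0), by simp⟩⟩

instance : CompactSpace (KK A B) := isCompact_iff_compactSpace.1 KK_compact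

/-- Labels of the coordinates. -/
noncomputable def lab : Ix A B → Finset (A ⊕ B)
  | .z => ∅
  | .y b => {Sum.inr b}
  | .w a b => {Sum.inl a, Sum.inr b}

theorem lab_countable (F : Finset (A ⊕ B)) : {c : Ix A B | lab c ⊆ F}.Countable := by
  have h1 : {c : Ix A B | lab c ⊆ F} ⊆ {Ix.z} ∪
      (Ix.y '' (Sum.inr ⁻¹' (F : Set (A ⊕ B)))) ∪
      ((fun p : A × B => Ix.w p.1 p.2) '' ((Sum.inl ⁻¹' (F : Set (A ⊕ B))) ×ˢ
        (Sum.inr ⁻¹' (F : Set (A ⊕ B))))) := by
    rintro (_ | b | ⟨a, b⟩) hc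
    · exact Or.inl (Or.inl rfl)
    · refine Or.inl (Or.inr ⟨b, ?_, rfl⟩)
      exact hc (by simp [lab])
    · refine Or.inr ⟨(a, b), ⟨?_, ?_⟩, rfl⟩
      · exact hc (by simp [lab])
      · exact hc (by simp [lab])
  have h2 : (Sum.inl ⁻¹' (F : Set (A ⊕ B)) : Set A).Countable :=
    F.countable_toSet.preimage_of_injOn Sum.inl_injective.injOn
  have h3 : (Sum.inr ⁻¹' (F : Set (A ⊕ B)) : Set B).Countable :=
    F.countable_toSet.preimage_of_injOn Sum.inr_injective.injOn
  exact (((countable_singleton _).union (h3.image _)).union ((h2.prod h3).image _)).mono h1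

theorem lab_subset_iff (M : Set (A ⊕ B)) (c : Ix A B) :
    (lab c : Set (A ⊕ B)) ⊆ M ↔ c ∈ Cm {a | Sum.inl a ∈ M} {b | Sum.inr b ∈ M} := by
  rcases c with _ | b | ⟨a, b⟩
  · simp only [lab, Finset.coe_empty, empty_subset, true_iff]
    exact trivial
  · simp only [lab, Finset.coe_singleton, singleton_subset_iff]
    rfl
  · simp only [lab, Finset.coe_insert, Finset.coe_singleton, insert_subset_iff,
      singleton_subset_iff]
    rfl

theorem res_comm {Γ : Type} (I I' : Set Γ) (x : Γ → ℝ) : res I (res I' x) = res I' (res I x) := by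
  unfold res
  rw [indicator_indicator, indicator_indicator, inter_comm]

section

variable {Γ : Type} (H : KK A B → (Γ → ℝ)) (hH : Continuous H) (hHinj : Function.Injective H)
    (hdense : Dense {x | (Function.support (H x)).Countable})
    (hcomb : ∀ x y : KK A B, (Function.support (H x)).Countable →
      (Function.support (H y)).Countable → ∀ (s t : ℂ) (hst : ‖s‖ + ‖t‖ ≤ 1),
      (Function.support (H ⟨s • x.1 + t • y.1, KK_abs x.2 y.2 hst⟩)).Countable)

include hH hHinj hdense hcomb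

theorem exists_Ret (S : Set (A ⊕ B)) (hS : S.Countable) :
    ∃ (I : Set Γ) (M1 : Set A) (M2 : Set B) (R : Sp A B →ₗ[ℂ] Sp A B),
      M1.Countable ∧ M2.Countable ∧ (∀ a, Sum.inl a ∈ S → a ∈ M1) ∧ (∀ b, Sum.inr b ∈ S → b ∈ M2) ∧
      Ret M1 M2 R ∧ ∀ (x : Sp A B) (hx : x ∈ KK A B) (hRx : R x ∈ KK A B),
        H ⟨R x, hRx⟩ = res I (H ⟨x, hx⟩) := by
  let enc : Par → (Fin 4 → ℝ) := fun p => ![p.1.1.re, p.1.1.im, p.1.2.re, p.1.2.im]
  have henc : Continuous enc := by
    refine continuous_pi fun j => ?_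
    fin_cases j
    · show Continuous fun p : Par => p.1.1.re
      fun_prop
    · show Continuous fun p : Par => p.1.1.im
      fun_prop
    · show Continuous fun p : Par => p.1.2.re
      fun_prop
    · show Continuous fun p : Par => p.1.2.im
      fun_prop
  have hencinj : Function.Injective enc := by
    intro p q h
    have h0 : p.1.1.re = q.1.1.re := congrFun h 0
    have h1 : p.1.1.im = q.1.1.im := congrFun h 1
    have h2 : p.1.2.re = q.1.2.re := congrFun h 2
    have h3 : p.1.2.im = q.1.2.im := congrFun h 3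
    exact Subtype.ext (Prod.ext (Complex.ext h0 h1) (Complex.ext h2 h3))
  let comb : Par → KK A B → KK A B → KK A B := fun p x y =>
    ⟨p.1.1 • x.1 + p.1.2 • y.1, KK_abs x.2 y.2 p.2⟩
  have hcombc : Continuous fun q : Par × KK A B × KK A B => comb q.1 q.2.1 q.2.2 := by
    refine Continuous.subtype_mk ?_ _
    fun_prop
  obtain ⟨I, M, r, hSM, hMc, hrc, hrH, hrcomb, hrfix, hrdet⟩ := exists_retraction H hH hHinj hdense
    enc henc hencinj comb hcombc (fun p x y hx hy => hcomb x y hx hy p.1.1 p.1.2 p.2)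
    (fun (c : Ix A B) (x : KK A B) => x.1 c)
    (fun c => (continuous_apply c).comp continuous_subtype_val)
    (fun x y h => Subtype.ext (funext h)) lab lab_countable S hS
  let r' : Sp A B → Sp A B := fun x => if h : x ∈ KK A B then (r ⟨x, h⟩).1 else 0
  have hr' : ∀ x (h : x ∈ KK A B), r' x = (r ⟨x, h⟩).1 := fun x h => dif_pos h
  obtain ⟨R, hR⟩ := exists_lin_ext (KK A B) ⟨0, KK_nonempty⟩
    (fun φ hφ ψ hψ s t hst => KK_abs hφ hψ hst) r' (by
      intro φ hφ ψ hψ s t hst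
      rw [hr' _ (KK_abs hφ hψ hst), hr' _ hφ, hr' _ hψ]
      have := hrcomb ⟨(s, t), hst⟩ ⟨φ, hφ⟩ ⟨ψ, hψ⟩
      exact congrArg Subtype.val this)
  have hRr : ∀ x (h : x ∈ KK A B), R x = (r ⟨x, h⟩).1 := fun x h => by rw [hR x h, hr' x h]
  refine ⟨I, {a | Sum.inl a ∈ M}, {b | Sum.inr b ∈ M}, R,
    hMc.preimage_of_injOn Sum.inl_injective.injOn, hMc.preimage_of_injOn Sum.inr_injective.injOn,
    fun a ha => hSM ha, fun b hb => hSM hb, ⟨?_, ?_, ?_, ?_⟩, ?_⟩
  · intro φ hφ
    rw [hRr φ hφ]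
    exact (r ⟨φ, hφ⟩).2
  · rw [continuousOn_iff_continuous_domRestrict]
    have : (KK A B).domRestrict R = fun x => (r x).1 := by
      funext x
      exact hRr x.1 x.2
    rw [this]
    exact continuous_subtype_val.comp hrc
  · intro φ hφ c hc
    rw [hRr φ hφ]
    exact hrfix ⟨φ, hφ⟩ c ((lab_subset_iff M c).2 hc)
  · intro φ hφ ψ hψ h
    rw [hRr φ hφ, hRr ψ hψ]
    exact congrArg Subtype.val (hrdet ⟨φ, hφ⟩ ⟨ψ, hψ⟩ fun c hc => h c ((lab_subset_iff M c).1 hc))
  · intro x hx hRx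
    have h1 : (⟨R x, hRx⟩ : KK A B) = r ⟨x, hx⟩ := Subtype.ext (hRr x hx)
    rw [h1, hrH]

/-- There is no dense absolutely convex Sigma-structure. -/
theorem no_structure (hA : ¬ (univ : Set A).Countable)
    (hAB : ∀ f : B → A, ∃ a, ¬ (f ⁻¹' {a}).Countable) (b1 b2 : B) (hne : b1 ≠ b2) : False := by
  -- first family
  have h1 := fun b : B => exists_Ret H hH hHinj hdense hcomb {Sum.inr b, Sum.inr b1, Sum.inr b2}
    ((countable_singleton _).insert _ |>.insert _)
  choose I M1 M2 R hM1 hM2 hS1 hS2 hR hRH using h1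
  have h2 : ∀ b, ∃ a, a ∉ M1 b := by
    intro b
    by_contra hcon
    refine hA ((hM1 b).mono ?_)
    intro a _
    by_contra h
    exact hcon ⟨a, h⟩
  choose f hf using h2
  obtain ⟨a, ha⟩ := hAB f
  obtain ⟨J, N1, N2, R0, hN1, hN2, hT1, hT2, hR0, hR0H⟩ :=
    exists_Ret H hH hHinj hdense hcomb {Sum.inl a, Sum.inr b1, Sum.inr b2}
    ((countable_singleton _).insert _ |>.insert _)
  obtain ⟨b, hb, hbN⟩ : ∃ b, f b = a ∧ b ∉ N2 := by
    by_contra hcon
    refine ha (hN2.mono ?_)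
    intro b hb
    by_contra h
    exact hcon ⟨b, hb, h⟩
  refine no_commute hR0 (hR b) (a := a) (b := b) hne (hT2 _ (by simp)) (hT2 _ (by simp))
    (hS2 b _ (by simp)) (hS2 b _ (by simp)) (hT1 _ (by simp)) hbN (hb ▸ hf b) (hS2 b _ (by simp)) ?_
  intro φ hφ
  have e1 := (hR b).maps φ hφ
  have e2 := hR0.maps φ hφ
  have e3 := hR0.maps _ e1
  have e4 := (hR b).maps _ e2
  have h3 : (⟨R0 (R b φ), e3⟩ : KK A B) = ⟨R b (R0 φ), e4⟩ := by
    apply hHinj
    rw [hR0H _ e1, hRH b _ hφ, hRH b _ e2, hR0H _ hφ, res_comm]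
  exact congrArg Subtype.val h3

end

end Pool.Agent.Helper811.Cplx
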