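import Pool.Agent.Helper811.Cplx5

set_option autoImplicit false

open Set Topology

namespace Pool.Agent.Helper811.Cplx

open scoped Classical

variable (A B : Type)

/-! ### The Banach space -/

/-- The coordinate functions as continuous functions on the compact set. -/
def coordC (p : Ix A B × Fin 3) : C(KK A B, ℂ) :=
  ⟨fun x => x.1 p.1 p.2, by
    exact (continuous_apply p.2).comp ((continuous_apply p.1).comp continuous_subtype_val)⟩

/-- The closed linear span of the coordinate functions. -/
noncomputable def XS : Submodule ℂ C(KK A B, ℂ) :=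
  (Submodule.span ℂ (range (coordC A B))).topologicalClosure

/-- The Banach space. -/
abbrev XX : Type := XS A B

variable {A B}

noncomputable def coordX (p : Ix A B × Fin 3) : XX A B :=
  ⟨coordC A B p, Submodule.le_topologicalClosure _ (Submodule.subset_span (mem_range_self p))⟩

theorem XS_closed : IsClosed (XS A B : Set C(KK A B, ℂ)) :=
  Submodule.isClosed_topologicalClosure _

instance : CompleteSpace (XX A B) := (XS_closed (A := A) (B := B)).completeSpace_coe

/-- The closed unit ball of the dual. -/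
def ball (A B : Type) : Set (WeakDual ℂ (XX A B)) := {φ | ∀ x : XX A B, ‖φ x‖ ≤ ‖x‖}

/-- The point of the product attached to a functional. -/
noncomputable def pt (f : WeakDual ℂ (XX A B)) : Sp A B := fun c i => f (coordX (c, i))

theorem pt_continuous : Continuous (pt (A := A) (B := B)) := by
  refine continuous_pi fun c => continuous_pi fun i => ?_
  exact WeakDual.eval_continuous _

theorem pt_comb (s t : ℂ) (f g : WeakDual ℂ (XX A B)) :
    pt (s • f + t • g) = s • pt f + t • pt g := rfl

/-- Evaluation functionals. -/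
noncomputable def ev (x : KK A B) : WeakDual ℂ (XX A B) :=
  StrongDual.toWeakDual ((ContinuousMap.evalCLM ℂ x).comp (XS A B).subtypeL)

theorem ev_apply (x : KK A B) (u : XX A B) : ev x u = u.1 x := rfl

theorem ev_continuous : Continuous (ev (A := A) (B := B)) := by
  refine WeakDual.continuous_of_continuous_eval fun u => ?_
  simp only [ev_apply]
  exact u.1.continuous

theorem ev_mem (x : KK A B) : ev x ∈ ball A B := by
  intro u
  rw [ev_apply]
  exact u.1.norm_coe_le_norm x

theorem pt_ev (x : KK A B) : pt (ev x) = x.1 := rfl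

/-- Elements of the space respect absolutely convex combinations. -/
theorem XS_affine (u : XX A B) (x y : KK A B) (s t : ℂ) (hst : ‖s‖ + ‖t‖ ≤ 1) :
    u.1 ⟨s • x.1 + t • y.1, KK_abs x.2 y.2 hst⟩ = s * u.1 x + t * u.1 y := by
  let N : Submodule ℂ C(KK A B, ℂ) :=
    { carrier := {g | g ⟨s • x.1 + t • y.1, KK_abs x.2 y.2 hst⟩ = s * g x + t * g y}
      add_mem' := by
        intro g g' hg hg'
        simp only [mem_ofPred_eq, ContinuousMap.add_apply] at hg hg' ⊢
        rw [hg, hg']; ring
      zero_mem' := by simp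
      smul_mem' := by
        intro c g hg
        simp only [mem_ofPred_eq, ContinuousMap.smul_apply, smul_eq_mul] at hg ⊢
        rw [hg]; ring }
  have hN : IsClosed (N : Set C(KK A B, ℂ)) := by
    refine isClosed_eq ?_ ?_
    · exact (ContinuousMap.evalCLM ℂ _ : C(KK A B, ℂ) →L[ℂ] ℂ).continuous
    · exact (continuous_const.mul (ContinuousMap.evalCLM ℂ x : C(KK A B, ℂ) →L[ℂ] ℂ).continuous).add
        (continuous_const.mul (ContinuousMap.evalCLM ℂ y : C(KK A B, ℂ) →L[ℂ] ℂ).continuous)
  have h1 : XS A B ≤ N := by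
    refine Submodule.topologicalClosure_minimal _ ?_ hN
    rw [Submodule.span_le]
    rintro _ ⟨p, rfl⟩
    rfl
  exact h1 u.2

theorem ev_comb (x y : KK A B) (s t : ℂ) (hst : ‖s‖ + ‖t‖ ≤ 1) :
    s • ev x + t • ev y = ev ⟨s • x.1 + t • y.1, KK_abs x.2 y.2 hst⟩ := by
  refine DFunLike.ext _ _ fun u => ?_
  rw [ev_apply, XS_affine _ _ _ _ _ hst]
  rfl

theorem pt_injective : Function.Injective (pt (A := A) (B := B)) := by
  intro f g h
  refine DFunLike.ext _ _ fun u => ?_
  -- the set of agreement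
  let N0 : Submodule ℂ (XX A B) :=
    { carrier := {v | f v = g v}
      add_mem' := by
        intro v v' hv hv'
        simp only [mem_ofPred_eq] at hv hv' ⊢
        rw [map_add, map_add, hv, hv']
      zero_mem' := by simp
      smul_mem' := by
        intro c v hv
        simp only [mem_ofPred_eq] at hv ⊢
        rw [map_smul, map_smul, hv] }
  have hfc : Continuous fun v : XX A B => f v := map_continuous f
  have hgc : Continuous fun v : XX A B => g v := map_continuous g
  have hN0 : IsClosed (N0 : Set (XX A B)) := isClosed_eq hfc hgc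
  let N : Submodule ℂ C(KK A B, ℂ) := N0.map (XS A B).subtype
  have hN : IsClosed (N : Set C(KK A B, ℂ)) := by
    have : (N : Set C(KK A B, ℂ)) = Subtype.val '' (N0 : Set (XX A B)) := rfl
    rw [this]
    exact XS_closed.isClosedMap_subtype_val _ hN0
  have h1 : XS A B ≤ N := by
    refine Submodule.topologicalClosure_minimal _ ?_ hN
    rw [Submodule.span_le]
    rintro _ ⟨p, rfl⟩
    refine ⟨coordX p, ?_, rfl⟩
    exact congrFun (congrFun h p.1) p.2
  obtain ⟨v, hv, hvu⟩ := h1 u.2
  have : v = u := Subtype.ext hvu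
  rw [← this]
  exact hv

theorem continuous_functional (G : StrongDual ℂ (Sp A B)) (f : WeakDual ℂ (XX A B)) :
    ∃ u : XX A B, (∀ x : KK A B, u.1 x = G x.1) ∧ f u = G (pt f) := by
  -- finitely many coordinates matter
  obtain ⟨F, hF⟩ : ∃ F : Finset (Ix A B), ∀ φ : Sp A B, (∀ c ∈ F, φ c = 0) → G φ = 0 := by
    have h1 : {φ : Sp A B | ‖G φ‖ < 1} ∈ 𝓝 (0 : Sp A B) := by
      refine (isOpen_lt (by fun_prop) continuous_const).mem_nhds ?_
      simp
    rw [nhds_pi, Filter.mem_pi'] at h1
    obtain ⟨F, t, ht, hsub⟩ := h1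
    refine ⟨F, fun φ hφ => ?_⟩
    by_contra hne
    have hpos : 0 < ‖G φ‖ := norm_pos_iff.2 hne
    have h2 : ((‖G φ‖⁻¹ : ℝ) : ℂ) • φ ∈ {φ : Sp A B | ‖G φ‖ < 1} := by
      apply hsub
      intro c hc
      have : (((‖G φ‖⁻¹ : ℝ) : ℂ) • φ) c = 0 := by
        rw [Pi.smul_apply, hφ c hc, smul_zero]
      rw [this]
      exact mem_of_mem_nhds (ht c)
    simp only [mem_ofPred_eq, map_smul, norm_smul, Complex.norm_real, norm_inv, norm_norm] at h2
    rw [inv_mul_cancel₀ hpos.ne'] at h2
    exact lt_irrefl _ h2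
  -- the finite expansion
  have hexp : ∀ φ : Sp A B, G φ = ∑ c ∈ F, ∑ i : Fin 3, φ c i * G (Pi.single c (Pi.single i 1)) := by
    intro φ
    have h1 : G (φ - ∑ c ∈ F, Pi.single c (φ c)) = 0 := by
      refine hF _ fun c hc => ?_
      rw [Pi.sub_apply, Finset.sum_apply]
      rw [Finset.sum_eq_single c]
      · simp
      · intro c' _ hcc
        rw [Pi.single_eq_of_ne (Ne.symm hcc)]
      · intro h; exact absurd hc h
    rw [map_sub, sub_eq_zero] at h1
    rw [h1, map_sum]
    refine Finset.sum_congr rfl fun c _ => ?_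
    have h2 : (Pi.single c (φ c) : Sp A B) = ∑ i : Fin 3, φ c i • Pi.single c (Pi.single i 1) := by
      have h3 : φ c = ∑ i : Fin 3, φ c i • (Pi.single i 1 : V3) := by
        funext j
        rw [Finset.sum_apply, Finset.sum_eq_single j]
        · simp
        · intro i _ hij
          rw [Pi.smul_apply, Pi.single_eq_of_ne (Ne.symm hij), smul_zero]
        · intro h; exact absurd (Finset.mem_univ j) h
      conv_lhs => rw [h3]
      have h4 := map_sum (LinearMap.single ℂ (fun _ : Ix A B => V3) c)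
        (fun i : Fin 3 => φ c i • (Pi.single i 1 : V3)) Finset.univ
      refine h4.trans ?_
      refine Finset.sum_congr rfl fun i _ => ?_
      rw [map_smul]
      rfl
    rw [h2, map_sum]
    refine Finset.sum_congr rfl fun i _ => ?_
    rw [map_smul, smul_eq_mul]
  refine ⟨∑ c ∈ F, ∑ i : Fin 3, (G (Pi.single c (Pi.single i 1)) : ℂ) • coordX (c, i), ?_, ?_⟩
  · intro x
    rw [hexp x.1, ← ev_apply, map_sum]
    refine Finset.sum_congr rfl fun c _ => ?_
    rw [map_sum]
    refine Finset.sum_congr rfl fun i _ => ?_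
    rw [map_smul, smul_eq_mul, mul_comm]
    rfl
  · rw [hexp (pt f), map_sum]
    refine Finset.sum_congr rfl fun c _ => ?_
    rw [map_sum]
    refine Finset.sum_congr rfl fun i _ => ?_
    rw [map_smul, smul_eq_mul, mul_comm]
    rfl

theorem pt_mem {f : WeakDual ℂ (XX A B)} (hf : f ∈ ball A B) : pt f ∈ KK A B := by
  by_contra hcon
  obtain ⟨G, u, hG1, hG2⟩ := RCLike.geometric_hahn_banach_closed_point (𝕜 := ℂ)
    (KK_convex (A := A) (B := B)) KK_closed hcon
  obtain ⟨v, hv1, hv2⟩ := continuous_functional G f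
  have hu0 : 0 ≤ u := by
    have := hG1 0 KK_nonempty
    simp only [map_zero] at this
    exact this.le
  have h1 : ‖v‖ ≤ u := by
    show ‖v.1‖ ≤ u
    rw [ContinuousMap.norm_le _ hu0]
    intro x
    rw [hv1 x]
    by_cases h0 : G x.1 = 0
    · rw [h0, norm_zero]; exact hu0
    have hpos : 0 < ‖G x.1‖ := norm_pos_iff.2 h0
    let s : ℂ := (starRingEnd ℂ) (G x.1) / ‖G x.1‖
    have hs : ‖s‖ ≤ 1 := by
      show ‖(starRingEnd ℂ) (G x.1) / (‖G x.1‖ : ℂ)‖ ≤ 1
      rw [norm_div, RCLike.norm_conj, Complex.norm_real, norm_norm, div_self hpos.ne']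
    have h2 := hG1 _ (KK_smul x.2 hs)
    have h3 : G (s • x.1) = ((‖G x.1‖ : ℝ) : ℂ) := by
      rw [map_smul, smul_eq_mul]
      show (starRingEnd ℂ) (G x.1) / (‖G x.1‖ : ℂ) * G x.1 = _
      have h4 : ((‖G x.1‖ : ℝ) : ℂ) ≠ 0 := by exact_mod_cast hpos.ne'
      rw [div_mul_eq_mul_div, div_eq_iff h4, mul_comm, Complex.mul_conj, Complex.normSq_eq_norm_sq]
      push_cast
      ring
    rw [h3] at h2
    have h5 : RCLike.re ((‖G x.1‖ : ℝ) : ℂ) = ‖G x.1‖ := Complex.ofReal_re _
    rw [h5] at h2
    exact h2.le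
  have h2 := hf v
  rw [hv2] at h2
  have h3 : RCLike.re (G (pt f)) ≤ ‖G (pt f)‖ := RCLike.re_le_norm _
  linarith

theorem ev_pt {f : WeakDual ℂ (XX A B)} (hf : f ∈ ball A B) : ev ⟨pt f, pt_mem hf⟩ = f := by
  apply pt_injective
  rw [pt_ev]

end Pool.Agent.Helper811.Cplx
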