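import Pool.Agent.Helper811.Cplx6

set_option autoImplicit false

open Set Topology

namespace Pool.Agent.Helper811.Cplx

open scoped Classical

variable {A B : Type}

/-! ### The real structure -/

/-- The deviations. -/
noncomputable def devV (φ : Sp A B) : Sp A B
  | .z => φ .z
  | .y b => φ (.y b) - cj (φ .z)
  | .w a b => φ (.w a b) - cj (φ (.y b))

theorem cj_add (x y : V3) : cj (x + y) = cj x + cj y := by
  funext i; simp [cj]

theorem cj_rsmul (s : ℝ) (x : V3) : cj ((s : ℂ) • x) = (s : ℂ) • cj x := by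
  rw [cj_smul, Complex.conj_ofReal]

theorem devV_comb (s t : ℝ) (φ ψ : Sp A B) :
    devV ((s : ℂ) • φ + (t : ℂ) • ψ) = (s : ℂ) • devV φ + (t : ℂ) • devV ψ := by
  funext c
  rcases c with _ | b | ⟨a, b⟩
  · rfl
  · simp only [devV, Pi.add_apply, Pi.smul_apply, cj_add, cj_rsmul, smul_sub]
    abel
  · simp only [devV, Pi.add_apply, Pi.smul_apply, cj_add, cj_rsmul, smul_sub]
    abel

theorem devV_injective : Function.Injective (devV (A := A) (B := B)) := by
  intro φ ψ h
  have hz : φ .z = ψ .z := congrFun h .z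
  have hy : ∀ b, φ (.y b) = ψ (.y b) := by
    intro b
    have h1 : φ (.y b) - cj (φ .z) = ψ (.y b) - cj (ψ .z) := congrFun h (.y b)
    rw [hz] at h1
    exact sub_left_injective h1
  funext c
  rcases c with _ | b | ⟨a, b⟩
  · exact hz
  · exact hy b
  · have h1 : φ (.w a b) - cj (φ (.y b)) = ψ (.w a b) - cj (ψ (.y b)) := congrFun h (.w a b)
    rw [hy b] at h1
    exact sub_left_injective h1

theorem cj_continuous : Continuous cj := by
  unfold cj
  fun_prop

theorem devV_continuous : Continuous (devV (A := A) (B := B)) := by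
  refine continuous_pi fun c => ?_
  have hc := cj_continuous
  rcases c with _ | b | ⟨a, b⟩
  · exact continuous_apply _
  · show Continuous fun φ : Sp A B => φ (.y b) - cj (φ .z)
    fun_prop
  · show Continuous fun φ : Sp A B => φ (.w a b) - cj (φ (.y b))
    fun_prop

/-- Real coordinates. -/
noncomputable def dev (φ : Sp A B) : Ix A B × Fin 3 × Bool → ℝ := fun p =>
  if p.2.2 then (devV φ p.1 p.2.1).re else (devV φ p.1 p.2.1).im

theorem dev_continuous : Continuous (dev (A := A) (B := B)) := by
  refine continuous_pi fun p => ?_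
  have h1 : Continuous fun φ : Sp A B => devV φ p.1 p.2.1 :=
    (continuous_apply p.2.1).comp ((continuous_apply p.1).comp devV_continuous)
  by_cases h : p.2.2 = true
  · simp only [dev, h, if_true]
    exact Complex.continuous_re.comp h1
  · simp only [dev, h]
    exact Complex.continuous_im.comp h1

theorem dev_injective : Function.Injective (dev (A := A) (B := B)) := by
  intro φ ψ h
  apply devV_injective
  funext c i
  refine Complex.ext ?_ ?_
  · have h1 := congrFun h (c, i, true)
    simp only [dev, if_true] at h1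
    exact h1
  · have h1 := congrFun h (c, i, false)
    simp only [dev, Bool.false_eq_true, if_false] at h1
    exact h1

theorem dev_comb (s t : ℝ) (φ ψ : Sp A B) :
    dev ((s : ℂ) • φ + (t : ℂ) • ψ) = s • dev φ + t • dev ψ := by
  funext p
  have h1 : devV ((s : ℂ) • φ + (t : ℂ) • ψ) p.1 p.2.1 =
      (s : ℂ) * devV φ p.1 p.2.1 + (t : ℂ) * devV ψ p.1 p.2.1 := by
    rw [devV_comb]; rfl
  simp only [dev, h1, Pi.add_apply, Pi.smul_apply, smul_eq_mul]
  split_ifs
  · rw [Complex.add_re, Complex.re_ofReal_mul, Complex.re_ofReal_mul]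
  · rw [Complex.add_im, Complex.im_ofReal_mul, Complex.im_ofReal_mul]

theorem dev_support {φ : Sp A B} (F : Set (Ix A B)) (hF : F.Countable)
    (h : ∀ c, c ∉ F → devV φ c = 0) : {p | dev φ p ≠ 0}.Countable := by
  refine (hF.prod (Set.countable_univ (α := Fin 3 × Bool))).mono ?_
  rintro ⟨c, i, e⟩ hp
  refine ⟨?_, mem_univ _⟩
  by_contra hc
  apply hp
  simp [dev, h c hc]

/-- The default maps. -/
noncomputable def rho (F1 : Finset A) (F2 : Finset B) (φ : Sp A B) : Sp A B
  | .z => φ .z
  | .y b => if b ∈ F2 then φ (.y b) else cj (φ .z)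
  | .w a b => if b ∈ F2 then (if a ∈ F1 then φ (.w a b) else cj (φ (.y b))) else φ .z

theorem rho_lin (F1 : Finset A) (F2 : Finset B) (s t : ℝ) (φ ψ : Sp A B) :
    rho F1 F2 (s • φ + t • ψ) = s • rho F1 F2 φ + t • rho F1 F2 ψ := by
  have hcs : ∀ (s : ℝ) (x : V3), cj (s • x) = s • cj x := by
    intro s x
    funext i
    simp [cj]
  funext c
  rcases c with _ | b | ⟨a, b⟩
  · rfl
  · by_cases hb : b ∈ F2
    · simp [rho, hb]
    · simp [rho, hb, cj_add, hcs]
  · by_cases hb : b ∈ F2
    · by_cases ha : a ∈ F1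
      · simp [rho, hb, ha]
      · simp [rho, hb, ha, cj_add, hcs]
    · simp [rho, hb]

theorem rho_continuous (F1 : Finset A) (F2 : Finset B) : Continuous (rho F1 F2) := by
  refine continuous_pi fun c => ?_
  have hc := cj_continuous
  rcases c with _ | b | ⟨a, b⟩
  · exact continuous_apply _
  · by_cases hb : b ∈ F2
    · simp only [rho, hb, if_true]
      exact continuous_apply _
    · simp only [rho, hb, if_false]
      fun_prop
  · by_cases hb : b ∈ F2
    · by_cases ha : a ∈ F1
      · simp only [rho, hb, ha, if_true]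
        exact continuous_apply _
      · simp only [rho, hb, ha, if_true, if_false]
        fun_prop
    · simp only [rho, hb, if_false]
      exact continuous_apply _

theorem Dk_refl (x : V3) : Dk x x := ⟨1, by simp, by rw [one_smul]⟩

theorem Dk.cj {x y : V3} (h : Dk x (cj y)) : Dk (Cplx.cj x) y := by
  obtain ⟨ζ, hζ, rfl⟩ := h
  refine ⟨(starRingEnd ℂ) ζ, by rw [RCLike.norm_conj]; exact hζ, ?_⟩
  rw [cj_smul, cj_cj]

theorem rho_gen (F1 : Finset A) (F2 : Finset B) {φ : Sp A B} (h : φ ∈ Gen A B) :
    rho F1 F2 φ ∈ Gen A B := by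
  rcases h with ⟨β, h1, h2, h3⟩ | ⟨a0, b0, h1, h2, h3, h4, h5⟩
  · left
    refine ⟨β, h1, ?_, ?_⟩
    · intro b hb
      by_cases hbF : b ∈ F2
      · simp only [rho, hbF, if_true]
        refine ⟨(h2 b hb).1, fun a => ?_⟩
        by_cases haF : a ∈ F1
        · simp only [haF, if_true]
          exact (h2 b hb).2 a
        · simp only [haF, if_false]
          exact Dk_refl _
      · simp only [rho, hbF, if_false]
        refine ⟨by rw [n2_cj]; exact h1, fun a => ?_⟩
        rw [cj_cj]
        exact Dk_refl _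
    · intro b hb
      by_cases hbF : b ∈ F2
      · simp only [rho, hbF, if_true]
        refine ⟨(h3 b hb).1, fun a => ?_⟩
        by_cases haF : a ∈ F1
        · simp only [haF, if_true]
          exact (h3 b hb).2 a
        · simp only [haF, if_false]
          exact (h3 b hb).1.cj
      · simp only [rho, hbF, if_false]
        exact ⟨Dk_refl _, fun a => Dk_refl _⟩
  · by_cases hb0 : b0 ∈ F2
    · by_cases ha0 : a0 ∈ F1
      · right
        refine ⟨a0, b0, h1, ?_, ?_, ?_, ?_⟩
        · simp only [rho, hb0, if_true]; exact h2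
        · simp only [rho, hb0, ha0, if_true]; exact h3
        · intro a ha
          by_cases haF : a ∈ F1
          · simp only [rho, hb0, haF, if_true]; exact h4 a ha
          · simp only [rho, hb0, haF, if_true, if_false]; exact Dk_refl _
        · intro b hb
          by_cases hbF : b ∈ F2
          · simp only [rho, hbF, ha0, if_true]
            refine ⟨(h5 b hb).1, (h5 b hb).2.1, fun a ha => ?_⟩
            by_cases haF : a ∈ F1
            · simp only [haF, if_true]; exact (h5 b hb).2.2 a ha
            · simp only [haF, if_false]; exact (h5 b hb).1.cj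
          · simp only [rho, hbF, if_false]
            exact ⟨Dk_refl _, trivial, fun a _ => Dk_refl _⟩
      · left
        refine ⟨some b0, ?_, ?_, ?_⟩
        · show n2 (φ .z) ≤ 1
          linarith
        · intro b hb
          have hb' : b = b0 := by simpa using hb.symm
          subst hb'
          simp only [rho, hb0, if_true]
          refine ⟨h2, fun a => ?_⟩
          by_cases haF : a ∈ F1
          · simp only [haF, if_true]
            exact h4 a (fun h => ha0 (h ▸ haF))
          · simp only [haF, if_false]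
            exact Dk_refl _
        · intro b hb
          have hb' : b ≠ b0 := fun h => hb (by rw [h])
          by_cases hbF : b ∈ F2
          · simp only [rho, hbF, if_true]
            refine ⟨(h5 b hb').1, fun a => ?_⟩
            by_cases haF : a ∈ F1
            · simp only [haF, if_true]
              exact (h5 b hb').2.2 a (fun h => ha0 (h ▸ haF))
            · simp only [haF, if_false]
              exact (h5 b hb').1.cj
          · simp only [rho, hbF, if_false]
            exact ⟨Dk_refl _, fun a => Dk_refl _⟩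
    · left
      refine ⟨none, ?_, ?_, ?_⟩
      · show n2 (φ .z) ≤ 1
        linarith
      · intro b hb; exact absurd hb (by simp)
      · intro b _
        by_cases hbF : b ∈ F2
        · have hb' : b ≠ b0 := fun h => hb0 (h ▸ hbF)
          simp only [rho, hbF, if_true]
          refine ⟨(h5 b hb').1, fun a => ?_⟩
          by_cases haF : a ∈ F1
          · simp only [haF, if_true]
            by_cases haa : a = a0
            · rw [haa, (h5 b hb').2.1]; exact Dk_refl _
            · exact (h5 b hb').2.2 a haa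
          · simp only [haF, if_false]
            exact (h5 b hb').1.cj
        · simp only [rho, hbF, if_false]
          exact ⟨Dk_refl _, fun a => Dk_refl _⟩

theorem rho_mem (F1 : Finset A) (F2 : Finset B) {φ : Sp A B} (h : φ ∈ KK A B) :
    rho F1 F2 φ ∈ KK A B := by
  refine KK_min (T := {φ | rho F1 F2 φ ∈ KK A B})
    (fun φ hφ => Gen_subset_KK (rho_gen F1 F2 hφ)) ?_ ?_ h
  · intro φ hφ ψ hψ a b ha hb hab
    simp only [mem_ofPred_eq] at hφ hψ ⊢
    rw [rho_lin]
    exact KK_convex hφ hψ ha hb hab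
  · exact KK_closed.preimage (rho_continuous F1 F2)

theorem rho_support (F1 : Finset A) (F2 : Finset B) (φ : Sp A B) :
    {p | dev (rho F1 F2 φ) p ≠ 0}.Countable := by
  refine dev_support ({Ix.z} ∪ (Ix.y '' (F2 : Set B)) ∪
    ((fun p : A × B => Ix.w p.1 p.2) '' ((F1 : Set A) ×ˢ (F2 : Set B)))) ?_ ?_
  · exact ((countable_singleton _).union (F2.countable_toSet.image _)).union
      ((F1.countable_toSet.prod F2.countable_toSet).image _)
  · rintro (_ | b | ⟨a, b⟩) hc
    · exact absurd (Or.inl (Or.inl rfl)) hc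
    · have hb : b ∉ F2 := fun h => hc (Or.inl (Or.inr ⟨b, h, rfl⟩))
      simp [devV, rho, hb]
    · by_cases hb : b ∈ F2
      · have ha : a ∉ F1 := fun h => hc (Or.inr ⟨(a, b), ⟨h, hb⟩, rfl⟩)
        simp [devV, rho, hb, ha]
      · simp [devV, rho, hb, cj_cj]

theorem rho_tendsto (φ : Sp A B) :
    Filter.Tendsto (fun F : Finset A × Finset B => rho F.1 F.2 φ) Filter.atTop (𝓝 φ) := by
  rw [tendsto_pi_nhds]
  intro c
  refine tendsto_const_nhds.congr' ?_
  rcases c with _ | b | ⟨a, b⟩
  · exact Filter.Eventually.of_forall fun F => rfl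
  · filter_upwards [Filter.eventually_ge_atTop ((∅ : Finset A), ({b} : Finset B))] with F hF
    have hb : b ∈ F.2 := hF.2 (Finset.mem_singleton_self b)
    simp [rho, hb]
  · filter_upwards [Filter.eventually_ge_atTop (({a} : Finset A), ({b} : Finset B))] with F hF
    have ha : a ∈ F.1 := hF.1 (Finset.mem_singleton_self a)
    have hb : b ∈ F.2 := hF.2 (Finset.mem_singleton_self b)
    simp [rho, ha, hb]

/-- The dense convex symmetric Sigma-subset. -/
theorem real_structure :
    ∃ S : Set (WeakDual ℂ (XX A B)),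
      (ball A B ⊆ closure S) ∧
      (∃ (Γ : Type) (h : WeakDual ℂ (XX A B) → (Γ → ℝ)),
          ContinuousOn h (ball A B) ∧ Set.InjOn h (ball A B) ∧
          S = ball A B ∩ h ⁻¹' {y : Γ → ℝ | Set.Countable {γ : Γ | y γ ≠ 0}}) ∧
      (∀ a ∈ S, ∀ b ∈ S, ∀ t : ℝ, 0 ≤ t → t ≤ 1 →
          ((t : ℂ) • a + ((1 : ℂ) - (t : ℂ)) • b) ∈ S) ∧
      (∀ a ∈ S, ((-1 : ℂ) • a) ∈ S) := by
  refine ⟨ball A B ∩ (fun f => dev (pt f)) ⁻¹' {y | Set.Countable {γ | y γ ≠ 0}}, ?_,
    ⟨Ix A B × Fin 3 × Bool, fun f => dev (pt f), ?_, ?_, rfl⟩, ?_, ?_⟩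
  · intro f hf
    have h1 : Filter.Tendsto (fun F : Finset A × Finset B =>
        ev (⟨rho F.1 F.2 (pt f), rho_mem F.1 F.2 (pt_mem hf)⟩ : KK A B)) Filter.atTop (𝓝 f) := by
      have h2 : Filter.Tendsto (fun F : Finset A × Finset B =>
          (⟨rho F.1 F.2 (pt f), rho_mem F.1 F.2 (pt_mem hf)⟩ : KK A B)) Filter.atTop
          (𝓝 ⟨pt f, pt_mem hf⟩) := by
        rw [tendsto_subtype_rng]
        exact rho_tendsto (pt f)
      have h3 := (ev_continuous (A := A) (B := B)).continuousAt.tendsto.comp h2
      rw [ev_pt hf] at h3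
      exact h3
    refine mem_closure_of_tendsto h1 (Filter.Eventually.of_forall fun F => ⟨ev_mem _, ?_⟩)
    exact rho_support F.1 F.2 (pt f)
  · exact (dev_continuous.comp pt_continuous).continuousOn
  · exact (dev_injective.comp pt_injective).injOn
  · rintro a ⟨ha, ha'⟩ b ⟨hb, hb'⟩ t ht0 ht1
    refine ⟨?_, ?_⟩
    · intro x
      have h1 : ((t : ℂ) • a + ((1 : ℂ) - (t : ℂ)) • b) x = (t : ℂ) * a x + ((1 : ℂ) - (t : ℂ)) * b x := rfl
      rw [h1]
      refine (norm_add_le _ _).trans ?_
      rw [norm_mul, norm_mul]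
      have h2 : ‖(t : ℂ)‖ = t := by rw [Complex.norm_real, Real.norm_of_nonneg ht0]
      have h3 : ‖(1 : ℂ) - (t : ℂ)‖ = 1 - t := by
        rw [← Complex.ofReal_one, ← Complex.ofReal_sub, Complex.norm_real,
          Real.norm_of_nonneg (by linarith)]
      rw [h2, h3]
      have h4 := ha x
      have h5 := hb x
      nlinarith
    · have h1 : dev (pt ((t : ℂ) • a + ((1 : ℂ) - (t : ℂ)) • b)) = t • dev (pt a) + (1 - t) • dev (pt b) := by
        rw [pt_comb, ← Complex.ofReal_one, ← Complex.ofReal_sub, dev_comb]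
      show Set.Countable {γ | dev (pt ((t : ℂ) • a + ((1 : ℂ) - (t : ℂ)) • b)) γ ≠ 0}
      rw [h1]
      refine ((show Set.Countable {γ | dev (pt a) γ ≠ 0} from ha').union
        (show Set.Countable {γ | dev (pt b) γ ≠ 0} from hb')).mono ?_
      intro γ hγ
      by_contra hcon
      rw [mem_union, not_or] at hcon
      apply hγ
      have e1 : dev (pt a) γ = 0 := by
        by_contra h; exact hcon.1 h
      have e2 : dev (pt b) γ = 0 := by
        by_contra h; exact hcon.2 h
      show t * dev (pt a) γ + (1 - t) * dev (pt b) γ = 0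
      rw [e1, e2, mul_zero, mul_zero, add_zero]
  · rintro a ⟨ha, ha'⟩
    refine ⟨?_, ?_⟩
    · intro x
      have h1 : ((-1 : ℂ) • a) x = -1 * a x := rfl
      rw [h1, norm_mul, norm_neg, norm_one, one_mul]
      exact ha x
    · have h1 : dev (pt ((-1 : ℂ) • a)) = (-1 : ℝ) • dev (pt a) := by
        have h2 := pt_comb (-1 : ℂ) (0 : ℂ) a a
        rw [zero_smul, add_zero, zero_smul, add_zero] at h2
        have h3 := dev_comb (-1 : ℝ) (0 : ℝ) (pt a) (pt a)
        rw [h2]
        rw [zero_smul, Complex.ofReal_zero, zero_smul, add_zero, add_zero, Complex.ofReal_neg,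
          Complex.ofReal_one] at h3
        exact h3
      show Set.Countable {γ | dev (pt ((-1 : ℂ) • a)) γ ≠ 0}
      rw [h1]
      refine (show Set.Countable {γ | dev (pt a) γ ≠ 0} from ha').mono ?_
      intro γ hγ h
      apply hγ
      show (-1 : ℝ) * dev (pt a) γ = 0
      rw [h, mul_zero]

/-- There is no dense absolutely convex Sigma-subset. -/
theorem no_complex_structure (hA : ¬ (univ : Set A).Countable)
    (hAB : ∀ f : B → A, ∃ a, ¬ (f ⁻¹' {a}).Countable) (b1 b2 : B) (hne : b1 ≠ b2) :
    ¬ ∃ S : Set (WeakDual ℂ (XX A B)),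
      (ball A B ⊆ closure S) ∧
      (∃ (Γ : Type) (h : WeakDual ℂ (XX A B) → (Γ → ℝ)),
          ContinuousOn h (ball A B) ∧ Set.InjOn h (ball A B) ∧
          S = ball A B ∩ h ⁻¹' {y : Γ → ℝ | Set.Countable {γ : Γ | y γ ≠ 0}}) ∧
      (∀ a ∈ S, ∀ b ∈ S, ∀ s t : ℂ, ‖s‖ + ‖t‖ ≤ 1 → (s • a + t • b) ∈ S) := by
  rintro ⟨S, hd, ⟨Γ, h, hc, hi, hS⟩, hcomb⟩
  let H : KK A B → (Γ → ℝ) := fun x => h (ev x)
  have hHc : Continuous H := by
    have h1 : ContinuousOn (fun x : KK A B => h (ev x)) univ :=
      hc.comp ev_continuous.continuousOn (fun x _ => ev_mem x)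
    exact continuousOn_univ.1 h1
  have hHi : Function.Injective H := by
    intro x y hxy
    have h1 : ev x = ev y := hi (ev_mem x) (ev_mem y) hxy
    apply Subtype.ext
    rw [← pt_ev x, ← pt_ev y, h1]
  have hSmem : ∀ x : KK A B, ev x ∈ S ↔ (Function.support (H x)).Countable := by
    intro x
    rw [hS]
    constructor
    · intro h2; exact h2.2
    · intro h2; exact ⟨ev_mem x, h2⟩
  refine no_structure H hHc hHi ?_ ?_ hA hAB b1 b2 hne
  · intro x
    rw [closure_subtype]
    have h1 : pt (ev x) ∈ closure (pt '' S) :=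
      image_closure_subset_closure_image pt_continuous (mem_image_of_mem _ (hd (ev_mem x)))
    rw [pt_ev] at h1
    refine closure_mono ?_ h1
    rintro _ ⟨f, hf, rfl⟩
    have hfb : f ∈ ball A B := by
      rw [hS] at hf; exact hf.1
    refine ⟨⟨pt f, pt_mem hfb⟩, ?_, rfl⟩
    show (Function.support (H ⟨pt f, pt_mem hfb⟩)).Countable
    rw [← hSmem, ev_pt hfb]
    exact hf
  · intro x y hx hy s t hst
    rw [← hSmem] at hx hy ⊢
    rw [← ev_comb _ _ _ _ hst]
    exact hcomb _ hx _ hy s t hst

end Pool.Agent.Helper811.Cplx
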