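import Pool.Agent.Helper811.Valdivia

set_option autoImplicit false
set_option linter.unusedSectionVars false

open Set Topology Cardinal

namespace Pool.Agent.Helper811

variable {Γ : Type} {L : Type} [LinearOrder L] [TopologicalSpace L] [OrderTopology L]
  [CompactSpace L]

/-- Restrictions along a directed union converge. -/
theorem res_pair_mem_closure (T : Set Om1) (hT : T.Nonempty) (I : Om1 → Set Γ) (hI : Monotone I)
    (x y : Γ → ℝ) :
    (res (⋃ j ∈ T, I j) x, res (⋃ j ∈ T, I j) y) ∈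
      closure {e : (Γ → ℝ) × (Γ → ℝ) | ∃ j ∈ T, e = (res (I j) x, res (I j) y)} := by
  classical
  rw [mem_closure_iff_nhds]
  intro t ht
  rw [nhds_prod_eq, Filter.mem_prod_iff] at ht
  obtain ⟨t1, ht1, t2, ht2, ht⟩ := ht
  obtain ⟨G1, ε1, hε1, hG1⟩ := mem_nhds_pi_real ht1
  obtain ⟨G2, ε2, hε2, hG2⟩ := mem_nhds_pi_real ht2
  let G : Finset Γ := (G1 ∪ G2).filter (fun γ => γ ∈ ⋃ j ∈ T, I j)
  have hG : (G : Set Γ) ⊆ ⋃ j ∈ T, I j := fun γ hγ => (Finset.mem_filter.1 hγ).2
  have hdir : DirectedOn (fun i j => I i ⊆ I j) T := by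
    intro i hi j hj
    rcases le_total i j with h | h
    · exact ⟨j, hj, hI h, subset_rfl⟩
    · exact ⟨i, hi, subset_rfl, hI h⟩
  obtain ⟨j, hj, hGj⟩ := hdir.exists_mem_subset_of_finset_subset_biUnion hT hG
  have hsub : I j ⊆ ⋃ j ∈ T, I j := subset_biUnion_of_mem (u := fun j => I j) hj
  have heq : ∀ γ ∈ G1 ∪ G2, ∀ z : Γ → ℝ, res (I j) z γ = res (⋃ j ∈ T, I j) z γ := by
    intro γ hγ z
    by_cases h : γ ∈ ⋃ j ∈ T, I j
    · have h2 : γ ∈ I j := hGj (Finset.mem_filter.2 ⟨hγ, h⟩)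
      rw [res_of_mem h, res_of_mem h2]
    · have h2 : γ ∉ I j := fun h3 => h (hsub h3)
      rw [res_of_notMem h, res_of_notMem h2]
  refine ⟨(res (I j) x, res (I j) y), ht ⟨hG1 _ ?_, hG2 _ ?_⟩, j, hj, rfl⟩
  · intro γ hγ
    show |res (I j) x γ - res (⋃ j ∈ T, I j) x γ| < ε1
    rw [heq γ (Finset.mem_union_left _ hγ)]
    simpa using hε1
  · intro γ hγ
    show |res (I j) y γ - res (⋃ j ∈ T, I j) y γ| < ε2
    rw [heq γ (Finset.mem_union_right _ hγ)]
    simpa using hε2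

/-- A one-sided linearly ordered image of a small compact space with dense Sigma-part is a
Valdivia compactum. -/
theorem exists_valdivia_embedding {V : Set (Γ → ℝ)} (hV : IsCompact V)
    (hd : V ⊆ closure (V ∩ Sg Γ)) (J : Set Γ) (hJc : #J ≤ ℵ₁)
    (hJs : ∀ x ∈ V, Function.support x ⊆ J)
    {F : (Γ → ℝ) → L} (hF : ContinuousOn F V) (hs : ∀ p, ∃ x ∈ V, F x = p)
    (hl : ∀ p : L, LU p → IsClosed (Ioi p)) (hr : ∀ p : L, RU p → IsClosed (Iio p)) :
    ∃ (Δ : Type) (h : L → (Δ → ℝ)), IsEmbedding h ∧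
      Dense (h ⁻¹' {x | {γ | x γ ≠ 0}.Countable}) := by
  classical
  set A0 : Set (Γ → ℝ) := {a | a ∈ V ∩ Sg Γ ∧ ¬ LU (F a) ∧ ¬ RU (F a)} with hA0
  set V0 : Set (Γ → ℝ) := closure A0 with hV0
  have hV0V : V0 ⊆ V := closure_minimal (fun a ha => ha.1.1) hV.isClosed
  have hV0c : IsCompact V0 := hV.of_isClosed_subset isClosed_closure hV0V
  have hF0 : ContinuousOn F V0 := hF.mono hV0V
  set E : Set ((Γ → ℝ) × (Γ → ℝ)) := {e | e.1 ∈ A0 ∧ e.2 ∈ A0 ∧ F e.1 = F e.2} with hE
  set E2 : Set ((Γ → ℝ) × (Γ → ℝ)) := {e | e.1 ∈ V0 ∧ e.2 ∈ V0 ∧ F e.1 = F e.2} with hE2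
  have hE2cl : IsClosed E2 := by
    have h1 : ContinuousOn (fun e : (Γ → ℝ) × (Γ → ℝ) => (F e.1, F e.2)) (V0 ×ˢ V0) :=
      (hF0.comp continuousOn_fst fun e he => he.1).prodMk
        (hF0.comp continuousOn_snd fun e he => he.2)
    have h2 := h1.preimage_isClosed_of_isClosed (isClosed_closure.prod isClosed_closure)
      (isClosed_diagonal (X := L))
    have h3 : E2 = (V0 ×ˢ V0) ∩ (fun e : (Γ → ℝ) × (Γ → ℝ) => (F e.1, F e.2)) ⁻¹'
        (diagonal L) := by
      ext e
      constructor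
      · rintro ⟨h1, h2, h3⟩
        exact ⟨⟨h1, h2⟩, h3⟩
      · rintro ⟨⟨h1, h2⟩, h3⟩
        exact ⟨h1, h2, h3⟩
    rw [h3]
    exact h2
  have hEE2 : closure E ⊆ E2 := closure_minimal
    (fun e he => ⟨subset_closure he.1, subset_closure he.2.1, he.2.2⟩) hE2cl
  have hE2E : E2 ⊆ closure E := by
    rintro ⟨x, y⟩ ⟨hx, hy, hxy⟩
    exact pair_mem_closure hV hd hF hl hr x y hx hy hxy
  -- `F` maps `V0` onto
  have hs0 : ∀ p, ∃ x ∈ V0, F x = p := by
    intro p
    have h1 : IsClosed (F '' V0) := (hV0c.image_of_continuousOn hF0).isClosed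
    have h2 : {q : L | ¬ LU q ∧ ¬ RU q} ⊆ F '' V0 := by
      rintro q ⟨hq1, hq2⟩
      obtain ⟨x, hx, hxq⟩ := hs q
      refine ⟨x, ?_, hxq⟩
      have h3 := mem_closure_fiber hV hd hF q hq1 hq2 x hx hxq
      refine closure_mono ?_ h3
      rintro a ⟨ha, haq⟩
      exact ⟨ha, by rw [haq]; exact hq1, by rw [haq]; exact hq2⟩
    exact closure_minimal h2 h1 (mem_closure_good hl hr p)
  -- closing off data
  obtain ⟨c, hcE, hc⟩ := exists_approx E
  let ΦE : Finset Γ → Set Γ := fun G => ⋃ d ∈ c G, Function.support d.1 ∪ Function.support d.2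
  have hΦEc : ∀ G, (ΦE G).Countable := by
    intro G
    refine (hcE G).2.biUnion fun d hd => ?_
    have h1 := (hcE G).1 hd
    exact (show (Function.support d.1).Countable from h1.1.1.2).union h1.2.1.1.2
  have hgood : ∀ I : Set Γ, (∀ G : Finset Γ, (G : Set Γ) ⊆ I → ΦE G ⊆ I) →
      ∀ x ∈ V0, ∀ y ∈ V0, F x = F y →
        res I x ∈ V0 ∧ res I y ∈ V0 ∧ F (res I x) = F (res I y) := by
    intro I hI x hx y hy hxy
    have h1 := res_mem_closure E c hc I hI (x, y) (hE2E ⟨hx, hy, hxy⟩)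
    have h2 : (⋃ G ∈ {G : Finset Γ | (G : Set Γ) ⊆ I}, c G) ⊆ E := by
      intro d hd
      obtain ⟨G, _, hdG⟩ := mem_iUnion₂.1 hd
      exact (hcE G).1 hdG
    exact hEE2 (closure_mono h2 h1)
  -- enumeration of the coordinates
  obtain ⟨j⟩ : Nonempty (J ↪ Om1) := by
    rw [← Cardinal.le_def, Om1_mk]
    exact hJc
  let s : Om1 → Set Γ := fun i => {γ | ∃ h : γ ∈ J, j ⟨γ, h⟩ = i}
  have hsc : ∀ i, (s i).Countable := by
    intro i
    refine Set.Subsingleton.countable ?_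
    rintro γ ⟨h, hγ⟩ γ' ⟨h', hγ'⟩
    have := j.injective (hγ.trans hγ'.symm)
    exact congrArg Subtype.val this
  obtain ⟨I, hIc, hI⟩ := exists_chain (Γ := Γ)
    (fun i _ N => s i ⊆ N ∧ ∀ G : Finset Γ, (G : Set Γ) ⊆ N → ΦE G ⊆ N) (by
      intro i S hS
      obtain ⟨N, hSN, hNc, hN⟩ := closing_off (le_refl ℵ₀) ΦE
        (fun F => Cardinal.le_aleph0_iff_set_countable.2 (hΦEc F)) (S ∪ s i)
        (Cardinal.le_aleph0_iff_set_countable.2 (hS.union (hsc i)))
      exact ⟨N, Cardinal.le_aleph0_iff_set_countable.1 hNc, subset_union_left.trans hSN,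
        subset_union_right.trans hSN, hN⟩)
  have hImono : Monotone I := by
    intro i k hik
    rcases hik.eq_or_lt with h | h
    · rw [h]
    · exact (subset_biUnion_of_mem (u := fun j => I j) (show i ∈ Iio k from h)).trans (hI k).1
  have hIclosed : ∀ i, ∀ G : Finset Γ, (G : Set Γ) ⊆ I i → ΦE G ⊆ I i := fun i => (hI i).2.2
  have hdir : ∀ T : Set Om1, DirectedOn (fun i j => I i ⊆ I j) T := by
    intro T i hi j hj
    rcases le_total i j with h | h
    · exact ⟨j, hj, hImono h, subset_rfl⟩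
    · exact ⟨i, hi, subset_rfl, hImono h⟩
  have hSclosed : ∀ T : Set Om1, T.Nonempty → ∀ G : Finset Γ, (G : Set Γ) ⊆ (⋃ j ∈ T, I j) →
      ΦE G ⊆ ⋃ j ∈ T, I j := by
    intro T hT G hG
    obtain ⟨i, hi, hGi⟩ := (hdir T).exists_mem_subset_of_finset_subset_biUnion hT hG
    exact (hIclosed i G hGi).trans (subset_biUnion_of_mem (u := fun j => I j) hi)
  have hJI : J ⊆ ⋃ i ∈ (univ : Set Om1), I i := by
    intro γ hγ
    exact mem_biUnion (mem_univ (j ⟨γ, hγ⟩)) ((hI _).2.1 ⟨hγ, rfl⟩)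
  -- limits
  have hlim : ∀ T : Set Om1, T.Nonempty → ∀ x ∈ V0, ∀ y ∈ V0,
      (∀ i ∈ T, F (res (I i) x) = F (res (I i) y)) →
      F (res (⋃ j ∈ T, I j) x) = F (res (⋃ j ∈ T, I j) y) := by
    intro T hT x hx y hy h
    have h1 := res_pair_mem_closure T hT I hImono x y
    have h2 : {e : (Γ → ℝ) × (Γ → ℝ) | ∃ j ∈ T, e = (res (I j) x, res (I j) y)} ⊆ E2 := by
      rintro _ ⟨i, hi, rfl⟩
      exact ⟨(hgood (I i) (hIclosed i) x hx x hx rfl).1,
        (hgood (I i) (hIclosed i) y hy y hy rfl).1, h i hi⟩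
    exact (closure_minimal h2 hE2cl h1).2.2
  -- separating families
  have hsep : ∀ i : Om1, ∃ φ : ℕ → L → ℝ, (∀ n, Continuous (φ n)) ∧
      ∀ x ∈ V, ∀ y ∈ V, Function.support x ⊆ I i → Function.support y ⊆ I i → F x ≠ F y →
        ∃ n, φ n (F x) ≠ φ n (F y) := fun i => exists_sep_family hV hF (I i) (hIc i)
  choose φ hφc hφs using hsep
  let H : (Γ → ℝ) → (Om1 × ℕ → ℝ) := fun x p =>
    φ p.1 p.2 (F (res (I p.1) x)) -
      if (Iio p.1).Nonempty then φ p.1 p.2 (F (res (⋃ j ∈ Iio p.1, I j) x)) else 0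
  have hHc : ContinuousOn H V0 := by
    refine continuousOn_pi.2 fun p => ?_
    have h1 : ContinuousOn (fun x => φ p.1 p.2 (F (res (I p.1) x))) V0 := by
      refine (hφc p.1 p.2).comp_continuousOn ?_
      exact hF0.comp (continuous_res _).continuousOn
        (fun x hx => (hgood _ (hIclosed p.1) x hx x hx rfl).1)
    refine h1.sub ?_
    by_cases hne : (Iio p.1).Nonempty
    · simp only [hne, if_true]
      refine (hφc p.1 p.2).comp_continuousOn ?_
      exact hF0.comp (continuous_res _).continuousOn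
        (fun x hx => (hgood _ (hSclosed _ hne) x hx x hx rfl).1)
    · simp only [hne, if_false]
      exact continuousOn_const
  have hHwell : ∀ x ∈ V0, ∀ y ∈ V0, F x = F y → H x = H y := by
    intro x hx y hy hxy
    funext p
    show φ p.1 p.2 (F (res (I p.1) x)) -
      (if (Iio p.1).Nonempty then φ p.1 p.2 (F (res (⋃ j ∈ Iio p.1, I j) x)) else 0) =
      φ p.1 p.2 (F (res (I p.1) y)) -
      (if (Iio p.1).Nonempty then φ p.1 p.2 (F (res (⋃ j ∈ Iio p.1, I j) y)) else 0)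
    rw [(hgood _ (hIclosed p.1) x hx y hy hxy).2.2]
    by_cases hne : (Iio p.1).Nonempty
    · rw [if_pos hne, if_pos hne, (hgood _ (hSclosed _ hne) x hx y hy hxy).2.2]
    · rw [if_neg hne, if_neg hne]
  have hHinj : ∀ x ∈ V0, ∀ y ∈ V0, H x = H y → F x = F y := by
    intro x hx y hy hxy
    have hall : ∀ i, F (res (I i) x) = F (res (I i) y) := by
      intro i
      induction i using WellFoundedLT.induction with
      | ind i ih =>
        by_contra hne
        obtain ⟨n, hn⟩ := hφs i _ (hV0V (hgood _ (hIclosed i) x hx x hx rfl).1) _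
          (hV0V (hgood _ (hIclosed i) y hy y hy rfl).1) (support_res_subset _ _)
          (support_res_subset _ _) hne
        apply hn
        have h1 : φ i n (F (res (I i) x)) -
          (if (Iio i).Nonempty then φ i n (F (res (⋃ j ∈ Iio i, I j) x)) else 0) =
          φ i n (F (res (I i) y)) -
          (if (Iio i).Nonempty then φ i n (F (res (⋃ j ∈ Iio i, I j) y)) else 0) :=
          congrFun hxy (i, n)
        by_cases hne' : (Iio i).Nonempty
        · rw [if_pos hne', if_pos hne', hlim (Iio i) hne' x hx y hy ih] at h1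
          exact sub_left_injective h1
        · rw [if_neg hne', if_neg hne'] at h1
          exact sub_left_injective h1
    obtain ⟨i0, _⟩ := Om1_bdd ∅ countable_empty
    have h2 := hlim univ ⟨i0, mem_univ _⟩ x hx y hy (fun i _ => hall i)
    rwa [res_eq_self ((hJs x (hV0V hx)).trans hJI), res_eq_self ((hJs y (hV0V hy)).trans hJI)] at h2
  choose sec hsec1 hsec2 using hs0
  let h : L → (Om1 × ℕ → ℝ) := fun p => H (sec p)
  have hcont : Continuous h := by
    rw [continuous_iff_isClosed]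
    intro C hC
    have h1 : h ⁻¹' C = F '' (V0 ∩ H ⁻¹' C) := by
      ext p
      constructor
      · intro hp
        exact ⟨sec p, ⟨hsec1 p, hp⟩, hsec2 p⟩
      · rintro ⟨x, ⟨hx, hxC⟩, rfl⟩
        show H (sec (F x)) ∈ C
        rw [hHwell _ (hsec1 _) x hx (hsec2 _)]
        exact hxC
    rw [h1]
    have h2 : IsCompact (V0 ∩ H ⁻¹' C) :=
      hV0c.of_isClosed_subset (hHc.preimage_isClosed_of_isClosed isClosed_closure hC)
        inter_subset_left
    exact (h2.image_of_continuousOn (hF0.mono inter_subset_left)).isClosed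
  have hinj : Function.Injective h := by
    intro p q hpq
    have := hHinj _ (hsec1 p) _ (hsec1 q) hpq
    rwa [hsec2, hsec2] at this
  refine ⟨Om1 × ℕ, h, (hcont.isClosedEmbedding hinj).isEmbedding, ?_⟩
  intro p
  set Q : Set L := h ⁻¹' {x | {γ | x γ ≠ 0}.Countable} with hQ
  have hmemQ : ∀ x ∈ V0, ∀ i, F (res (I i) x) ∈ Q := by
    intro x hx i
    have hr1 := (hgood _ (hIclosed i) x hx x hx rfl).1
    show {γ | H (sec (F (res (I i) x))) γ ≠ 0}.Countable
    rw [hHwell _ (hsec1 _) _ hr1 (hsec2 _)]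
    have hcnt : ((Iic i : Set Om1) ×ˢ (univ : Set ℕ)).Countable := by
      refine Countable.prod ?_ countable_univ
      rw [← Iio_insert]
      exact (Om1_Iio_countable i).insert i
    refine hcnt.mono ?_
    rintro ⟨k, n⟩ hk
    refine ⟨?_, mem_univ _⟩
    by_contra hik
    apply hk
    have hik' : i < k := not_le.1 hik
    have hne : (Iio k).Nonempty := ⟨i, hik'⟩
    have hsubI : I i ⊆ ⋃ j ∈ Iio k, I j :=
      subset_biUnion_of_mem (u := fun j => I j) (show i ∈ Iio k from hik')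
    show φ k n (F (res (I k) (res (I i) x))) -
      (if (Iio k).Nonempty then φ k n (F (res (⋃ j ∈ Iio k, I j) (res (I i) x))) else 0) = 0
    rw [if_pos hne, res_eq_self ((support_res_subset (I i) x).trans (hImono hik'.le)),
      res_eq_self ((support_res_subset (I i) x).trans hsubI), sub_self]
  -- approximate `p`
  have hx := hsec1 p
  obtain ⟨i0, _⟩ := Om1_bdd ∅ countable_empty
  have h1 := res_pair_mem_closure (univ : Set Om1) ⟨i0, mem_univ _⟩ I hImono (sec p) (sec p)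
  rw [res_eq_self ((hJs _ (hV0V hx)).trans hJI)] at h1
  have hclQ : IsClosed (V0 ∩ F ⁻¹' closure Q) :=
    hF0.preimage_isClosed_of_isClosed isClosed_closure isClosed_closure
  have h2 : {e : (Γ → ℝ) × (Γ → ℝ) | ∃ j ∈ (univ : Set Om1), e = (res (I j) (sec p), res (I j) (sec p))} ⊆
      Prod.fst ⁻¹' (V0 ∩ F ⁻¹' closure Q) := by
    rintro _ ⟨i, _, rfl⟩
    exact ⟨(hgood _ (hIclosed i) _ hx _ hx rfl).1, subset_closure (hmemQ _ hx i)⟩
  have h3 := closure_minimal h2 (hclQ.preimage continuous_fst) h1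
  have h4 : F (sec p) ∈ closure Q := h3.2
  rwa [hsec2] at h4

end Pool.Agent.Helper811
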