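import Pool.Agent.Helper811.Sigma

set_option autoImplicit false
set_option linter.unusedSectionVars false

open Set Topology Cardinal

namespace Pool.Agent.Helper811

variable {Γ : Type} {K : Type} [LinearOrder K] [TopologicalSpace K] [OrderTopology K]

theorem isCompact_pre {L : Set (Γ → ℝ)} (hL : IsCompact L) {f : (Γ → ℝ) → K}
    (hf : ContinuousOn f L) {C : Set K} (hC : IsClosed C) : IsCompact (L ∩ f ⁻¹' C) :=
  hL.of_isClosed_subset (hf.preimage_isClosed_of_isClosed hL.isClosed hC) inter_subset_left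

/-- Points of the Sigma-part are dense over open sets. -/
theorem exists_sigma_mem {L : Set (Γ → ℝ)} (hd : L ⊆ closure (L ∩ Sg Γ))
    {f : (Γ → ℝ) → K} (hf : ContinuousOn f L) {O : Set K} (hO : IsOpen O) {l : Γ → ℝ}
    (hl : l ∈ L) (hlO : f l ∈ O) : l ∈ closure (L ∩ Sg Γ ∩ f ⁻¹' O) := by
  rw [mem_closure_iff_nhds]
  intro t ht
  have h1 : f ⁻¹' O ∈ 𝓝[L] l := (hf l hl) (hO.mem_nhds hlO)
  rw [mem_nhdsWithin] at h1
  obtain ⟨u, hu, hlu, hsub⟩ := h1
  obtain ⟨a, ha1, ha2⟩ := mem_closure_iff_nhds.1 (hd hl) (t ∩ u)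
    (Filter.inter_mem ht (hu.mem_nhds hlu))
  exact ⟨a, ha1.1, ha2, hsub ⟨ha1.2, ha2.1⟩⟩

/-- The two one-sided closures at a point which is not the limit of a countable set from the left. -/
theorem sides_disjoint {L : Set (Γ → ℝ)} (hL : IsCompact L)
    {f : (Γ → ℝ) → K} (hf : ContinuousOn f L) (x : K)
    (H : ∀ Y : Set K, Y ⊆ Iio x → Y.Countable → ∃ y < x, ∀ y' ∈ Y, y' < y) (l : Γ → ℝ)
    (hl : l ∈ closure {a | a ∈ L ∩ Sg Γ ∧ f a < x})
    (hl' : l ∈ closure {a | a ∈ L ∩ Sg Γ ∧ x ≤ f a}) : False := by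
  obtain ⟨a, haL, D, hD, D', hD', hDc, _, haD, haD'⟩ :=
    exists_common hL {a | a ∈ L ∩ Sg Γ ∧ f a < x} {a | a ∈ L ∩ Sg Γ ∧ x ≤ f a}
      (fun a ha => ha.1) (fun a ha => ha.1) l hl hl'
  obtain ⟨y, hyx, hy⟩ := H (f '' D) (by
    rintro _ ⟨d, hd, rfl⟩
    exact (hD hd).2) (hDc.image f)
  have h1 : a ∈ L ∩ f ⁻¹' (Iic y) := by
    refine closure_minimal ?_ (isCompact_pre hL hf isClosed_Iic).isClosed haD
    intro d hd
    exact ⟨(hD hd).1.1, (hy _ (mem_image_of_mem f hd)).le⟩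
  have h2 : a ∈ L ∩ f ⁻¹' (Ici x) := by
    refine closure_minimal ?_ (isCompact_pre hL hf isClosed_Ici).isClosed haD'
    intro d hd
    exact ⟨(hD' hd).1.1, (hD' hd).2⟩
  exact absurd (h1.2.trans_lt hyx) (not_lt.2 h2.2)

theorem closure_union_sides {L : Set (Γ → ℝ)} (hd : L ⊆ closure (L ∩ Sg Γ))
    (f : (Γ → ℝ) → K) (x : K) (l : Γ → ℝ) (hl : l ∈ L) :
    l ∈ closure {a | a ∈ L ∩ Sg Γ ∧ f a < x} ∨ l ∈ closure {a | a ∈ L ∩ Sg Γ ∧ x ≤ f a} := by
  have h1 : L ∩ Sg Γ ⊆ {a | a ∈ L ∩ Sg Γ ∧ f a < x} ∪ {a | a ∈ L ∩ Sg Γ ∧ x ≤ f a} := by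
    intro a ha
    rcases lt_or_ge (f a) x with h | h
    · exact Or.inl ⟨ha, h⟩
    · exact Or.inr ⟨ha, h⟩
  have h2 := closure_mono h1 (hd hl)
  rw [closure_union] at h2
  exact h2

/-- Every point of a linearly ordered continuous image of a compact space with dense Sigma-part
has left cofinality at most aleph one. -/
theorem exists_cofinal {L : Set (Γ → ℝ)} (hL : IsCompact L) (hd : L ⊆ closure (L ∩ Sg Γ))
    {f : (Γ → ℝ) → K} (hf : ContinuousOn f L) (hs : ∀ k, ∃ x ∈ L, f x = k) (x : K) :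
    ∃ Y : Set K, Y ⊆ Iio x ∧ #Y ≤ ℵ₁ ∧ ∀ y < x, ∃ y' ∈ Y, y ≤ y' := by
  classical
  by_contra hcon
  have H : ∀ Y : Set K, Y ⊆ Iio x → #Y ≤ ℵ₁ → ∃ y < x, ∀ y' ∈ Y, y' < y := by
    intro Y hY hYc
    by_contra h
    refine hcon ⟨Y, hY, hYc, fun y hy => ?_⟩
    by_contra h2
    refine h ⟨y, hy, fun y' hy' => ?_⟩
    by_contra h3
    exact h2 ⟨y', hy', not_lt.1 h3⟩
  have Hc : ∀ Y : Set K, Y ⊆ Iio x → Y.Countable → ∃ y < x, ∀ y' ∈ Y, y' < y := by
    intro Y hY hYc
    refine H Y hY ?_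
    rw [← Cardinal.le_aleph0_iff_set_countable] at hYc
    exact hYc.trans Cardinal.aleph0_lt_aleph_one.le
  obtain ⟨Ψ, hΨc, hΨ⟩ := exists_good hL hd
  -- the clopen set over the left side
  set U := closure {a | a ∈ L ∩ Sg Γ ∧ f a < x} with hU
  set U' := closure {a | a ∈ L ∩ Sg Γ ∧ x ≤ f a} with hU'
  have hUL : U ⊆ L := closure_minimal (fun a ha => ha.1.1) hL.isClosed
  have hU'L : U' ⊆ L := closure_minimal (fun a ha => ha.1.1) hL.isClosed
  have hUc : IsCompact U := hL.of_isClosed_subset isClosed_closure hUL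
  have hU'c : IsCompact U' := hL.of_isClosed_subset isClosed_closure hU'L
  obtain ⟨FU, _, hFU⟩ := exists_finset_sep hUc hU'c univ (by
    intro a ha b hb
    by_contra hne
    have hab : a = b := by
      funext γ
      by_contra h
      exact hne ⟨γ, mem_univ γ, h⟩
    rw [← hab] at hb
    exact sides_disjoint hL hf x Hc a ha hb)
  -- one step of the construction
  obtain ⟨I, hIc, hI⟩ := exists_chain (Γ := Γ) (fun _ S N =>
    (∀ y ∈ L, res N y ∈ L) ∧ (FU : Set Γ) ⊆ N ∧ ∃ g' < x,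
      ∀ u ∈ L, u ∈ Sg Γ → ∀ v ∈ U, Function.support v ⊆ S → (∀ γ ∈ N, v γ = u γ) → f u < g') (by
    intro _ S hS
    -- the compact set of points supported in `S`
    have hT : IsCompact (U ∩ {v | Function.support v ⊆ S}) := by
      refine hUc.inter_right ?_
      have : {v : Γ → ℝ | Function.support v ⊆ S} = ⋂ γ ∈ Sᶜ, {v : Γ → ℝ | v γ = 0} := by
        ext v
        simp only [mem_ofPred_eq, mem_iInter]
        constructor
        · intro h γ hγ
          by_contra hne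
          exact hγ (h hne)
        · intro h γ hγ
          by_contra hne
          exact hγ (h γ hne)
      rw [this]
      exact isClosed_biInter fun γ _ => isClosed_eq (continuous_apply γ) continuous_const
    have hTx : ∀ v ∈ U ∩ {v | Function.support v ⊆ S}, f v < x := by
      intro v hv
      by_contra hvx
      refine sides_disjoint hL hf x Hc v hv.1 (subset_closure ⟨⟨hUL hv.1, ?_⟩, not_lt.1 hvx⟩)
      exact hS.mono hv.2
    obtain ⟨g, hgx, hg⟩ : ∃ g < x, ∀ v ∈ U ∩ {v | Function.support v ⊆ S}, f v ≤ g := by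
      rcases (U ∩ {v | Function.support v ⊆ S}).eq_empty_or_nonempty with h0 | h0
      · obtain ⟨y, hy, _⟩ := H ∅ (empty_subset _) (by simp)
        refine ⟨y, hy, fun v hv => ?_⟩
        rw [h0] at hv
        exact absurd hv (notMem_empty v)
      · obtain ⟨v, hv, hmax⟩ := hT.exists_isMaxOn h0 (hf.mono (inter_subset_left.trans hUL))
        exact ⟨f v, hTx v hv, fun w hw => hmax hw⟩
    obtain ⟨g', hg'x, hgg'⟩ := Hc {g} (by simpa using hgx) (countable_singleton g)
    have hgg'' : g < g' := hgg' g (mem_singleton g)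
    obtain ⟨FS, _, hFS⟩ := exists_finset_sep (isCompact_pre hL hf (isClosed_Iic (a := g)))
      (isCompact_pre hL hf (isClosed_Ici (a := g'))) univ (by
        intro a ha b hb
        by_contra hne
        have hab : a = b := by
          funext γ
          by_contra h
          exact hne ⟨γ, mem_univ γ, h⟩
        rw [← hab] at hb
        exact absurd (ha.2.trans_lt hgg'') (not_lt.2 hb.2))
    obtain ⟨N, hSN, hNc, hN⟩ := closing_off (le_refl ℵ₀) Ψ
      (fun F => Cardinal.le_aleph0_iff_set_countable.2 (hΨc F)) (S ∪ (FU : Set Γ) ∪ (FS : Set Γ)) (by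
        rw [Cardinal.le_aleph0_iff_set_countable]
        exact (hS.union FU.countable_toSet).union FS.countable_toSet)
    refine ⟨N, Cardinal.le_aleph0_iff_set_countable.1 hNc,
      (subset_union_left.trans subset_union_left).trans hSN, hΨ N hN,
      (subset_union_right.trans subset_union_left).trans hSN, g', hg'x, ?_⟩
    intro u hu _ v hv hvS hvu
    have h1 : f v ≤ g := hg v ⟨hv, hvS⟩
    by_contra h2
    obtain ⟨γ, hγ, hne⟩ := hFS v ⟨hUL hv, h1⟩ u ⟨hu, not_lt.1 h2⟩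
    exact hne (hvu γ (hSN (Or.inr hγ))))
  have hI2 : ∀ i, ∃ g' < x, ∀ u ∈ L, u ∈ Sg Γ → ∀ v ∈ U,
      Function.support v ⊆ (⋃ j ∈ Iio i, I j) → (∀ γ ∈ I i, v γ = u γ) → f u < g' :=
    fun i => (hI i).2.2.2
  choose g' hg'x hg' using hI2
  obtain ⟨c, hcx, hc⟩ := H (range g') (by
    rintro _ ⟨i, rfl⟩
    exact hg'x i) (Cardinal.mk_range_le.trans Om1_mk.le)
  obtain ⟨c2, hc2x, hc2⟩ := Hc {c} (by simpa using hcx) (countable_singleton c)
  obtain ⟨l, hl, hlc⟩ := hs c2
  have hmem : l ∈ closure (L ∩ Sg Γ ∩ f ⁻¹' (Ioo c x)) := by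
    refine exists_sigma_mem hd hf isOpen_Ioo hl ?_
    rw [hlc]
    exact ⟨hc2 c (mem_singleton c), hc2x⟩
  obtain ⟨a, ha⟩ : (L ∩ Sg Γ ∩ f ⁻¹' (Ioo c x)).Nonempty := by
    rw [← closure_nonempty_iff]
    exact ⟨l, hmem⟩
  -- choose the stage
  have hst : ∀ γ : Γ, ∃ i, (∃ j, γ ∈ I j) → γ ∈ I i := by
    intro γ
    by_cases h : ∃ j, γ ∈ I j
    · obtain ⟨j, hj⟩ := h
      exact ⟨j, fun _ => hj⟩
    · obtain ⟨i, _⟩ := Om1_bdd ∅ countable_empty
      exact ⟨i, fun h' => absurd h' h⟩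
  choose st hst using hst
  obtain ⟨i, hi⟩ := Om1_bdd (st '' Function.support a) (Set.Countable.image ha.1.2 st)
  have hresL : res (I i) a ∈ L := (hI i).2.1 a ha.1.1
  have hsupp : Function.support (res (I i) a) ⊆ ⋃ j ∈ Iio i, I j := by
    intro γ hγ
    have h1 : γ ∈ I i := support_res_subset _ _ hγ
    have h2 : γ ∈ Function.support a := by
      intro h0
      apply hγ
      rw [res_of_mem h1, h0]
    exact mem_biUnion (show st γ ∈ Iio i from hi _ (mem_image_of_mem st h2)) (hst γ ⟨i, h1⟩)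
  have haU : a ∈ U := subset_closure ⟨ha.1, ha.2.2⟩
  have hresU : res (I i) a ∈ U := by
    rcases closure_union_sides hd f x _ hresL with h | h
    · exact h
    · obtain ⟨γ, hγ, hne⟩ := hFU a haU _ h
      exact absurd (res_of_mem ((hI i).2.2.1 hγ)).symm hne
  have h3 := hg' i a ha.1.1 ha.1.2 _ hresU hsupp (fun γ hγ => res_of_mem hγ)
  exact lt_asymm ha.2.1 (h3.trans (hc _ (mem_range_self i)))

/-- The dual statement: right cofinality at most aleph one. -/
theorem exists_coinitial {L : Set (Γ → ℝ)} (hL : IsCompact L) (hd : L ⊆ closure (L ∩ Sg Γ))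
    {f : (Γ → ℝ) → K} (hf : ContinuousOn f L) (hs : ∀ k, ∃ x ∈ L, f x = k) (x : K) :
    ∃ Y : Set K, Y ⊆ Ioi x ∧ #Y ≤ ℵ₁ ∧ ∀ y, x < y → ∃ y' ∈ Y, y' ≤ y := by
  obtain ⟨Y, hY, hYc, h⟩ := exists_cofinal (K := Kᵒᵈ) hL hd (f := fun v => OrderDual.toDual (f v))
    (continuous_toDual.comp_continuousOn hf)
    (fun k => by
      obtain ⟨v, hv, hvk⟩ := hs (OrderDual.ofDual k)
      exact ⟨v, hv, congrArg OrderDual.toDual hvk⟩) (OrderDual.toDual x)
  refine ⟨OrderDual.toDual ⁻¹' Y, ?_, ?_, ?_⟩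
  · intro y hy
    exact hY hy
  · have h1 : OrderDual.toDual ⁻¹' Y = OrderDual.ofDual '' Y := by
      ext y
      constructor
      · intro hy
        exact ⟨OrderDual.toDual y, hy, rfl⟩
      · rintro ⟨z, hz, rfl⟩
        exact hz
    rw [h1]
    exact Cardinal.mk_image_le.trans hYc
  · intro y hy
    obtain ⟨y', hy', hle⟩ := h (OrderDual.toDual y) hy
    exact ⟨OrderDual.ofDual y', hy', hle⟩

theorem exists_isLUB_of_compact [CompactSpace K] (S : Set K) (hS : S.Nonempty) :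
    ∃ z, IsLUB S z := by
  obtain ⟨z, _, hz⟩ := (isClosed_closure (s := S)).isCompact.exists_isLUB hS.closure
  refine ⟨z, ?_⟩
  unfold IsLUB at hz ⊢
  rwa [upperBounds_closure] at hz

/-- Weight reduction: the map factors through the restriction to at most aleph one coordinates. -/
theorem exists_small_coordinates [CompactSpace K] {L : Set (Γ → ℝ)} (hL : IsCompact L)
    (hd : L ⊆ closure (L ∩ Sg Γ))
    {f : (Γ → ℝ) → K} (hf : ContinuousOn f L) (hs : ∀ k, ∃ x ∈ L, f x = k) :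
    ∃ J : Set Γ, #J ≤ ℵ₁ ∧ ∀ x ∈ L, res J x ∈ L ∧ f (res J x) = f x := by
  classical
  have h01 : ℵ₀ ≤ ℵ₁ := Cardinal.aleph0_lt_aleph_one.le
  obtain ⟨Ψ, hΨc, hΨ⟩ := exists_good hL hd
  choose Ym hYm hYmc hYmcof using exists_cofinal hL hd hf hs
  choose Yp hYp hYpc hYpcof using exists_coinitial hL hd hf hs
  -- separating finite sets
  have hsep : ∀ k k' : K, ∃ F : Finset Γ, k < k' → ∀ u ∈ L ∩ f ⁻¹' Iic k, ∀ v ∈ L ∩ f ⁻¹' Ici k',
      ∃ γ ∈ F, u γ ≠ v γ := by
    intro k k'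
    by_cases hkk : k < k'
    · obtain ⟨F, _, hF⟩ := exists_finset_sep (isCompact_pre hL hf (isClosed_Iic (a := k)))
        (isCompact_pre hL hf (isClosed_Ici (a := k'))) univ (by
          intro a ha b hb
          by_contra hne
          have hab : a = b := by
            funext γ
            by_contra h
            exact hne ⟨γ, mem_univ γ, h⟩
          rw [← hab] at hb
          exact absurd (ha.2.trans_lt hkk) (not_lt.2 hb.2))
      exact ⟨F, fun _ => hF⟩
    · exact ⟨∅, fun h => absurd h hkk⟩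
  choose Fs hFs using hsep
  -- suprema attached to boxes
  have hlub : ∀ W : Set (Γ → ℝ), ∃ z : Set K, z.Subsingleton ∧
      ((∃ k : K, True) → ∃ k ∈ z, IsLUB {k | ∀ l ∈ L, f l < k → l ∈ W} k) := by
    intro W
    by_cases hK : ∃ k : K, True
    · obtain ⟨k0, _⟩ := hK
      have hne : ({k | ∀ l ∈ L, f l < k → l ∈ W} : Set K).Nonempty := by
        obtain ⟨b, _, hb⟩ := (isCompact_univ (X := K)).exists_isLeast ⟨k0, mem_univ _⟩
        exact ⟨b, fun l _ h => absurd h (not_lt.2 (hb (mem_univ _)))⟩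
      obtain ⟨z, hz⟩ := exists_isLUB_of_compact _ hne
      exact ⟨{z}, subsingleton_singleton, fun _ => ⟨z, rfl, hz⟩⟩
    · exact ⟨∅, subsingleton_empty, fun h => absurd h hK⟩
  choose zs hzs1 hzs2 using hlub
  -- the closing off
  let Φ : Finset (Γ ⊕ K) → Set (Γ ⊕ K) := fun F =>
    (Sum.inl '' Ψ F.toLeft) ∪ (⋃ W ∈ boxes F.toLeft, Sum.inr '' zs W) ∪
      (⋃ k ∈ (F.toRight : Set K), Sum.inr '' (Ym k ∪ Yp k)) ∪
      (⋃ k ∈ (F.toRight : Set K), ⋃ k' ∈ (F.toRight : Set K), Sum.inl '' (Fs k k' : Set Γ))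
  have hfin : ∀ G : Finset K, #(G : Set K) ≤ ℵ₁ := fun G =>
    (Cardinal.le_aleph0_iff_set_countable.2 G.countable_toSet).trans h01
  have hΦ : ∀ F, #(Φ F) ≤ ℵ₁ := by
    intro F
    refine mk_union_le' h01 _ _ (mk_union_le' h01 _ _ (mk_union_le' h01 _ _ ?_ ?_) ?_) ?_
    · exact Cardinal.mk_image_le.trans
        ((Cardinal.le_aleph0_iff_set_countable.2 (hΨc _)).trans h01)
    · have : (⋃ W ∈ boxes F.toLeft, (Sum.inr '' zs W : Set (Γ ⊕ K))).Countable :=
        (boxes_countable _).biUnion fun W _ => ((hzs1 W).finite.countable).image _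
      exact (Cardinal.le_aleph0_iff_set_countable.2 this).trans h01
    · exact mk_biUnion_le' h01 _ (hfin _) _ fun k _ =>
        Cardinal.mk_image_le.trans (mk_union_le' h01 _ _ (hYmc k) (hYpc k))
    · refine mk_biUnion_le' h01 _ (hfin _) _ fun k _ => mk_biUnion_le' h01 _ (hfin _) _ fun k' _ => ?_
      exact Cardinal.mk_image_le.trans
        ((Cardinal.le_aleph0_iff_set_countable.2 (Fs k k').countable_toSet).trans h01)
  obtain ⟨I, _, hIc, hI⟩ := closing_off h01 Φ hΦ ∅ (by simp)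
  let J : Set Γ := Sum.inl ⁻¹' I
  let Z : Set K := Sum.inr ⁻¹' I
  have hJc : #J ≤ ℵ₁ := by
    refine le_trans ?_ hIc
    exact Cardinal.mk_preimage_of_injective Sum.inl I Sum.inl_injective
  have hJfin : ∀ (F : Finset Γ) (G : Finset K), (F : Set Γ) ⊆ J → (G : Set K) ⊆ Z →
      Φ (F.disjSum G) ⊆ I := by
    intro F G hF hG
    refine hI _ ?_
    intro x hx
    rcases x with γ | k
    · exact hF (by simpa using hx)
    · exact hG (by simpa using hx)
  have hJgood : ∀ x ∈ L, res J x ∈ L := by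
    refine hΨ J ?_
    intro F hF γ hγ
    refine hJfin F ∅ hF (by simp) ?_
    refine Or.inl (Or.inl (Or.inl ?_))
    rw [Finset.toLeft_disjSum]
    exact mem_image_of_mem _ hγ
  have hZz : ∀ F : Finset Γ, (F : Set Γ) ⊆ J → ∀ W ∈ boxes F, zs W ⊆ Z := by
    intro F hF W hW z hz
    refine hJfin F ∅ hF (by simp) ?_
    refine Or.inl (Or.inl (Or.inr ?_))
    rw [Finset.toLeft_disjSum]
    exact mem_biUnion hW (mem_image_of_mem _ hz)
  have hZY : ∀ k ∈ Z, Ym k ∪ Yp k ⊆ Z := by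
    intro k hk z hz
    refine hJfin ∅ {k} (by simp) (by simpa using hk) ?_
    refine Or.inl (Or.inr ?_)
    rw [Finset.toRight_disjSum]
    exact mem_biUnion (show k ∈ (({k} : Finset K) : Set K) by simp) (mem_image_of_mem _ hz)
  have hJF : ∀ k ∈ Z, ∀ k' ∈ Z, (Fs k k' : Set Γ) ⊆ J := by
    intro k hk k' hk' γ hγ
    refine hJfin ∅ {k, k'} (by simp) ?_ ?_
    · intro z hz
      have : z = k ∨ z = k' := by simpa using hz
      rcases this with rfl | rfl
      · exact hk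
      · exact hk'
    · refine Or.inr ?_
      rw [Finset.toRight_disjSum]
      exact mem_biUnion (show k ∈ (({k, k'} : Finset K) : Set K) by simp)
        (mem_biUnion (show k' ∈ (({k, k'} : Finset K) : Set K) by simp) (mem_image_of_mem _ hγ))
  have hcof : ∀ z ∈ Z, ∀ y < z, ∃ y' ∈ Z, y ≤ y' ∧ y' < z := by
    intro z hz y hy
    obtain ⟨y', hy', hle⟩ := hYmcof z y hy
    exact ⟨y', hZY z hz (Or.inl hy'), hle, hYm z hy'⟩
  have hcoi : ∀ z ∈ Z, ∀ y, z < y → ∃ y' ∈ Z, y' ≤ y ∧ z < y' := by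
    intro z hz y hy
    obtain ⟨y', hy', hle⟩ := hYpcof z y hy
    exact ⟨y', hZY z hz (Or.inr hy'), hle, hYp z hy'⟩
  -- agreement on `J` forces comparable values with respect to points of `Z`
  have hfact : ∀ z ∈ Z, ∀ z' ∈ Z, z < z' → ∀ u ∈ L, ∀ v ∈ L, (∀ γ ∈ J, u γ = v γ) →
      f u ≤ z → f v < z' := by
    intro z hz z' hz' hzz u hu v hv huv huz
    by_contra hcon
    obtain ⟨γ, hγ, hne⟩ := hFs z z' hzz u ⟨hu, huz⟩ v ⟨hv, not_lt.1 hcon⟩
    exact hne (huv γ (hJF z hz z' hz' hγ))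
  refine ⟨J, hJc, fun x hx => ⟨hJgood x hx, ?_⟩⟩
  by_contra hne
  -- the pair of distinct values
  have key1 : ∀ u ∈ L, ∀ v ∈ L, (∀ γ ∈ J, u γ = v γ) → f u < f v → False := by
    intro u hu v hv huv hlt
    have hvu : ∀ γ ∈ J, v γ = u γ := fun γ hγ => (huv γ hγ).symm
    -- no point of `Z` between
    have hno : ∀ z ∈ Z, f u ≤ z → z ≤ f v → False := by
      intro z hz h1 h2
      rcases h2.eq_or_lt with h3 | h3
      · obtain ⟨y', hy', hle, hlt'⟩ := hcof z hz (f u) (by rw [h3]; exact hlt)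
        have := hfact y' hy' z hz hlt' u hu v hv huv hle
        rw [h3] at this
        exact lt_irrefl _ this
      · obtain ⟨y', hy', hle, hlt'⟩ := hcoi z hz (f v) h3
        have := hfact z hz y' hy' hlt' u hu v hv huv h1
        exact absurd this (not_lt.2 hle)
    -- the two closed sets
    have hresJ : ContinuousOn (fun l => f (res J l)) L :=
      hf.comp (continuous_res J).continuousOn hJgood
    have hC0 : IsCompact (L ∩ (fun l => f (res J l)) ⁻¹' Iic (f u)) :=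
      isCompact_pre hL hresJ isClosed_Iic
    have hC1 : IsCompact (L ∩ (fun l => f (res J l)) ⁻¹' Ici (f v)) :=
      isCompact_pre hL hresJ isClosed_Ici
    obtain ⟨F, hFJ, W, hW, hCW, hDW⟩ := exists_box_sep hC0 hC1 J (by
      intro a ha b hb
      by_contra hab
      have hres : res J a = res J b := by
        funext γ
        by_cases hγ : γ ∈ J
        · rw [res_of_mem hγ, res_of_mem hγ]
          by_contra h
          exact hab ⟨γ, hγ, h⟩
        · rw [res_of_notMem hγ, res_of_notMem hγ]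
      have h1 : f (res J a) ≤ f u := ha.2
      have h2 : f v ≤ f (res J b) := hb.2
      rw [hres] at h1
      exact absurd (h2.trans h1) (not_le.2 hlt))
    obtain ⟨z, hzz, hz⟩ := hzs2 W ⟨f u, trivial⟩
    have hzZ : z ∈ Z := hZz F hFJ W hW hzz
    have hagree : ∀ l, ∀ γ ∈ J, l γ = res J l γ := fun l γ hγ => (res_of_mem hγ).symm
    have hagree' : ∀ l, ∀ γ ∈ J, res J l γ = l γ := fun l γ hγ => res_of_mem hγ
    -- lower bound
    have hlow : f u ≤ z := by
      by_contra hzu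
      have hzu : z < f u := not_le.1 hzu
      obtain ⟨z', hz', hle, hlt'⟩ := hcoi z hzZ (f u) hzu
      by_cases hbet : ∃ t, z < t ∧ t < z'
      · obtain ⟨t, ht1, ht2⟩ := hbet
        obtain ⟨z2, hz2, hle2, hlt2⟩ := hcoi z hzZ t ht1
        have hmem : z2 ∈ {k | ∀ l ∈ L, f l < k → l ∈ W} := by
          intro l hl hlz
          refine hCW ⟨hl, ?_⟩
          exact ((hfact z2 hz2 z' hz' (hle2.trans_lt ht2) l hl _ (hJgood l hl) (hagree l)
            hlz.le).le).trans hle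
        exact absurd (hz.1 hmem) (not_le.2 hlt2)
      · have hmem : z' ∈ {k | ∀ l ∈ L, f l < k → l ∈ W} := by
          intro l hl hlz
          have hlz' : f l ≤ z := by
            by_contra h
            exact hbet ⟨f l, not_le.1 h, hlz⟩
          refine hCW ⟨hl, ?_⟩
          exact ((hfact z hzZ z' hz' hlt' l hl _ (hJgood l hl) (hagree l) hlz').le).trans hle
        exact absurd (hz.1 hmem) (not_le.2 hlt')
    -- upper bound
    have hupp : z ≤ f v := by
      by_contra hzv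
      have hzv : f v < z := not_le.1 hzv
      obtain ⟨z', hz', hle, hlt'⟩ := hcof z hzZ (f v) hzv
      obtain ⟨s, hsS, hzs⟩ := (lt_isLUB_iff hz).1 hlt'
      rcases hle.eq_or_lt with h1 | h1
      · exact hno z' hz' (by rw [← h1]; exact hlt.le) h1.ge
      · obtain ⟨z2, hz2, hle2, hlt2⟩ := hcof z' hz' (f v) h1
        obtain ⟨l, hl, hlz⟩ := hs z'
        have hlW : l ∈ W := hsS l hl (by rw [hlz]; exact hzs)
        refine Set.disjoint_left.1 hDW ?_ hlW
        refine ⟨hl, ?_⟩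
        show f v ≤ f (res J l)
        by_contra hcon
        have h3 : f (res J l) ≤ z2 := (not_le.1 hcon).le.trans hle2
        have h4 := hfact z2 hz2 z' hz' hlt2 _ (hJgood l hl) l hl (hagree' l) h3
        rw [hlz] at h4
        exact lt_irrefl _ h4
    exact hno z hzZ hlow hupp
  rcases lt_or_gt_of_ne hne with h | h
  · exact key1 _ (hJgood x hx) x hx (fun γ hγ => res_of_mem hγ) h
  · exact key1 x hx _ (hJgood x hx) (fun γ hγ => (res_of_mem hγ).symm) h

end Pool.Agent.Helper811
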