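import Mathlib

set_option autoImplicit false

open Set Topology

namespace Pool.Agent.Helper811.Pli

/-! ### The compact set and the Banach space -/

/-- A cube. -/
abbrev Q (N : Type) : Type := N → Set.Icc (-1 : ℝ) 1

/-- Coordinate functions on the cube. -/
def Xc {N : Type} (c : N) : C(Q N, ℝ) :=
  ⟨fun q => (q c : ℝ), continuous_subtype_val.comp (continuous_apply c)⟩

/-- Coordinates of the dual ball. -/
abbrev J (N A : Type) : Type := N ⊕ (A × C(Q N, ℝ))

variable {N A : Type}

/-- The dual ball as a subset of a product of lines. -/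
def KK (mem : A → Set N) : Set (J N A → ℝ) :=
  {m | (∀ c, |m (Sum.inl c)| ≤ 1) ∧ (∀ b g, |m (Sum.inr (b, g))| ≤ ‖g‖) ∧
    (∀ b g h, m (Sum.inr (b, g + h)) = m (Sum.inr (b, g)) + m (Sum.inr (b, h))) ∧
    (∀ b (s : ℝ) g, m (Sum.inr (b, s • g)) = s * m (Sum.inr (b, g))) ∧
    ∀ b c, c ∈ mem b → m (Sum.inr (b, Xc c)) = m (Sum.inl c)}

variable (mem : A → Set N)

theorem KK_closed : IsClosed (KK mem) := by
  have h1 : KK mem = (⋂ c, {m | |m (Sum.inl c)| ≤ 1}) ∩
      ((⋂ b, ⋂ g, {m | |m (Sum.inr (b, g))| ≤ ‖g‖}) ∩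
      ((⋂ b, ⋂ g, ⋂ h, {m | m (Sum.inr (b, g + h)) = m (Sum.inr (b, g)) + m (Sum.inr (b, h))}) ∩
      ((⋂ b, ⋂ s : ℝ, ⋂ g, {m | m (Sum.inr (b, s • g)) = s * m (Sum.inr (b, g))}) ∩
      (⋂ b, ⋂ c, ⋂ _ : c ∈ mem b, {m | m (Sum.inr (b, Xc c)) = m (Sum.inl c)})))) := by
    ext m
    simp only [KK, mem_ofPred_eq, mem_inter_iff, mem_iInter]
  rw [h1]
  refine IsClosed.inter (isClosed_iInter fun c => isClosed_le (by fun_prop) (by fun_prop)) ?_
  refine IsClosed.inter (isClosed_iInter fun b => isClosed_iInter fun g =>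
    isClosed_le (by fun_prop) (by fun_prop)) ?_
  refine IsClosed.inter (isClosed_iInter fun b => isClosed_iInter fun g => isClosed_iInter fun h =>
    isClosed_eq (by fun_prop) (by fun_prop)) ?_
  refine IsClosed.inter (isClosed_iInter fun b => isClosed_iInter fun s => isClosed_iInter fun g =>
    isClosed_eq (by fun_prop) (by fun_prop)) ?_
  exact isClosed_iInter fun b => isClosed_iInter fun c => isClosed_iInter fun _ =>
    isClosed_eq (by fun_prop) (by fun_prop)

theorem KK_compact : IsCompact (KK mem) := by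
  let R : J N A → ℝ := Sum.elim (fun _ => 1) (fun p => ‖p.2‖)
  have h1 : IsCompact (Set.pi Set.univ fun j : J N A => Set.Icc (-R j) (R j)) :=
    isCompact_univ_pi fun j => isCompact_Icc
  refine h1.of_isClosed_subset (KK_closed mem) ?_
  intro m hm j _
  rw [mem_Icc, ← abs_le]
  rcases j with c | ⟨b, g⟩
  · exact hm.1 c
  · exact hm.2.1 b g

instance : CompactSpace (KK mem) := isCompact_iff_compactSpace.1 (KK_compact mem)

/-- Coordinate functions on the compact set. -/
def coordC (j : J N A) : C(KK mem, ℝ) :=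
  ⟨fun x => x.1 j, (continuous_apply j).comp continuous_subtype_val⟩

noncomputable def XS : Submodule ℝ C(KK mem, ℝ) :=
  (Submodule.span ℝ (range (coordC mem))).topologicalClosure

theorem XS_closed : IsClosed (XS mem : Set C(KK mem, ℝ)) :=
  Submodule.isClosed_topologicalClosure _

/-- The Banach space. -/
def XX : Type := XS mem

noncomputable instance : NormedAddCommGroup (XX mem) := inferInstanceAs (NormedAddCommGroup (XS mem))

noncomputable instance : NormedSpace ℝ (XX mem) := inferInstanceAs (NormedSpace ℝ (XS mem))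

instance : CompleteSpace (XX mem) := (XS_closed mem).completeSpace_coe

/-- The inclusion into the space of continuous functions. -/
noncomputable def vl : XX mem →ₗᵢ[ℝ] C(KK mem, ℝ) := (XS mem).subtypeₗᵢ

theorem vl_range (u : XX mem) : vl mem u ∈ XS mem := Subtype.property (p := (· ∈ XS mem)) u

/-- Constructor. -/
def mkX (f : C(KK mem, ℝ)) (hf : f ∈ XS mem) : XX mem := ⟨f, hf⟩

theorem vl_mk (f : C(KK mem, ℝ)) (hf : f ∈ XS mem) : vl mem (mkX mem f hf) = f := rfl

noncomputable def coordX (j : J N A) : XX mem :=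
  mkX mem (coordC mem j)
    (Submodule.le_topologicalClosure _ (Submodule.subset_span (mem_range_self j)))

theorem coordX_apply (j : J N A) (x : KK mem) : vl mem (coordX mem j) x = x.1 j := rfl

theorem vl_ext {u v : XX mem} (h : ∀ x, vl mem u x = vl mem v x) : u = v :=
  (vl mem).injective (ContinuousMap.ext h)

/-- Evaluation functionals. -/
noncomputable def ev (x : KK mem) : XX mem →L[ℝ] ℝ :=
  (ContinuousMap.evalCLM ℝ x).comp (vl mem).toContinuousLinearMap

theorem ev_apply (x : KK mem) (u : XX mem) : ev mem x u = vl mem u x := rfl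

theorem ev_coord (x : KK mem) (j : J N A) : ev mem x (coordX mem j) = x.1 j := rfl

theorem ev_le (x : KK mem) (u : XX mem) : |ev mem x u| ≤ ‖u‖ := by
  rw [ev_apply, ← (vl mem).norm_map u]
  exact (vl mem u).norm_coe_le_norm x

/-- The closed linear span of a family of coordinates in the Banach space. -/
noncomputable def sp (S : Set (J N A)) : Submodule ℝ (XX mem) :=
  (Submodule.span ℝ (coordX mem '' S)).topologicalClosure

/-- Continuous functionals which agree on some coordinates agree on their closed span. -/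
theorem agree {S : Set (J N A)} {f g : XX mem →L[ℝ] ℝ}
    (h : ∀ j ∈ S, f (coordX mem j) = g (coordX mem j)) {u : XX mem} (hu : u ∈ sp mem S) :
    f u = g u := by
  have h1 : sp mem S ≤ LinearMap.ker (f - g).toLinearMap := by
    refine Submodule.topologicalClosure_minimal _ ?_ ?_
    · rw [Submodule.span_le]
      rintro _ ⟨j, hj, rfl⟩
      show (f - g) (coordX mem j) = 0
      rw [sub_apply, h j hj, sub_self]
    · exact (f - g).isClosed_ker
  have h2 : (f - g) u = 0 := h1 hu
  rw [sub_apply] at h2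
  linarith

theorem sp_univ : sp mem Set.univ = ⊤ := by
  rw [eq_top_iff]
  intro u _
  let N' : Submodule ℝ C(KK mem, ℝ) := (sp mem Set.univ).map (vl mem).toLinearMap
  have hN : IsClosed (N' : Set C(KK mem, ℝ)) := by
    have : (N' : Set C(KK mem, ℝ)) = vl mem '' (sp mem Set.univ : Set (XX mem)) := rfl
    rw [this]
    exact (vl mem).isometry.isClosedEmbedding.isClosedMap _
      (Submodule.isClosed_topologicalClosure _)
  have h1 : XS mem ≤ N' := by
    refine Submodule.topologicalClosure_minimal _ ?_ hN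
    rw [Submodule.span_le]
    rintro _ ⟨p, rfl⟩
    refine ⟨coordX mem p, ?_, rfl⟩
    exact Submodule.le_topologicalClosure _ (Submodule.subset_span ⟨p, mem_univ _, rfl⟩)
  obtain ⟨v, hv, hvu⟩ := h1 (vl_range mem u)
  have : v = u := (vl mem).injective hvu
  rw [← this]
  exact hv

theorem ext_coord {f g : XX mem →L[ℝ] ℝ}
    (h : ∀ j, f (coordX mem j) = g (coordX mem j)) : f = g := by
  ext u
  exact agree mem (S := Set.univ) (fun j _ => h j) (by rw [sp_univ]; trivial)

/-- The isometric copies of the function algebra. -/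
noncomputable def jb (b : A) : C(Q N, ℝ) →L[ℝ] XX mem :=
  LinearMap.mkContinuous
    { toFun := fun g => coordX mem (Sum.inr (b, g))
      map_add' := by
        intro g h
        apply vl_ext
        intro x
        rw [map_add]
        exact x.2.2.2.1 b g h
      map_smul' := by
        intro s g
        apply vl_ext
        intro x
        rw [map_smul]
        exact x.2.2.2.2.1 b s g } 1 (by
      intro g
      rw [one_mul, ← (vl mem).norm_map]
      show ‖coordC mem (Sum.inr (b, g))‖ ≤ ‖g‖
      rw [ContinuousMap.norm_le _ (norm_nonneg g)]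
      intro x
      exact x.2.2.1 b g)

theorem jb_apply (b : A) (g : C(Q N, ℝ)) : jb mem b g = coordX mem (Sum.inr (b, g)) := rfl

theorem jb_norm (b : A) (g : C(Q N, ℝ)) : ‖jb mem b g‖ ≤ ‖g‖ := by
  rw [jb_apply, ← (vl mem).norm_map]
  show ‖coordC mem (Sum.inr (b, g))‖ ≤ ‖g‖
  rw [ContinuousMap.norm_le _ (norm_nonneg g)]
  intro x
  exact x.2.2.1 b g

theorem jb_Xc (b : A) {c : N} (hc : c ∈ mem b) : jb mem b (Xc c) = coordX mem (Sum.inl c) := by
  rw [jb_apply]
  apply vl_ext
  intro x
  exact x.2.2.2.2.2 b c hc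

/-- Every functional of norm at most one is an evaluation. -/
theorem pt_mem (f : XX mem →L[ℝ] ℝ) (hf : ∀ u, |f u| ≤ ‖u‖) :
    (fun j => f (coordX mem j)) ∈ KK mem := by
  refine ⟨?_, ?_, ?_, ?_, ?_⟩
  · intro c
    refine (hf _).trans ?_
    rw [← (vl mem).norm_map]
    show ‖coordC mem (Sum.inl c)‖ ≤ 1
    rw [ContinuousMap.norm_le _ zero_le_one]
    intro x
    exact x.2.1 c
  · intro b g
    exact (hf _).trans (jb_norm mem b g)
  · intro b g h
    show f (jb mem b (g + h)) = f (jb mem b g) + f (jb mem b h)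
    rw [map_add, map_add]
  · intro b s g
    show f (jb mem b (s • g)) = s * f (jb mem b g)
    rw [map_smul, map_smul, smul_eq_mul]
  · intro b c hc
    show f (jb mem b (Xc c)) = f (coordX mem (Sum.inl c))
    rw [jb_Xc mem b hc]

theorem ev_pt (f : XX mem →L[ℝ] ℝ) (hf : ∀ u, |f u| ≤ ‖u‖) :
    ev mem ⟨_, pt_mem mem f hf⟩ = f := by
  refine ext_coord mem fun j => ?_
  rw [ev_coord]

end Pool.Agent.Helper811.Pli
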