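import Mathlib

set_option autoImplicit false

open Set Topology

namespace Pool.Agent.Helper811.Pli

/-- Signs. -/
def sg (b : Bool) : ℝ := if b then 1 else -1

theorem sg_sq (b : Bool) : sg b ^ 2 = 1 := by cases b <;> simp [sg]

theorem sg_abs (b : Bool) : |sg b| = 1 := by cases b <;> simp [sg]

theorem sum_sg : ∑ b : Bool, sg b = 0 := by simp [sg]

/-- Averages of Riesz products. -/
theorem sum_riesz {m : ℕ} (c : ℝ) (g : Fin m → ℝ) (j : Fin m) :
    ∑ σ : Fin m → Bool, (sg (σ j) : ℂ) * ∏ k, (1 + Complex.I * (c * sg (σ k) * g k : ℝ)) =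
      2 ^ m * (Complex.I * (c * g j : ℝ)) := by
  classical
  have h1 : ∀ σ : Fin m → Bool, (sg (σ j) : ℂ) * ∏ k, (1 + Complex.I * (c * sg (σ k) * g k : ℝ)) =
      ∏ k, (if k = j then (sg (σ k) : ℂ) else 1) * (1 + Complex.I * (c * sg (σ k) * g k : ℝ)) := by
    intro σ
    rw [Finset.prod_mul_distrib, Finset.prod_ite_eq' Finset.univ j]
    simp
  simp only [h1]
  rw [← Fintype.prod_sum (fun (k : Fin m) (b : Bool) => (if k = j then (sg b : ℂ) else 1) *
    (1 + Complex.I * (c * sg b * g k : ℝ)))]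
  have h2 : ∀ k, (∑ b : Bool, (if k = j then (sg b : ℂ) else 1) *
      (1 + Complex.I * (c * sg b * g k : ℝ))) = 2 * (if k = j then Complex.I * (c * g k : ℝ) else 1) := by
    intro k
    by_cases h : k = j
    · simp only [h, if_true, Fintype.sum_bool, sg]
      simp
      ring
    · simp only [h, if_false, Fintype.sum_bool, sg]
      simp
      ring
  simp only [h2]
  rw [Finset.prod_mul_distrib, Finset.prod_const, Finset.card_univ, Fintype.card_fin,
    Finset.prod_ite_eq' Finset.univ j]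
  simp

theorem norm_riesz {m : ℕ} (hm : 0 < m) (g : Fin m → ℝ) (hg : ∀ k, |g k| ≤ 1) (σ : Fin m → Bool) :
    ‖∏ k, (1 + Complex.I * ((1 / Real.sqrt m) * sg (σ k) * g k : ℝ))‖ ≤ 2 := by
  have hm' : (0 : ℝ) < m := by exact_mod_cast hm
  have h1 : ∀ k, ‖(1 + Complex.I * ((1 / Real.sqrt m) * sg (σ k) * g k : ℝ))‖ ^ 2 ≤ 1 + 1 / m := by
    intro k
    rw [← Complex.normSq_eq_norm_sq, Complex.normSq_apply]
    have hre : (1 + Complex.I * ((1 / Real.sqrt m) * sg (σ k) * g k : ℝ)).re = 1 := by simp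
    have him : (1 + Complex.I * ((1 / Real.sqrt m) * sg (σ k) * g k : ℝ)).im =
        (1 / Real.sqrt m) * sg (σ k) * g k := by
      rw [Complex.add_im, Complex.one_im, zero_add, Complex.I_mul_im, Complex.ofReal_re]
    rw [hre, him]
    have h2 : (1 / Real.sqrt m) * sg (σ k) * g k * ((1 / Real.sqrt m) * sg (σ k) * g k) =
        (1 / m) * (g k) ^ 2 := by
      have h3 : (1 / Real.sqrt m) ^ 2 = 1 / m := by
        rw [div_pow, Real.sq_sqrt hm'.le, one_pow]
      calc (1 / Real.sqrt m) * sg (σ k) * g k * ((1 / Real.sqrt m) * sg (σ k) * g k)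
          = (1 / Real.sqrt m) ^ 2 * (sg (σ k)) ^ 2 * (g k) ^ 2 := by ring
        _ = _ := by rw [h3, sg_sq, mul_one]
    rw [h2]
    have h4 : (g k) ^ 2 ≤ 1 := by
      rw [← sq_abs]
      have := hg k
      have := abs_nonneg (g k)
      nlinarith
    have h5 : (1 / (m : ℝ)) * (g k) ^ 2 ≤ 1 / m := by
      have : (0 : ℝ) < 1 / m := by positivity
      nlinarith
    linarith
  have h2 : ‖∏ k, (1 + Complex.I * ((1 / Real.sqrt m) * sg (σ k) * g k : ℝ))‖ ^ 2 ≤ 4 := by
    rw [norm_prod, ← Finset.prod_pow]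
    calc ∏ k, ‖(1 + Complex.I * ((1 / Real.sqrt m) * sg (σ k) * g k : ℝ))‖ ^ 2
        ≤ ∏ _k : Fin m, (1 + 1 / (m : ℝ)) := Finset.prod_le_prod (fun k _ => by positivity) fun k _ => h1 k
      _ = (1 + 1 / (m : ℝ)) ^ m := by simp
      _ ≤ (Real.exp (1 / m)) ^ m := by
          refine pow_le_pow_left₀ (by positivity) ?_ m
          linarith [Real.add_one_le_exp (1 / (m : ℝ))]
      _ = Real.exp 1 := by
          rw [← Real.exp_nat_mul]
          congr 1
          field_simp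
      _ ≤ 4 := by linarith [Real.exp_one_lt_d9]
  have h3 := norm_nonneg (∏ k, (1 + Complex.I * ((1 / Real.sqrt m) * sg (σ k) * g k : ℝ)))
  nlinarith

/-- Cotype two for functionals on a space of continuous functions. -/
theorem cotype {T : Type} [TopologicalSpace T] [CompactSpace T] {m : ℕ} (hm : 0 < m)
    (g : Fin m → C(T, ℝ)) (hg : ∀ k, ‖g k‖ ≤ 1) (ν : Fin m → (C(T, ℝ) →ₗ[ℝ] ℝ)) (L : ℝ)
    (hL : ∀ σ : Fin m → Bool, ∀ f : C(T, ℝ), ‖f‖ ≤ 1 → |∑ k, sg (σ k) * ν k f| ≤ L) :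
    ∑ k, ν k (g k) ≤ 2 * Real.sqrt m * L := by
  classical
  have hm' : (0 : ℝ) < m := by exact_mod_cast hm
  have hs : 0 < Real.sqrt m := Real.sqrt_pos.2 hm'
  -- the test functions
  let F : (Fin m → Bool) → C(T, ℝ) := fun σ =>
    ⟨fun q => (∏ k, (1 + Complex.I * ((1 / Real.sqrt m) * sg (σ k) * g k q : ℝ))).im, by
      refine Complex.continuous_im.comp ?_
      refine continuous_finsetProd _ fun k _ => ?_
      refine continuous_const.add (continuous_const.mul (Complex.continuous_ofReal.comp ?_))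
      exact continuous_const.mul (g k).continuous⟩
  have hF : ∀ σ q, F σ q = (∏ k, (1 + Complex.I * ((1 / Real.sqrt m) * sg (σ k) * g k q : ℝ))).im :=
    fun σ q => rfl
  have hFn : ∀ σ, ‖F σ‖ ≤ 2 := by
    intro σ
    rw [ContinuousMap.norm_le _ (by norm_num)]
    intro q
    rw [hF]
    refine (Complex.abs_im_le_norm _).trans (norm_riesz hm (fun k => g k q) (fun k => ?_) σ)
    exact ((g k).norm_coe_le_norm q).trans (hg k)
  have hsum : ∀ j, ∑ σ : Fin m → Bool, sg (σ j) • F σ = ((2 : ℝ) ^ m * (1 / Real.sqrt m)) • g j := by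
    intro j
    ext q
    rw [ContinuousMap.coe_sum, Finset.sum_apply]
    simp only [ContinuousMap.smul_apply, smul_eq_mul, hF]
    have h1 := congrArg Complex.im (sum_riesz (1 / Real.sqrt m) (fun k => g k q) j)
    rw [Complex.im_sum] at h1
    have h2 : ∀ σ : Fin m → Bool, ((sg (σ j) : ℂ) *
        ∏ k, (1 + Complex.I * ((1 / Real.sqrt m) * sg (σ k) * g k q : ℝ))).im =
        sg (σ j) * (∏ k, (1 + Complex.I * ((1 / Real.sqrt m) * sg (σ k) * g k q : ℝ))).im :=
      fun σ => Complex.im_ofReal_mul _ _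
    simp only [h2] at h1
    rw [h1]
    have h3 : (2 : ℂ) ^ m * (Complex.I * ((1 / Real.sqrt m) * g j q : ℝ)) =
        ((2 ^ m * ((1 / Real.sqrt m) * g j q) : ℝ) : ℂ) * Complex.I := by
      push_cast
      ring
    rw [h3, Complex.im_ofReal_mul, Complex.I_im, mul_one]
    ring
  have h1 : ∀ j, (2 : ℝ) ^ m * (1 / Real.sqrt m) * ν j (g j) = ∑ σ : Fin m → Bool, sg (σ j) * ν j (F σ) := by
    intro j
    have := congrArg (ν j) (hsum j)
    rw [map_sum, map_smul, smul_eq_mul] at this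
    rw [← this]
    refine Finset.sum_congr rfl fun σ _ => ?_
    rw [map_smul, smul_eq_mul]
  have h2 : (2 : ℝ) ^ m * (1 / Real.sqrt m) * ∑ k, ν k (g k) =
      ∑ σ : Fin m → Bool, ∑ k, sg (σ k) * ν k (F σ) := by
    rw [Finset.mul_sum, Finset.sum_comm]
    exact Finset.sum_congr rfl fun j _ => h1 j
  have h3 : ∀ σ : Fin m → Bool, ∑ k, sg (σ k) * ν k (F σ) ≤ 2 * L := by
    intro σ
    have h4 : ‖(1 / 2 : ℝ) • F σ‖ ≤ 1 := by
      rw [norm_smul, Real.norm_of_nonneg (by norm_num)]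
      linarith [hFn σ]
    have h5 := hL σ _ h4
    have h6 : ∑ k, sg (σ k) * ν k ((1 / 2 : ℝ) • F σ) = (1 / 2) * ∑ k, sg (σ k) * ν k (F σ) := by
      rw [Finset.mul_sum]
      refine Finset.sum_congr rfl fun k _ => ?_
      rw [map_smul, smul_eq_mul]
      ring
    rw [h6] at h5
    have h7 := (abs_le.1 h5).2
    linarith
  have h4 : ∑ σ : Fin m → Bool, ∑ k, sg (σ k) * ν k (F σ) ≤ 2 ^ m * (2 * L) := by
    refine (Finset.sum_le_sum fun σ _ => h3 σ).trans ?_
    simp
  rw [← h2] at h4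
  have hpow : (0 : ℝ) < 2 ^ m := by positivity
  have h5 : (1 / Real.sqrt m) * ∑ k, ν k (g k) ≤ 2 * L := by
    have h6 : (2 : ℝ) ^ m * ((1 / Real.sqrt m) * ∑ k, ν k (g k)) ≤ 2 ^ m * (2 * L) := by
      rw [← mul_assoc]; exact h4
    exact le_of_mul_le_mul_left h6 hpow
  have h6 : ∑ k, ν k (g k) = Real.sqrt m * ((1 / Real.sqrt m) * ∑ k, ν k (g k)) := by
    field_simp
  rw [h6]
  calc Real.sqrt m * ((1 / Real.sqrt m) * ∑ k, ν k (g k)) ≤ Real.sqrt m * (2 * L) :=
        mul_le_mul_of_nonneg_left h5 hs.le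
    _ = 2 * Real.sqrt m * L := by ring

end Pool.Agent.Helper811.Pli
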