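import Pool.Agent.Helper811.Plich1
import Pool.Agent.Helper811.Riesz

set_option autoImplicit false

open Set Topology

namespace Pool.Agent.Helper811.Pli

open scoped Classical

variable {N A : Type} (mem : A → Set N)

/-- Truncation of a point to a set of branches. -/
noncomputable def trunc (G : Set A) (m : J N A → ℝ) : J N A → ℝ :=
  Sum.elim (fun _ => 0) (fun p => if p.1 ∈ G then m (Sum.inr p) else 0)

theorem trunc_inl (G : Set A) (m : J N A → ℝ) (c : N) : trunc G m (Sum.inl c) = 0 := rfl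

theorem trunc_inr (G : Set A) (m : J N A → ℝ) (b : A) (g : C(Q N, ℝ)) :
    trunc G m (Sum.inr (b, g)) = if b ∈ G then m (Sum.inr (b, g)) else 0 := rfl

theorem trunc_mem {m : J N A → ℝ} (hm : m ∈ KK mem) (h0 : ∀ c, m (Sum.inl c) = 0) (G : Set A) :
    trunc G m ∈ KK mem := by
  refine ⟨?_, ?_, ?_, ?_, ?_⟩
  · intro c
    rw [trunc_inl]; simp
  · intro b g
    rw [trunc_inr]
    split_ifs
    · exact hm.2.1 b g
    · simp
  · intro b g h
    simp only [trunc_inr]
    split_ifs
    · exact hm.2.2.1 b g h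
    · simp
  · intro b s g
    simp only [trunc_inr]
    split_ifs
    · exact hm.2.2.2.1 b s g
    · simp
  · intro b c hc
    rw [trunc_inl, trunc_inr]
    split_ifs
    · rw [hm.2.2.2.2 b c hc, h0]
    · rfl

theorem trunc_tendsto {m : J N A → ℝ} (hm : m ∈ KK mem) (h0 : ∀ c, m (Sum.inl c) = 0) :
    Filter.Tendsto (fun G : Finset A => (⟨trunc (G : Set A) m, trunc_mem mem hm h0 _⟩ : KK mem))
      Filter.atTop (𝓝 ⟨m, hm⟩) := by
  rw [tendsto_subtype_rng, tendsto_pi_nhds]
  intro j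
  refine tendsto_const_nhds.congr' ?_
  rcases j with c | ⟨b, g⟩
  · refine Filter.Eventually.of_forall fun G => ?_
    show m (Sum.inl c) = trunc (G : Set A) m (Sum.inl c)
    rw [trunc_inl, h0]
  · filter_upwards [Filter.eventually_ge_atTop {b}] with G hG
    have hb : b ∈ G := hG (Finset.mem_singleton_self b)
    show m (Sum.inr (b, g)) = trunc (G : Set A) m (Sum.inr (b, g))
    rw [trunc_inr, if_pos (by exact_mod_cast hb)]

/-- Far away functionals without mean are small on the range of an operator. -/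
theorem exists_finite_small (T : C(Q N, ℝ) →L[ℝ] XX mem) {ε : ℝ} (hε : 0 < ε) :
    ∃ F : Finset A, ∀ x : KK mem, (∀ c, x.1 (Sum.inl c) = 0) →
      (∀ b ∈ F, ∀ g, x.1 (Sum.inr (b, g)) = 0) →
      ∀ g : C(Q N, ℝ), ‖g‖ ≤ 1 → |ev mem x (T g)| ≤ ε := by
  by_contra hcon
  have h1 : ∀ F : Finset A, ∃ (x : KK mem) (G : Finset A) (g : C(Q N, ℝ)),
      (∀ c, x.1 (Sum.inl c) = 0) ∧ (∀ b ∈ F, ∀ g, x.1 (Sum.inr (b, g)) = 0) ∧
      (∀ b, b ∉ G → ∀ g, x.1 (Sum.inr (b, g)) = 0) ∧ ‖g‖ ≤ 1 ∧ ε < ev mem x (T g) := by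
    intro F
    have h2 : ∃ x : KK mem, (∀ c, x.1 (Sum.inl c) = 0) ∧
      (∀ b ∈ F, ∀ g, x.1 (Sum.inr (b, g)) = 0) ∧
      ∃ g : C(Q N, ℝ), ‖g‖ ≤ 1 ∧ ε < |ev mem x (T g)| := by
      by_contra hc
      refine hcon ⟨F, fun x hx0 hxF g hg => ?_⟩
      by_contra hlt
      exact hc ⟨x, hx0, hxF, g, hg, not_le.1 hlt⟩
    obtain ⟨x, hx0, hxF, g, hg, hlt⟩ := h2
    -- choose the sign of g
    obtain ⟨g', hg', hlt'⟩ : ∃ g' : C(Q N, ℝ), ‖g'‖ ≤ 1 ∧ ε < ev mem x (T g') := by
      rcases lt_abs.1 hlt with h | h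
      · exact ⟨g, hg, h⟩
      · refine ⟨-g, by rw [norm_neg]; exact hg, ?_⟩
        rw [map_neg, map_neg]
        exact h
    have h3 := trunc_tendsto mem x.2 hx0
    have h4 : Filter.Tendsto (fun G : Finset A =>
        vl mem (T g') (⟨trunc (G : Set A) x.1, trunc_mem mem x.2 hx0 _⟩ : KK mem)) Filter.atTop
        (𝓝 (vl mem (T g') x)) := ((vl mem (T g')).continuous.tendsto x).comp h3
    obtain ⟨G, hG⟩ := ((tendsto_order.1 h4).1 ε hlt').exists
    refine ⟨⟨trunc (G : Set A) x.1, trunc_mem mem x.2 hx0 _⟩, G, g', fun c => rfl, ?_, ?_, hg', hG⟩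
    · intro b hb g
      show trunc (G : Set A) x.1 (Sum.inr (b, g)) = 0
      rw [trunc_inr]
      split_ifs
      · exact hxF b hb g
      · rfl
    · intro b hb g
      show trunc (G : Set A) x.1 (Sum.inr (b, g)) = 0
      rw [trunc_inr, if_neg (by exact_mod_cast hb)]
  choose x G g hx0 hxF hxG hg hlt using h1
  -- the recursive sequence
  let F : ℕ → Finset A := fun n => Nat.rec ∅ (fun _ F => F ∪ G F) n
  have hFs : ∀ n, F (n + 1) = F n ∪ G (F n) := fun n => rfl
  have hFm : Monotone F := monotone_nat_of_le_succ fun n => by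
    rw [hFs]; exact Finset.subset_union_left
  have hdisj : ∀ k l : ℕ, k < l → ∀ b g, (x (F k)).1 (Sum.inr (b, g)) ≠ 0 →
      ∀ g', (x (F l)).1 (Sum.inr (b, g')) = 0 := by
    intro k l hkl b g hne g'
    have hb : b ∈ F l := Classical.byContradiction fun hb =>
      hne (hxG _ b (fun hbG => hb (hFm hkl (by
        rw [hFs]; exact Finset.mem_union_right _ hbG))) g)
    exact hxF _ b hb g'
  have hdisj' : ∀ k l : ℕ, k ≠ l → ∀ b g, (x (F k)).1 (Sum.inr (b, g)) ≠ 0 →
      ∀ g', (x (F l)).1 (Sum.inr (b, g')) = 0 := by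
    intro k l hkl b g hne g'
    rcases lt_or_gt_of_ne hkl with h | h
    · exact hdisj k l h b g hne g'
    · by_contra hne'
      exact hne (hdisj l k h b g' hne' g)
  -- choose the length
  obtain ⟨m, hm⟩ : ∃ m : ℕ, 4 * ‖T‖ ^ 2 / ε ^ 2 < m := exists_nat_gt _
  have hm0 : (0 : ℝ) < m := lt_of_le_of_lt (by positivity) hm
  have hm0' : 0 < m := by exact_mod_cast hm0
  have key := cotype hm0' (fun k : Fin m => g (F k)) (fun k => hg _)
    (fun k => ((ev mem (x (F k))).comp T).toLinearMap) ‖T‖ ?_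
  · have h5 : (m : ℝ) * ε ≤ ∑ k : Fin m, ((ev mem (x (F k))).comp T).toLinearMap (g (F k)) := by
      have : (m : ℝ) * ε = ∑ _k : Fin m, ε := by simp
      rw [this]
      exact Finset.sum_le_sum fun k _ => (hlt (F k)).le
    have h6 : (m : ℝ) * ε ≤ 2 * Real.sqrt m * ‖T‖ := h5.trans key
    have hs : 0 < Real.sqrt m := Real.sqrt_pos.2 hm0
    have h7 : Real.sqrt m * ε ≤ 2 * ‖T‖ := by
      have h8 : Real.sqrt m * (Real.sqrt m * ε) ≤ Real.sqrt m * (2 * ‖T‖) := by
        rw [← mul_assoc, Real.mul_self_sqrt hm0.le]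
        linarith
      exact le_of_mul_le_mul_left h8 hs
    have h9 : (Real.sqrt m * ε) ^ 2 ≤ (2 * ‖T‖) ^ 2 := pow_le_pow_left₀ (by positivity) h7 2
    rw [mul_pow, Real.sq_sqrt hm0.le] at h9
    rw [div_lt_iff₀ (by positivity)] at hm
    nlinarith
  · intro σ f hf
    -- the signed sum is a point of the compact set
    let R : J N A → ℝ := fun j => ∑ k : Fin m, sg (σ k) * (x (F k)).1 j
    have hbound : ∀ b g, |R (Sum.inr (b, g))| ≤ ‖g‖ := by
      intro b g
      by_cases hex : ∃ k : Fin m, (x (F k)).1 (Sum.inr (b, g)) ≠ 0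
      · obtain ⟨k, hk⟩ := hex
        have : R (Sum.inr (b, g)) = sg (σ k) * (x (F k)).1 (Sum.inr (b, g)) := by
          refine Finset.sum_eq_single k ?_ ?_
          · intro l _ hlk
            have hne : (k : ℕ) ≠ (l : ℕ) := fun h => hlk (Fin.ext h.symm)
            rw [hdisj' k l hne b g hk g, mul_zero]
          · intro h; exact absurd (Finset.mem_univ _) h
        rw [this, abs_mul, sg_abs, one_mul]
        exact (x (F k)).2.2.1 b g
      · have : R (Sum.inr (b, g)) = 0 := by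
          refine Finset.sum_eq_zero fun k _ => ?_
          have : (x (F k)).1 (Sum.inr (b, g)) = 0 := by
            by_contra h; exact hex ⟨k, h⟩
          rw [this, mul_zero]
        rw [this, abs_zero]
        exact norm_nonneg g
    have hR0 : ∀ c, R (Sum.inl c) = 0 := by
      intro c
      refine Finset.sum_eq_zero fun k _ => ?_
      rw [hx0, mul_zero]
    have hR : R ∈ KK mem := by
      refine ⟨?_, hbound, ?_, ?_, ?_⟩
      · intro c
        rw [hR0]; simp
      · intro b g h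
        show ∑ k : Fin m, _ = ∑ k : Fin m, _ + ∑ k : Fin m, _
        rw [← Finset.sum_add_distrib]
        refine Finset.sum_congr rfl fun k _ => ?_
        rw [(x (F k)).2.2.2.1 b g h]
        ring
      · intro b s g
        show ∑ k : Fin m, _ = s * ∑ k : Fin m, _
        rw [Finset.mul_sum]
        refine Finset.sum_congr rfl fun k _ => ?_
        rw [(x (F k)).2.2.2.2.1 b s g]
        ring
      · intro b c hc
        rw [hR0]
        refine Finset.sum_eq_zero fun k _ => ?_
        rw [(x (F k)).2.2.2.2.2 b c hc, hx0, mul_zero]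
    have hev : ev mem ⟨R, hR⟩ = ∑ k : Fin m, sg (σ k) • ev mem (x (F k)) := by
      refine ext_coord mem fun j => ?_
      rw [ev_coord, sum_apply]
      rfl
    have h5 := ev_le mem ⟨R, hR⟩ (T f)
    rw [hev, sum_apply] at h5
    refine le_trans ?_ (h5.trans ((T.le_opNorm f).trans ?_))
    · exact le_of_eq rfl
    · have := norm_nonneg T
      nlinarith [norm_nonneg f]

end Pool.Agent.Helper811.Pli
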