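import Pool.Agent.Helper811.Plich2

set_option autoImplicit false

open Set Topology

namespace Pool.Agent.Helper811.Pli

open scoped Classical

variable {N A : Type} (mem : A → Set N)

/-- The origin of the interval. -/
def zI : Set.Icc (-1 : ℝ) 1 := ⟨0, by norm_num, by norm_num⟩

/-- Restriction of a point of the cube to a branch. -/
noncomputable def cut (b : A) (t : Q N) : Q N := fun c => if c ∈ mem b then t c else zI

theorem cut_of_mem {b : A} {t : Q N} {c : N} (h : c ∈ mem b) : cut mem b t c = t c := if_pos h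

/-- The default element over a point of the cube. -/
noncomputable def dirac (t : Q N) : J N A → ℝ :=
  Sum.elim (fun c => (t c : ℝ)) (fun p => p.2 (cut mem p.1 t))

theorem dirac_mem (t : Q N) : dirac mem t ∈ KK mem := by
  refine ⟨?_, ?_, ?_, ?_, ?_⟩
  · intro c
    exact abs_le.2 ⟨(t c).2.1, (t c).2.2⟩
  · intro b g
    exact g.norm_coe_le_norm _
  · intro b g h
    rfl
  · intro b s g
    rfl
  · intro b c hc
    show ((cut mem b t c : Set.Icc (-1 : ℝ) 1) : ℝ) = t c
    rw [cut_of_mem mem hc]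

/-- Indicator of a coordinate. -/
noncomputable def ind (c0 c : N) : ℝ := if c = c0 then 1 else 0

theorem ind_self (c0 : N) : ind c0 c0 = 1 := if_pos rfl

theorem ind_ne {c0 c : N} (h : c ≠ c0) : ind c0 c = 0 := if_neg h

theorem ind_abs (c0 c : N) : |ind c0 c| ≤ 1 := by
  unfold ind
  split_ifs <;> simp

/-- Signed unit points of the cube. -/
noncomputable def up (s : Bool) (c0 : N) : Q N := fun c => ⟨sg s * ind c0 c, by
  rw [mem_Icc, ← abs_le, abs_mul, sg_abs, one_mul]
  exact ind_abs c0 c⟩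

/-- The linear element over a coordinate. -/
noncomputable def lin (c0 : N) : J N A → ℝ :=
  Sum.elim (fun c => ind c0 c)
    (fun p => if c0 ∈ mem p.1 then (p.2 (up true c0) - p.2 (up false c0)) / 2 else 0)

theorem lin_inr (c0 : N) (b : A) (g : C(Q N, ℝ)) : lin mem c0 (Sum.inr (b, g)) =
    if c0 ∈ mem b then (g (up true c0) - g (up false c0)) / 2 else 0 := rfl

theorem lin_mem (c0 : N) : lin mem c0 ∈ KK mem := by
  refine ⟨?_, ?_, ?_, ?_, ?_⟩
  · intro c
    exact ind_abs c0 c
  · intro b g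
    rw [lin_inr]
    split_ifs
    · have h1 := g.norm_coe_le_norm (up true c0)
      have h2 := g.norm_coe_le_norm (up false c0)
      rw [Real.norm_eq_abs, abs_le] at h1 h2
      rw [abs_le]
      constructor <;> linarith [h1.1, h1.2, h2.1, h2.2]
    · rw [abs_zero]; exact norm_nonneg g
  · intro b g h
    simp only [lin_inr, ContinuousMap.add_apply]
    split_ifs
    · ring
    · ring
  · intro b s g
    simp only [lin_inr, ContinuousMap.smul_apply, smul_eq_mul]
    split_ifs
    · ring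
    · ring
  · intro b c hc
    rw [lin_inr]
    show _ = ind c0 c
    split_ifs with h
    · show (sg true * ind c0 c - sg false * ind c0 c) / 2 = ind c0 c
      simp [sg]
    · have : c ≠ c0 := fun he => h (he ▸ hc)
      rw [ind_ne this]

/-- Points of the cube given by signs on finitely many coordinates. -/
noncomputable def tsum' {n : ℕ} (i : Fin n → N) (σ : Fin n → Bool) (c : N) : ℝ :=
  ∑ k, sg (σ k) * ind (i k) c

theorem tsum'_abs {n : ℕ} {i : Fin n → N} (hi : Function.Injective i) (σ : Fin n → Bool) (c : N) :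
    |tsum' i σ c| ≤ 1 := by
  by_cases h : ∃ k, c = i k
  · obtain ⟨k, hk⟩ := h
    have : tsum' i σ c = sg (σ k) := by
      unfold tsum'
      rw [Finset.sum_eq_single k]
      · rw [hk, ind_self, mul_one]
      · intro l _ hl
        rw [hk, ind_ne (fun h => hl (hi h).symm), mul_zero]
      · intro h; exact absurd (Finset.mem_univ _) h
    rw [this, sg_abs]
  · have : tsum' i σ c = 0 := by
      refine Finset.sum_eq_zero fun k _ => ?_
      rw [ind_ne (fun hc => h ⟨k, hc⟩), mul_zero]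
    rw [this]; simp

noncomputable def tpt {n : ℕ} {i : Fin n → N} (hi : Function.Injective i) (σ : Fin n → Bool) : Q N :=
  fun c => ⟨tsum' i σ c, by
    rw [mem_Icc, ← abs_le]
    exact tsum'_abs hi σ c⟩

theorem cut_tpt {n : ℕ} {i : Fin n → N} (hi : Function.Injective i) (σ : Fin n → Bool) {b : A}
    (hb : ∀ k, i k ∉ mem b) : cut mem b (tpt hi σ) = cut mem b (fun _ => zI) := by
  funext c
  by_cases hc : c ∈ mem b
  · rw [cut_of_mem mem hc, cut_of_mem mem hc]
    apply Subtype.ext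
    show tsum' i σ c = 0
    refine Finset.sum_eq_zero fun k _ => ?_
    have hne : c ≠ i k := by
      intro h
      rw [h] at hc
      exact hb k hc
    rw [ind_ne hne, mul_zero]
  · show (if _ then _ else _) = (if _ then _ else _)
    rw [if_neg hc, if_neg hc]

/-- There is no bounded extension of the coordinates of a branch to the whole algebra with values
in the part of the space which corresponds to the other branches. -/
theorem no_ext (hinf : ∀ b, (mem b).Infinite)
    (had : ∀ b b', b ≠ b' → (mem b ∩ mem b').Finite) (b : A) (M : Set A) (hb : b ∉ M)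
    (T : C(Q N, ℝ) →L[ℝ] XX mem)
    (hT : ∀ g, T g ∈ sp mem {j | ∀ p, j = Sum.inr p → p.1 ∈ M})
    (hTc : ∀ c ∈ mem b, T (Xc c) = coordX mem (Sum.inl c)) : False := by
  -- constants
  obtain ⟨n, hn⟩ : ∃ n : ℕ, 4 * (2 * ‖T‖ + 1) ^ 2 < n := exists_nat_gt _
  have hn0 : (0 : ℝ) < n := lt_of_le_of_lt (by positivity) hn
  have hn0' : 0 < n := by exact_mod_cast hn0
  have hε : (0 : ℝ) < 1 / (n + 2) := by positivity
  obtain ⟨F, hF⟩ := exists_finite_small mem T hε
  -- choose coordinates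
  have hfin : (⋃ b' ∈ (F : Set A) \ {b}, mem b ∩ mem b').Finite :=
    (F.finite_toSet.subset sdiff_subset).biUnion fun b' hb' => had b b' (fun h => hb'.2 h.symm)
  have hinf' : (mem b \ ⋃ b' ∈ (F : Set A) \ {b}, mem b ∩ mem b').Infinite :=
    (hinf b).sdiff hfin
  let i : Fin n → N := fun k => (hinf'.natEmbedding _ k).1
  have hi : Function.Injective i := by
    intro k l hkl
    have h1 : hinf'.natEmbedding _ k = hinf'.natEmbedding _ l := Subtype.ext hkl
    exact Fin.ext ((hinf'.natEmbedding _).injective h1)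
  have hib : ∀ k, i k ∈ mem b := fun k => (hinf'.natEmbedding _ k).2.1
  have hiF : ∀ k, ∀ b' ∈ F, b' ∈ M → i k ∉ mem b' := by
    intro k b' hb' hM hmem
    refine (hinf'.natEmbedding _ k).2.2 (mem_biUnion (show b' ∈ (F : Set A) \ {b} from ?_)
      ⟨hib k, hmem⟩)
    exact ⟨hb', fun h => hb (h ▸ hM)⟩
  -- the elements
  let z0 : KK mem := ⟨dirac mem (fun _ => zI), dirac_mem mem _⟩
  let zs : (Fin n → Bool) → KK mem := fun σ => ⟨dirac mem (tpt hi σ), dirac_mem mem _⟩
  let zl : Fin n → KK mem := fun k => ⟨lin mem (i k), lin_mem mem _⟩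
  let D : (Fin n → Bool) → J N A → ℝ := fun σ j =>
    ((zs σ).1 j - z0.1 j - ∑ k, sg (σ k) * (zl k).1 j) / (n + 2)
  have hD0 : ∀ σ c, D σ (Sum.inl c) = 0 := by
    intro σ c
    show (tsum' i σ c - 0 - ∑ k, sg (σ k) * ind (i k) c) / (n + 2) = 0
    unfold tsum'
    simp
  have hDK : ∀ σ, D σ ∈ KK mem := by
    intro σ
    have hpos : (0 : ℝ) < n + 2 := by positivity
    refine ⟨?_, ?_, ?_, ?_, ?_⟩
    · intro c
      rw [hD0]; simp
    · intro b g
      show |((zs σ).1 (Sum.inr (b, g)) - z0.1 (Sum.inr (b, g)) -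
        ∑ k, sg (σ k) * (zl k).1 (Sum.inr (b, g))) / (n + 2)| ≤ ‖g‖
      rw [abs_div, abs_of_pos hpos, div_le_iff₀ hpos]
      have e1 := (zs σ).2.2.1 b g
      have e2 := z0.2.2.1 b g
      have e3 : |∑ k, sg (σ k) * (zl k).1 (Sum.inr (b, g))| ≤ n * ‖g‖ := by
        refine (Finset.abs_sum_le_sum_abs _ _).trans ?_
        have : (n : ℝ) * ‖g‖ = ∑ _k : Fin n, ‖g‖ := by simp
        rw [this]
        refine Finset.sum_le_sum fun k _ => ?_
        rw [abs_mul, sg_abs, one_mul]
        exact (zl k).2.2.1 b g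
      rw [abs_le] at e1 e2 e3 ⊢
      constructor <;> nlinarith [e1.1, e1.2, e2.1, e2.2, e3.1, e3.2]
    · intro b g h
      show ((zs σ).1 (Sum.inr (b, g + h)) - z0.1 (Sum.inr (b, g + h)) -
        ∑ k, sg (σ k) * (zl k).1 (Sum.inr (b, g + h))) / (n + 2) =
        ((zs σ).1 (Sum.inr (b, g)) - z0.1 (Sum.inr (b, g)) -
        ∑ k, sg (σ k) * (zl k).1 (Sum.inr (b, g))) / (n + 2) +
        ((zs σ).1 (Sum.inr (b, h)) - z0.1 (Sum.inr (b, h)) -
        ∑ k, sg (σ k) * (zl k).1 (Sum.inr (b, h))) / (n + 2)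
      have e1 : ∑ k, sg (σ k) * (zl k).1 (Sum.inr (b, g + h)) =
          ∑ k, sg (σ k) * (zl k).1 (Sum.inr (b, g)) + ∑ k, sg (σ k) * (zl k).1 (Sum.inr (b, h)) := by
        rw [← Finset.sum_add_distrib]
        refine Finset.sum_congr rfl fun k _ => ?_
        rw [(zl k).2.2.2.1 b g h]
        ring
      rw [(zs σ).2.2.2.1 b g h, z0.2.2.2.1 b g h, e1]
      ring
    · intro b s g
      show ((zs σ).1 (Sum.inr (b, s • g)) - z0.1 (Sum.inr (b, s • g)) -
        ∑ k, sg (σ k) * (zl k).1 (Sum.inr (b, s • g))) / (n + 2) =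
        s * (((zs σ).1 (Sum.inr (b, g)) - z0.1 (Sum.inr (b, g)) -
        ∑ k, sg (σ k) * (zl k).1 (Sum.inr (b, g))) / (n + 2))
      have e1 : ∑ k, sg (σ k) * (zl k).1 (Sum.inr (b, s • g)) =
          s * ∑ k, sg (σ k) * (zl k).1 (Sum.inr (b, g)) := by
        rw [Finset.mul_sum]
        refine Finset.sum_congr rfl fun k _ => ?_
        rw [(zl k).2.2.2.2.1 b s g]
        ring
      rw [(zs σ).2.2.2.2.1 b s g, z0.2.2.2.2.1 b s g, e1]
      ring
    · intro b c hc
      show ((zs σ).1 (Sum.inr (b, Xc c)) - z0.1 (Sum.inr (b, Xc c)) -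
        ∑ k, sg (σ k) * (zl k).1 (Sum.inr (b, Xc c))) / (n + 2) = D σ (Sum.inl c)
      have e1 : ∑ k, sg (σ k) * (zl k).1 (Sum.inr (b, Xc c)) =
          ∑ k, sg (σ k) * (zl k).1 (Sum.inl c) := by
        refine Finset.sum_congr rfl fun k _ => ?_
        rw [(zl k).2.2.2.2.2 b c hc]
      rw [(zs σ).2.2.2.2.2 b c hc, z0.2.2.2.2.2 b c hc, e1]
  -- truncation to `M`
  let DM : (Fin n → Bool) → KK mem := fun σ => ⟨trunc M (D σ), trunc_mem mem (hDK σ) (hD0 σ) M⟩
  have hDMF : ∀ σ, ∀ b' ∈ F, ∀ g, (DM σ).1 (Sum.inr (b', g)) = 0 := by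
    intro σ b' hb' g
    show trunc M (D σ) (Sum.inr (b', g)) = 0
    rw [trunc_inr]
    split_ifs with hM
    · show ((zs σ).1 (Sum.inr (b', g)) - z0.1 (Sum.inr (b', g)) -
        ∑ k, sg (σ k) * (zl k).1 (Sum.inr (b', g))) / (n + 2) = 0
      have e1 : (zs σ).1 (Sum.inr (b', g)) = z0.1 (Sum.inr (b', g)) := by
        show g (cut mem b' (tpt hi σ)) = g (cut mem b' (fun _ => zI))
        rw [cut_tpt mem hi σ fun k => hiF k b' hb' hM]
      have e2 : ∑ k, sg (σ k) * (zl k).1 (Sum.inr (b', g)) = 0 := by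
        refine Finset.sum_eq_zero fun k _ => ?_
        show sg (σ k) * lin mem (i k) (Sum.inr (b', g)) = 0
        rw [lin_inr, if_neg (hiF k b' hb' hM), mul_zero]
      rw [e1, e2]
      simp
    · rfl
  -- the functionals on the relevant part
  have hrel : ∀ σ g, ∑ k, sg (σ k) * ev mem (zl k) (T g) =
      ev mem (zs σ) (T g) - ev mem z0 (T g) - (n + 2) * ev mem (DM σ) (T g) := by
    intro σ g
    have h1 : (∑ k, sg (σ k) • ev mem (zl k)) (T g) =
        (ev mem (zs σ) - ev mem z0 - ((n : ℝ) + 2) • ev mem (DM σ)) (T g) := by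
      refine agree mem (S := {j | ∀ p, j = Sum.inr p → p.1 ∈ M}) ?_ (hT g)
      intro j hj
      rw [sum_apply, sub_apply, sub_apply]
      show ∑ k, sg (σ k) * (zl k).1 j = (zs σ).1 j - z0.1 j - (n + 2) * (DM σ).1 j
      have h2 : (DM σ).1 j = D σ j := by
        rcases j with c | ⟨b', g'⟩
        · show (0 : ℝ) = D σ (Sum.inl c)
          rw [hD0]
        · show trunc M (D σ) (Sum.inr (b', g')) = _
          rw [trunc_inr, if_pos (hj _ rfl)]
      rw [h2]
      show _ = (zs σ).1 j - z0.1 j - (n + 2) *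
        (((zs σ).1 j - z0.1 j - ∑ k, sg (σ k) * (zl k).1 j) / (n + 2))
      have hpos : (n : ℝ) + 2 ≠ 0 := by positivity
      rw [mul_div_cancel₀ _ hpos]
      ring
    rw [sum_apply, sub_apply, sub_apply] at h1
    exact h1
  -- conclusion
  have key := cotype hn0' (fun k : Fin n => Xc (i k)) (fun k => ?_)
    (fun k => ((ev mem (zl k)).comp T).toLinearMap) (2 * ‖T‖ + 1) ?_
  · have h1 : ∑ k : Fin n, ((ev mem (zl k)).comp T).toLinearMap (Xc (i k)) = n := by
      have h2 : ∀ k : Fin n, ((ev mem (zl k)).comp T).toLinearMap (Xc (i k)) = 1 := by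
        intro k
        show ev mem (zl k) (T (Xc (i k))) = 1
        rw [hTc _ (hib k), ev_coord]
        exact ind_self _
      rw [Finset.sum_congr rfl fun k _ => h2 k]
      simp
    rw [h1] at key
    have hs : 0 < Real.sqrt n := Real.sqrt_pos.2 hn0
    have h7 : Real.sqrt n ≤ 2 * (2 * ‖T‖ + 1) := by
      have h8 : Real.sqrt n * Real.sqrt n ≤ Real.sqrt n * (2 * (2 * ‖T‖ + 1)) := by
        rw [Real.mul_self_sqrt hn0.le]
        linarith
      exact le_of_mul_le_mul_left h8 hs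
    have h9 : (Real.sqrt n) ^ 2 ≤ (2 * (2 * ‖T‖ + 1)) ^ 2 := pow_le_pow_left₀ hs.le h7 2
    rw [Real.sq_sqrt hn0.le] at h9
    nlinarith
  · rw [ContinuousMap.norm_le _ zero_le_one]
    intro q
    exact abs_le.2 ⟨(q (i k)).2.1, (q (i k)).2.2⟩
  · intro σ f hf
    show |∑ k, sg (σ k) * ev mem (zl k) (T f)| ≤ 2 * ‖T‖ + 1
    rw [hrel]
    have hTf : ‖T f‖ ≤ ‖T‖ := (T.le_opNorm f).trans (by
      have := norm_nonneg T
      nlinarith)
    have e1 := (ev_le mem (zs σ) (T f)).trans hTf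
    have e2 := (ev_le mem z0 (T f)).trans hTf
    have e3 := hF (DM σ) (fun c => rfl) (hDMF σ) f hf
    have e4 : |((n : ℝ) + 2) * ev mem (DM σ) (T f)| ≤ 1 := by
      rw [abs_mul, abs_of_pos (by positivity)]
      calc ((n : ℝ) + 2) * |ev mem (DM σ) (T f)| ≤ (n + 2) * (1 / (n + 2)) :=
            mul_le_mul_of_nonneg_left e3 (by positivity)
        _ = 1 := by field_simp
    rw [abs_le] at e1 e2 e4 ⊢
    constructor <;> linarith [e1.1, e1.2, e2.1, e2.2, e4.1, e4.2]

end Pool.Agent.Helper811.Pli
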