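import Mathlib

set_option autoImplicit false

open Set Topology Cardinal

namespace Pool.Agent.Helper811

/-! ### Closing off -/

theorem mk_finsets_le {α : Type} {κ : Cardinal.{0}} (hκ : ℵ₀ ≤ κ) (I : Set α) (hI : #I ≤ κ) :
    #{F : Finset α | (F : Set α) ⊆ I} ≤ κ := by
  classical
  have h1 : #(Finset I) ≤ κ := by
    refine (Cardinal.mk_le_of_surjective (f := List.toFinset (α := I)) List.toFinset_surjective).trans
      ((Cardinal.mk_list_le_max I).trans (max_le hκ hI))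
  refine le_trans ?_ h1
  refine Cardinal.mk_le_of_surjective (f := fun F : Finset I =>
    (⟨F.map (Function.Embedding.subtype _), by
      intro x hx
      simp only [Finset.coe_map, mem_image] at hx
      obtain ⟨y, _, rfl⟩ := hx
      exact y.2⟩ : {F : Finset α | (F : Set α) ⊆ I})) ?_
  rintro ⟨F, hF⟩
  refine ⟨F.subtype (· ∈ I), ?_⟩
  apply Subtype.ext
  show (F.subtype (· ∈ I)).map (Function.Embedding.subtype _) = F
  exact Finset.subtype_map_of_mem (fun x hx => hF hx)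

theorem mk_biUnion_le' {α β : Type} {κ : Cardinal.{0}} (hκ : ℵ₀ ≤ κ) (S : Set β) (hS : #S ≤ κ)
    (A : β → Set α) (hA : ∀ b ∈ S, #(A b) ≤ κ) : #(⋃ b ∈ S, A b : Set α) ≤ κ := by
  rw [biUnion_eq_iUnion]
  refine (Cardinal.mk_iUnion_le _).trans ?_
  refine (mul_le_mul' hS (ciSup_le' fun b : S => hA b.1 b.2)).trans ?_
  rw [Cardinal.mul_eq_self hκ]

theorem mk_iUnion_nat_le' {α : Type} {κ : Cardinal.{0}} (hκ : ℵ₀ ≤ κ)
    (A : ℕ → Set α) (hA : ∀ n, #(A n) ≤ κ) : #(⋃ n, A n : Set α) ≤ κ := by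
  refine (Cardinal.mk_iUnion_le _).trans ?_
  refine (mul_le_mul' (by simpa using hκ) (ciSup_le' fun b : ℕ => hA b)).trans ?_
  rw [Cardinal.mul_eq_self hκ]

theorem mk_union_le' {α : Type} {κ : Cardinal.{0}} (hκ : ℵ₀ ≤ κ)
    (A B : Set α) (hA : #A ≤ κ) (hB : #B ≤ κ) : #(A ∪ B : Set α) ≤ κ :=
  (Cardinal.mk_union_le _ _).trans ((add_le_add hA hB).trans (by rw [Cardinal.add_eq_self hκ]))

/-- Closing off a set of size at most `κ` under a family of set-valued finitary operations. -/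
theorem closing_off {α : Type} {κ : Cardinal.{0}} (hκ : ℵ₀ ≤ κ) (Φ : Finset α → Set α)
    (hΦ : ∀ F, #(Φ F) ≤ κ) (S : Set α) (hS : #S ≤ κ) :
    ∃ I : Set α, S ⊆ I ∧ #I ≤ κ ∧ ∀ F : Finset α, (F : Set α) ⊆ I → Φ F ⊆ I := by
  classical
  let step : Set α → Set α := fun I => I ∪ ⋃ F ∈ {F : Finset α | (F : Set α) ⊆ I}, Φ F
  have hstep : ∀ I : Set α, #I ≤ κ → #(step I) ≤ κ := by
    intro I hI
    exact mk_union_le' hκ _ _ hI
      (mk_biUnion_le' hκ _ (mk_finsets_le hκ I hI) _ (fun F _ => hΦ F))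
  let J : ℕ → Set α := fun k => step^[k] S
  have hJs : ∀ k, J (k + 1) = step (J k) := fun k => Function.iterate_succ_apply' step k S
  have hJc : ∀ k, #(J k) ≤ κ := by
    intro k
    induction k with
    | zero => exact hS
    | succ k ih => rw [hJs]; exact hstep _ ih
  have hJmono : Monotone J := by
    refine monotone_nat_of_le_succ ?_
    intro k
    rw [hJs]
    exact subset_union_left
  refine ⟨⋃ k, J k, subset_iUnion J 0, mk_iUnion_nat_le' hκ _ hJc, ?_⟩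
  intro F hF
  obtain ⟨k, hk⟩ : ∃ k, (F : Set α) ⊆ J k :=
    (directed_of_isDirected_le hJmono).exists_mem_subset_of_finset_subset_biUnion hF
  refine Subset.trans ?_ (subset_iUnion J (k + 1))
  rw [hJs]
  refine Subset.trans ?_ subset_union_right
  exact subset_biUnion_of_mem (u := fun F => Φ F)
    (show F ∈ {F : Finset α | (F : Set α) ⊆ J k} from hk)

/-! ### Approximation by points of countable support -/

/-- Restriction of a point to a set of coordinates. -/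
noncomputable def res {Γ : Type} (I : Set Γ) (x : Γ → ℝ) : Γ → ℝ := I.indicator x

variable {Γ : Type}

theorem res_of_mem {I : Set Γ} {x : Γ → ℝ} {γ : Γ} (h : γ ∈ I) : res I x γ = x γ :=
  indicator_of_mem h _

theorem res_of_notMem {I : Set Γ} {x : Γ → ℝ} {γ : Γ} (h : γ ∉ I) : res I x γ = 0 :=
  indicator_of_notMem h _

theorem continuous_res (I : Set Γ) : Continuous (res I) := by
  refine continuous_pi fun γ => ?_
  by_cases h : γ ∈ I
  · simp only [res_of_mem h]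
    exact continuous_apply γ
  · simp only [res_of_notMem h]
    exact continuous_const

theorem support_res_subset (I : Set Γ) (x : Γ → ℝ) : Function.support (res I x) ⊆ I := by
  intro γ h
  by_contra hne
  exact h (res_of_notMem hne)

theorem res_eq_self {I : Set Γ} {x : Γ → ℝ} (h : Function.support x ⊆ I) : res I x = x :=
  indicator_eq_self.2 h

/-- Basic neighbourhoods in a power of the line. -/
theorem mem_nhds_pi_real {g : Γ → ℝ} {t : Set (Γ → ℝ)} (ht : t ∈ 𝓝 g) :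
    ∃ (F : Finset Γ) (ε : ℝ), 0 < ε ∧ ∀ x : Γ → ℝ, (∀ γ ∈ F, |x γ - g γ| < ε) → x ∈ t := by
  rw [nhds_pi, Filter.mem_pi'] at ht
  obtain ⟨F0, t, htn, hsub⟩ := ht
  have h1 : ∀ γ ∈ F0, ∀ᶠ ε in 𝓝[>] (0 : ℝ), Metric.ball (g γ) ε ⊆ t γ := by
    intro γ _
    obtain ⟨r, hr, hrt⟩ := Metric.mem_nhds_iff.1 (htn γ)
    filter_upwards [Ioo_mem_nhdsGT hr] with ε hε
    exact (Metric.ball_subset_ball hε.2.le).trans hrt
  have h2 := (Filter.eventually_all_finset F0).2 h1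
  obtain ⟨ε, hε1, hε2⟩ := (h2.and self_mem_nhdsWithin).exists
  refine ⟨F0, ε, hε2, fun x hx => hsub ?_⟩
  intro γ hγ
  refine hε1 γ hγ ?_
  rw [Metric.mem_ball, Real.dist_eq]
  exact hx γ hγ

theorem isOpen_box (F : Finset Γ) (g : Γ → ℝ) (ε : ℝ) :
    IsOpen {x : Γ → ℝ | ∀ γ ∈ F, |x γ - g γ| < ε} := by
  have : {x : Γ → ℝ | ∀ γ ∈ F, |x γ - g γ| < ε} =
      ⋂ γ ∈ F, {x : Γ → ℝ | |x γ - g γ| < ε} := by
    ext d; simp
  rw [this]
  refine isOpen_biInter_finset ?_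
  intro γ _
  have h1 : Continuous fun d : Γ → ℝ => |d γ - g γ| := by fun_prop
  exact isOpen_lt h1 continuous_const

/-- Countable approximating families, one for each finite set of coordinates. -/
theorem exists_approx (E : Set ((Γ → ℝ) × (Γ → ℝ))) :
    ∃ c : Finset Γ → Set ((Γ → ℝ) × (Γ → ℝ)), (∀ F, c F ⊆ E ∧ (c F).Countable) ∧
      ∀ p ∈ closure E, ∀ F : Finset Γ, ∀ ε : ℝ, 0 < ε → ∃ d ∈ c F, ∀ γ ∈ F,
        |d.1 γ - p.1 γ| < ε ∧ |d.2 γ - p.2 γ| < ε := by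
  classical
  have h : ∀ F : Finset Γ, ∃ c : Set ((Γ → ℝ) × (Γ → ℝ)), (c ⊆ E ∧ c.Countable) ∧
      ∀ p ∈ closure E, ∀ ε : ℝ, 0 < ε → ∃ d ∈ c, ∀ γ ∈ F,
        |d.1 γ - p.1 γ| < ε ∧ |d.2 γ - p.2 γ| < ε := by
    intro F
    let π : (Γ → ℝ) × (Γ → ℝ) → (F → ℝ) × (F → ℝ) := fun d => (fun γ => d.1 γ, fun γ => d.2 γ)
    obtain ⟨t, htE, htc, htd⟩ :=
      (TopologicalSpace.IsSeparable.of_separableSpace (π '' E)).exists_countable_dense_subset
    have hch : ∀ y : (F → ℝ) × (F → ℝ), ∃ d, y ∈ t → d ∈ E ∧ π d = y := by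
      intro y
      by_cases hy : y ∈ t
      · obtain ⟨d, hd, hdy⟩ := htE hy
        exact ⟨d, fun _ => ⟨hd, hdy⟩⟩
      · exact ⟨(0, 0), fun h => absurd h hy⟩
    choose s hs using hch
    refine ⟨s '' t, ⟨?_, htc.image s⟩, ?_⟩
    · rintro _ ⟨y, hy, rfl⟩
      exact (hs y hy).1
    · intro p hp ε hε
      have hε2 : 0 < ε / 2 := half_pos hε
      obtain ⟨q, hq, hqE⟩ : ∃ q, (∀ γ ∈ F, |q.1 γ - p.1 γ| < ε / 2 ∧ |q.2 γ - p.2 γ| < ε / 2) ∧
          q ∈ E := by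
        have ho : IsOpen ({x : Γ → ℝ | ∀ γ ∈ F, |x γ - p.1 γ| < ε / 2} ×ˢ
            {x : Γ → ℝ | ∀ γ ∈ F, |x γ - p.2 γ| < ε / 2}) :=
          (isOpen_box F p.1 _).prod (isOpen_box F p.2 _)
        obtain ⟨q, hq1, hq2⟩ := mem_closure_iff.1 hp _ ho
          ⟨fun γ _ => by simpa using hε2, fun γ _ => by simpa using hε2⟩
        exact ⟨q, fun γ hγ => ⟨hq1.1 γ hγ, hq1.2 γ hγ⟩, hq2⟩
      have hπq : π q ∈ closure t := htd ⟨q, hqE, rfl⟩
      obtain ⟨y, hyt, hyq⟩ : ∃ y ∈ t, ∀ γ : F, |y.1 γ - q.1 γ| < ε / 2 ∧ |y.2 γ - q.2 γ| < ε / 2 := by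
        have ho : IsOpen ({x : F → ℝ | ∀ γ ∈ (Finset.univ : Finset F), |x γ - q.1 γ| < ε / 2} ×ˢ
            {x : F → ℝ | ∀ γ ∈ (Finset.univ : Finset F), |x γ - q.2 γ| < ε / 2}) :=
          (isOpen_box Finset.univ (fun γ : F => q.1 γ) _).prod
            (isOpen_box Finset.univ (fun γ : F => q.2 γ) _)
        obtain ⟨y, hy1, hy2⟩ := mem_closure_iff.1 hπq _ ho
          ⟨fun γ _ => by simpa [π] using hε2, fun γ _ => by simpa [π] using hε2⟩
        exact ⟨y, hy2, fun γ => ⟨hy1.1 γ (Finset.mem_univ _), hy1.2 γ (Finset.mem_univ _)⟩⟩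
      refine ⟨s y, mem_image_of_mem s hyt, fun γ hγ => ?_⟩
      have e1 : (s y).1 γ = y.1 ⟨γ, hγ⟩ := congrFun (congrArg Prod.fst (hs y hyt).2) ⟨γ, hγ⟩
      have e2 : (s y).2 γ = y.2 ⟨γ, hγ⟩ := congrFun (congrArg Prod.snd (hs y hyt).2) ⟨γ, hγ⟩
      rw [e1, e2]
      have a1 := (hyq ⟨γ, hγ⟩).1
      have a2 := (hyq ⟨γ, hγ⟩).2
      have b1 := (hq γ hγ).1
      have b2 := (hq γ hγ).2
      simp only at a1 a2
      rw [abs_lt] at a1 a2 b1 b2
      constructor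
      · rw [abs_lt]
        constructor <;> linarith [a1.1, a1.2, b1.1, b1.2]
      · rw [abs_lt]
        constructor <;> linarith [a2.1, a2.2, b2.1, b2.2]
  choose c hc1 hc2 using h
  exact ⟨c, hc1, fun p hp F ε hε => hc2 F p hp ε hε⟩

/-- If `I` absorbs the supports of the approximating families, then restriction to `I` maps the
closure of `E` into the closure of the part of the families indexed by finite subsets of `I`. -/
theorem res_mem_closure (E : Set ((Γ → ℝ) × (Γ → ℝ)))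
    (c : Finset Γ → Set ((Γ → ℝ) × (Γ → ℝ)))
    (hc : ∀ p ∈ closure E, ∀ F : Finset Γ, ∀ ε : ℝ, 0 < ε → ∃ d ∈ c F, ∀ γ ∈ F,
        |d.1 γ - p.1 γ| < ε ∧ |d.2 γ - p.2 γ| < ε)
    (I : Set Γ) (hI : ∀ F : Finset Γ, (F : Set Γ) ⊆ I →
      (⋃ d ∈ c F, Function.support d.1 ∪ Function.support d.2) ⊆ I)
    (p : (Γ → ℝ) × (Γ → ℝ)) (hp : p ∈ closure E) :
    (res I p.1, res I p.2) ∈ closure (⋃ F ∈ {F : Finset Γ | (F : Set Γ) ⊆ I}, c F) := by
  classical
  rw [mem_closure_iff_nhds]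
  intro t ht
  rw [nhds_prod_eq, Filter.mem_prod_iff] at ht
  obtain ⟨t1, ht1, t2, ht2, ht⟩ := ht
  obtain ⟨F1, ε1, hε1, hF1⟩ := mem_nhds_pi_real ht1
  obtain ⟨F2, ε2, hε2, hF2⟩ := mem_nhds_pi_real ht2
  let F : Finset Γ := (F1 ∪ F2).filter (fun γ => γ ∈ I)
  have hF : (F : Set Γ) ⊆ I := by
    intro γ hγ
    exact (Finset.mem_filter.1 hγ).2
  obtain ⟨d, hdc, hd⟩ := hc p hp F (min ε1 ε2) (lt_min hε1 hε2)
  have hx : ∀ γ ∈ F1 ∪ F2, |d.1 γ - res I p.1 γ| < min ε1 ε2 ∧ |d.2 γ - res I p.2 γ| < min ε1 ε2 := by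
    intro γ hγ
    by_cases hγI : γ ∈ I
    · have : γ ∈ F := Finset.mem_filter.2 ⟨hγ, hγI⟩
      rw [res_of_mem hγI, res_of_mem hγI]
      exact hd γ this
    · have hsub := hI F hF
      have h1 : d.1 γ = 0 := by
        by_contra hne
        exact hγI (hsub (mem_biUnion hdc (Or.inl hne)))
      have h2 : d.2 γ = 0 := by
        by_contra hne
        exact hγI (hsub (mem_biUnion hdc (Or.inr hne)))
      rw [res_of_notMem hγI, res_of_notMem hγI, h1, h2]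
      simp [hε1, hε2]
  refine ⟨d, ht ⟨hF1 _ ?_, hF2 _ ?_⟩, mem_biUnion (show F ∈ {F : Finset Γ | (F : Set Γ) ⊆ I} from hF) hdc⟩
  · intro γ hγ
    exact (hx γ (Finset.mem_union_left _ hγ)).1.trans_le (min_le_left _ _)
  · intro γ hγ
    exact (hx γ (Finset.mem_union_right _ hγ)).2.trans_le (min_le_right _ _)

/-! ### Countably many open boxes over each finite set of coordinates -/

/-- A countable family of open sets depending on the coordinates in `F` only. -/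
def boxes (F : Finset Γ) : Set (Set (Γ → ℝ)) :=
  (fun t : Set (Set (F → ℝ)) => (fun (x : Γ → ℝ) (γ : F) => x γ) ⁻¹' (⋃₀ t)) ''
    {t | t.Finite ∧ t ⊆ TopologicalSpace.countableBasis (F → ℝ)}

theorem boxes_countable (F : Finset Γ) : (boxes F).Countable :=
  (countable_ofPred_finite_subset (TopologicalSpace.countable_countableBasis _)).image _

theorem boxes_open {F : Finset Γ} {W : Set (Γ → ℝ)} (hW : W ∈ boxes F) : IsOpen W := by
  obtain ⟨t, ht, rfl⟩ := hW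
  refine IsOpen.preimage (by fun_prop) (isOpen_sUnion fun u hu => ?_)
  exact TopologicalSpace.isOpen_of_mem_countableBasis (ht.2 hu)

theorem boxes_det {F : Finset Γ} {W : Set (Γ → ℝ)} (hW : W ∈ boxes F) {x y : Γ → ℝ}
    (h : ∀ γ ∈ F, x γ = y γ) (hx : x ∈ W) : y ∈ W := by
  obtain ⟨t, ht, rfl⟩ := hW
  have : (fun γ : F => y γ) = fun γ : F => x γ := by
    funext γ
    exact (h γ γ.2).symm
  show (fun γ : F => y γ) ∈ ⋃₀ t
  rw [this]
  exact hx

theorem exists_finset_sep {C D : Set (Γ → ℝ)} (hC : IsCompact C) (hD : IsCompact D) (J : Set Γ)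
    (h : ∀ x ∈ C, ∀ y ∈ D, ∃ γ ∈ J, x γ ≠ y γ) :
    ∃ F : Finset Γ, (F : Set Γ) ⊆ J ∧ ∀ x ∈ C, ∀ y ∈ D, ∃ γ ∈ F, x γ ≠ y γ := by
  classical
  have h1 : (C ×ˢ D) ∩ ⋂ γ : J, {p : (Γ → ℝ) × (Γ → ℝ) | p.1 γ = p.2 γ} = ∅ := by
    rw [eq_empty_iff_forall_notMem]
    rintro ⟨x, y⟩ ⟨⟨hx, hy⟩, h2⟩
    obtain ⟨γ, hγ, hne⟩ := h x hx y hy
    exact hne (mem_iInter.1 h2 ⟨γ, hγ⟩)
  obtain ⟨u, hu⟩ := (hC.prod hD).elim_finite_subfamily_closed
    (fun γ : J => {p : (Γ → ℝ) × (Γ → ℝ) | p.1 γ = p.2 γ})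
    (fun γ => isClosed_eq (by fun_prop) (by fun_prop)) h1
  refine ⟨u.map (Function.Embedding.subtype _), ?_, ?_⟩
  · intro x hx
    simp only [Finset.coe_map, mem_image] at hx
    obtain ⟨y, _, rfl⟩ := hx
    exact y.2
  · intro x hx y hy
    by_contra hcon
    have : (x, y) ∈ (C ×ˢ D) ∩ ⋂ γ ∈ u, {p : (Γ → ℝ) × (Γ → ℝ) | p.1 γ = p.2 γ} := by
      refine ⟨⟨hx, hy⟩, mem_iInter₂.2 fun γ hγ => ?_⟩
      by_contra hne
      exact hcon ⟨γ, Finset.mem_map_of_mem (Function.Embedding.subtype _) hγ, hne⟩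
    rw [hu] at this
    exact this

theorem exists_box_sep {C D : Set (Γ → ℝ)} (hC : IsCompact C) (hD : IsCompact D) (J : Set Γ)
    (h : ∀ x ∈ C, ∀ y ∈ D, ∃ γ ∈ J, x γ ≠ y γ) :
    ∃ F : Finset Γ, (F : Set Γ) ⊆ J ∧ ∃ W ∈ boxes F, C ⊆ W ∧ Disjoint D W := by
  classical
  obtain ⟨F, hFJ, hF⟩ := exists_finset_sep hC hD J h
  let π : (Γ → ℝ) → (F → ℝ) := fun x γ => x γ
  have hπ : Continuous π := by fun_prop
  have hCπ : IsCompact (π '' C) := hC.image hπ
  have hDπ : IsCompact (π '' D) := hD.image hπ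
  have hopen : IsOpen (π '' D)ᶜ := hDπ.isClosed.isOpen_compl
  have hsub : π '' C ⊆ (π '' D)ᶜ := by
    rintro _ ⟨x, hx, rfl⟩ ⟨y, hy, hyx⟩
    obtain ⟨γ, hγ, hne⟩ := hF x hx y hy
    exact hne (congrFun hyx ⟨γ, hγ⟩).symm
  -- finite cover by basic sets
  obtain ⟨t, ht1, ht2⟩ : ∃ t : Set (Set (F → ℝ)),
      (t ⊆ {B | B ∈ TopologicalSpace.countableBasis (F → ℝ) ∧ B ⊆ (π '' D)ᶜ} ∧ t.Finite) ∧
      π '' C ⊆ ⋃₀ t := by
    have hcov : π '' C ⊆ ⋃ B ∈ {B | B ∈ TopologicalSpace.countableBasis (F → ℝ) ∧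
        B ⊆ (π '' D)ᶜ}, B := by
      intro z hz
      obtain ⟨B, hB, hzB, hBsub⟩ :=
        (TopologicalSpace.isBasis_countableBasis (F → ℝ)).exists_subset_of_mem_open
          (hsub hz) hopen
      exact mem_biUnion (show B ∈ {B | B ∈ TopologicalSpace.countableBasis (F → ℝ) ∧
        B ⊆ (π '' D)ᶜ} from ⟨hB, hBsub⟩) hzB
    obtain ⟨t, ht, htf, htc⟩ := hCπ.elim_finite_subcover_image
      (fun B hB => TopologicalSpace.isOpen_of_mem_countableBasis hB.1) hcov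
    refine ⟨t, ⟨ht, htf⟩, ?_⟩
    rw [sUnion_eq_biUnion]
    exact htc
  refine ⟨F, hFJ, π ⁻¹' (⋃₀ t), ⟨t, ⟨ht1.2, fun B hB => (ht1.1 hB).1⟩, rfl⟩, ?_, ?_⟩
  · intro x hx
    exact ht2 (mem_image_of_mem π hx)
  · rw [Set.disjoint_left]
    rintro x hx ⟨B, hB, hxB⟩
    exact (ht1.1 hB).2 hxB (mem_image_of_mem π hx)

/-! ### Chains of length omega one -/

/-- A well ordered type of order type omega one. -/
abbrev Om1 : Type := (ℵ₁ : Cardinal.{0}).ord.ToType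

theorem Om1_Iio_countable (i : Om1) : (Iio i).Countable := by
  rw [← Cardinal.le_aleph0_iff_set_countable, ← Cardinal.lt_aleph_one_iff]
  simpa using Cardinal.mk_Iio_lt i (by simp)

theorem Om1_mk : #Om1 = ℵ₁ := Cardinal.mk_ord_toType _

theorem Om1_bdd (S : Set Om1) (hS : S.Countable) : ∃ i, ∀ s ∈ S, s < i := by
  by_contra hcon
  have h : (univ : Set Om1) ⊆ ⋃ s ∈ S, (insert s (Iio s)) := by
    intro i _
    have h1 : ¬ ∀ s ∈ S, s < i := fun h => hcon ⟨i, h⟩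
    obtain ⟨s, hs⟩ := not_forall.1 h1
    obtain ⟨hsS, hsi⟩ := Classical.not_imp.1 hs
    refine mem_biUnion hsS ?_
    rcases (not_lt.1 hsi).eq_or_lt with h2 | h2
    · exact Or.inl h2
    · exact Or.inr h2
  have h2 : (univ : Set Om1).Countable :=
    (hS.biUnion fun s _ => (Om1_Iio_countable s).insert s).mono h
  rw [← Cardinal.le_aleph0_iff_set_countable, ← Cardinal.lt_aleph_one_iff, Cardinal.mk_univ,
    Om1_mk] at h2
  exact lt_irrefl _ h2

/-- Building an increasing chain of countable sets indexed by omega one. -/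
theorem exists_chain {Γ : Type} (P : Om1 → Set Γ → Set Γ → Prop)
    (hP : ∀ i, ∀ S : Set Γ, S.Countable → ∃ N : Set Γ, N.Countable ∧ S ⊆ N ∧ P i S N) :
    ∃ I : Om1 → Set Γ, (∀ i, (I i).Countable) ∧
      ∀ i, (⋃ j ∈ Iio i, I j) ⊆ I i ∧ P i (⋃ j ∈ Iio i, I j) (I i) := by
  classical
  have hN : ∀ i, ∀ S : Set Γ, ∃ N : Set Γ, S.Countable → N.Countable ∧ S ⊆ N ∧ P i S N := by
    intro i S
    by_cases hS : S.Countable
    · obtain ⟨N, hN⟩ := hP i S hS
      exact ⟨N, fun _ => hN⟩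
    · exact ⟨∅, fun h => absurd h hS⟩
  choose N hN using hN
  let I : Om1 → Set Γ := WellFounded.fix (r := ((· < ·) : Om1 → Om1 → Prop)) wellFounded_lt
    (fun i ih => N i (⋃ j : {j // j < i}, ih j.1 j.2))
  have hI : ∀ i, I i = N i (⋃ j ∈ Iio i, I j) := by
    intro i
    have h1 : I i = N i (⋃ j : {j // j < i}, I j.1) := WellFounded.fix_eq _ _ _
    have h2 : (⋃ j : {j // j < i}, I j.1) = ⋃ j ∈ Iio i, I j := by
      ext x
      simp
    rw [h1, h2]
  have hc : ∀ i, (I i).Countable := by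
    intro i
    induction i using WellFoundedLT.induction with
    | ind i ih =>
      rw [hI]
      exact (hN i _ ((Om1_Iio_countable i).biUnion fun j hj => ih j hj)).1
  refine ⟨I, hc, fun i => ?_⟩
  have h := hN i (⋃ j ∈ Iio i, I j) ((Om1_Iio_countable i).biUnion fun j _ => hc j)
  rw [← hI] at h
  exact h.2

/-! ### Compact sets with a dense Sigma-part -/

/-- Points with countable support. -/
def Sg (Γ : Type) : Set (Γ → ℝ) := {x | (Function.support x).Countable}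

/-- Countable supports that make restrictions stay inside `L`. -/
theorem exists_good {L : Set (Γ → ℝ)} (hL : IsCompact L) (hd : L ⊆ closure (L ∩ Sg Γ)) :
    ∃ Ψ : Finset Γ → Set Γ, (∀ F, (Ψ F).Countable) ∧
      ∀ I : Set Γ, (∀ F : Finset Γ, (F : Set Γ) ⊆ I → Ψ F ⊆ I) → ∀ x ∈ L, res I x ∈ L := by
  let E : Set ((Γ → ℝ) × (Γ → ℝ)) := {p | p.1 ∈ L ∩ Sg Γ ∧ p.2 = p.1}
  obtain ⟨c, hcE, hc⟩ := exists_approx E
  refine ⟨fun F => ⋃ d ∈ c F, Function.support d.1 ∪ Function.support d.2, ?_, ?_⟩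
  · intro F
    refine (hcE F).2.biUnion fun d hd => ?_
    have h1 := (hcE F).1 hd
    have h2 : (Function.support d.1).Countable := h1.1.2
    refine h2.union ?_
    rw [h1.2]
    exact h2
  · intro I hI x hx
    have hxE : (x, x) ∈ closure E := by
      have h1 : (fun y : Γ → ℝ => (y, y)) '' closure (L ∩ Sg Γ) ⊆
          closure ((fun y : Γ → ℝ => (y, y)) '' (L ∩ Sg Γ)) :=
        image_closure_subset_closure_image (by fun_prop)
      refine closure_mono ?_ (h1 ⟨x, hd hx, rfl⟩)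
      rintro _ ⟨y, hy, rfl⟩
      exact ⟨hy, rfl⟩
    have h2 := res_mem_closure E c hc I hI (x, x) hxE
    have h3 : closure (⋃ F ∈ {F : Finset Γ | (F : Set Γ) ⊆ I}, c F) ⊆ L ×ˢ L := by
      refine closure_minimal ?_ (hL.isClosed.prod hL.isClosed)
      intro d hd
      obtain ⟨F, _, hdF⟩ := mem_iUnion₂.1 hd
      have h4 := (hcE F).1 hdF
      refine ⟨h4.1.1, ?_⟩
      rw [h4.2]
      exact h4.1.1
    exact (h3 h2).1

/-- Two subsets of the Sigma-part with a common point in their closures have a common point of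
the Sigma-part in the closures of countable subsets. -/
theorem exists_common {L : Set (Γ → ℝ)} (hL : IsCompact L) (B B' : Set (Γ → ℝ))
    (hB : B ⊆ L ∩ Sg Γ) (hB' : B' ⊆ L ∩ Sg Γ) (l : Γ → ℝ) (hl : l ∈ closure B)
    (hl' : l ∈ closure B') :
    ∃ a ∈ L ∩ Sg Γ, ∃ D ⊆ B, ∃ D' ⊆ B', D.Countable ∧ D'.Countable ∧
      a ∈ closure D ∧ a ∈ closure D' := by
  obtain ⟨c, hcE, hc⟩ := exists_approx (B ×ˢ B')
  obtain ⟨I, _, hIc, hI⟩ := closing_off (le_refl ℵ₀)
    (fun F : Finset Γ => ⋃ d ∈ c F, Function.support d.1 ∪ Function.support d.2)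
    (fun F => by
      rw [Cardinal.le_aleph0_iff_set_countable]
      refine (hcE F).2.biUnion fun d hd => ?_
      have h1 := (hcE F).1 hd
      exact (hB h1.1).2.union (hB' h1.2).2) ∅ (by simp)
  rw [Cardinal.le_aleph0_iff_set_countable] at hIc
  have hp : (l, l) ∈ closure (B ×ˢ B') := by
    rw [closure_prod_eq]
    exact ⟨hl, hl'⟩
  have h2 := res_mem_closure (B ×ˢ B') c hc I hI (l, l) hp
  set E' := ⋃ F ∈ {F : Finset Γ | (F : Set Γ) ⊆ I}, c F with hE'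
  have hE'c : E'.Countable := by
    refine Set.Countable.biUnion ?_ fun F _ => (hcE F).2
    rw [← Cardinal.le_aleph0_iff_set_countable]
    exact mk_finsets_le (le_refl _) I (by rwa [Cardinal.le_aleph0_iff_set_countable])
  have hE'B : E' ⊆ B ×ˢ B' := by
    intro d hd
    obtain ⟨F, _, hdF⟩ := mem_iUnion₂.1 hd
    exact (hcE F).1 hdF
  have h3 : E' ⊆ (Prod.fst '' E') ×ˢ (Prod.snd '' E') := fun d hd =>
    ⟨mem_image_of_mem _ hd, mem_image_of_mem _ hd⟩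
  have h4 := closure_mono h3 h2
  rw [closure_prod_eq] at h4
  have h5 : Prod.fst '' E' ⊆ B := by
    rintro _ ⟨d, hd, rfl⟩
    exact (hE'B hd).1
  have h6 : Prod.snd '' E' ⊆ B' := by
    rintro _ ⟨d, hd, rfl⟩
    exact (hE'B hd).2
  refine ⟨res I l, ⟨?_, ?_⟩, _, h5, _, h6, hE'c.image _, hE'c.image _, h4.1, h4.2⟩
  · exact closure_minimal (h5.trans (hB.trans inter_subset_left)) hL.isClosed h4.1
  · exact hIc.mono (support_res_subset I l)

end Pool.Agent.Helper811
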