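import Pool.Agent.Helper811.Plich3
import Pool.Agent.Helper811.Sigma

set_option autoImplicit false

open Set Topology Cardinal

namespace Pool.Agent.Helper811.Pli

open scoped Classical

/-! ### Countable determination of closed spans -/

section General

variable {X : Type} [NormedAddCommGroup X] [NormedSpace ℝ X]

/-- Closed linear span of the image of a set of indices. -/
noncomputable def csp {ι : Type} (e : ι → X) (S : Set ι) : Submodule ℝ X :=
  (Submodule.span ℝ (e '' S)).topologicalClosure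

theorem csp_mono {ι : Type} (e : ι → X) {S S' : Set ι} (h : S ⊆ S') : csp e S ≤ csp e S' :=
  Submodule.topologicalClosure_mono (Submodule.span_mono (image_mono h))

theorem csp_closed {ι : Type} (e : ι → X) (S : Set ι) : IsClosed (csp e S : Set X) :=
  Submodule.isClosed_topologicalClosure _

theorem mem_csp {ι : Type} (e : ι → X) {S : Set ι} {i : ι} (h : i ∈ S) : e i ∈ csp e S :=
  Submodule.le_topologicalClosure _ (Submodule.subset_span (mem_image_of_mem e h))

theorem exists_countable_csp {ι : Type} (e : ι → X) (u : X) (hu : u ∈ csp e Set.univ) :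
    ∃ S : Set ι, S.Countable ∧ u ∈ csp e S := by
  have h1 : u ∈ closure (Submodule.span ℝ (e '' Set.univ) : Set X) := hu
  obtain ⟨x, hx, hxu⟩ := mem_closure_iff_seq_limit.1 h1
  have h2 : ∀ n, ∃ S : Set ι, S.Countable ∧ x n ∈ Submodule.span ℝ (e '' S) := by
    intro n
    obtain ⟨T, hT, hxT⟩ := Submodule.mem_span_finite_of_mem_span (hx n)
    have h3 : ∀ t : T, ∃ i, e i = t.1 := by
      intro t
      obtain ⟨i, _, hi⟩ := hT t.2
      exact ⟨i, hi⟩
    choose g hg using h3
    refine ⟨range g, countable_range g, Submodule.span_mono ?_ hxT⟩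
    intro t ht
    exact ⟨g ⟨t, ht⟩, mem_range_self _, hg ⟨t, ht⟩⟩
  choose S hS hxS using h2
  refine ⟨⋃ n, S n, countable_iUnion hS, ?_⟩
  refine mem_closure_of_tendsto hxu (Filter.Eventually.of_forall fun n => ?_)
  exact Submodule.span_mono (image_mono (subset_iUnion S n)) (hxS n)

/-- Countable families of functionals approximating on finitely many vectors. -/
theorem exists_countable_fun {ι : Type} (e : ι → X) (D : Set (X →L[ℝ] ℝ)) (F : Finset ι) :
    ∃ c : Set (X →L[ℝ] ℝ), c ⊆ D ∧ c.Countable ∧ ∀ φ ∈ D, ∀ ε : ℝ, 0 < ε →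
      ∃ φ' ∈ c, ∀ i ∈ F, |φ' (e i) - φ (e i)| < ε := by
  let π : (X →L[ℝ] ℝ) → (F → ℝ) := fun φ i => φ (e i)
  obtain ⟨t, htE, htc, htd⟩ :=
    (TopologicalSpace.IsSeparable.of_separableSpace (π '' D)).exists_countable_dense_subset
  have hch : ∀ y : F → ℝ, ∃ d, y ∈ t → d ∈ D ∧ π d = y := by
    intro y
    by_cases hy : y ∈ t
    · obtain ⟨d, hd, hdy⟩ := htE hy
      exact ⟨d, fun _ => ⟨hd, hdy⟩⟩
    · exact ⟨0, fun h => absurd h hy⟩
  choose s hs using hch
  refine ⟨s '' t, ?_, htc.image s, ?_⟩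
  · rintro _ ⟨y, hy, rfl⟩
    exact (hs y hy).1
  · intro φ hφ ε hε
    have hπ : π φ ∈ closure t := htd ⟨φ, hφ, rfl⟩
    obtain ⟨y, hy1, hyt⟩ := mem_closure_iff.1 hπ _
      (isOpen_box (Finset.univ : Finset F) (π φ) ε) (fun i _ => by simpa using hε)
    refine ⟨s y, mem_image_of_mem s hyt, fun i hi => ?_⟩
    have e1 : (s y) (e i) = y ⟨i, hi⟩ := congrFun (hs y hyt).2 ⟨i, hi⟩
    rw [e1]
    exact hy1 ⟨i, hi⟩ (Finset.mem_univ _)

/-- The projection associated with a countably norming system. -/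
theorem exists_projection [CompleteSpace X] {ι : Type} (e : ι → X) (hd : csp e Set.univ = ⊤)
    {c : ℝ} (hc : 0 < c)
    (hn : ∀ x : X, ∀ r : ℝ, r < c * ‖x‖ →
      ∃ φ : X →L[ℝ] ℝ, {i | φ (e i) ≠ 0}.Countable ∧ ‖φ‖ ≤ 1 ∧ r < |φ x|)
    (C : Finset ι → Set (X →L[ℝ] ℝ))
    (hC1 : ∀ F, C F ⊆ {φ : X →L[ℝ] ℝ | {i | φ (e i) ≠ 0}.Countable ∧ ‖φ‖ ≤ 1})
    (hC2 : ∀ F, ∀ φ ∈ {φ : X →L[ℝ] ℝ | {i | φ (e i) ≠ 0}.Countable ∧ ‖φ‖ ≤ 1}, ∀ ε : ℝ, 0 < ε →
      ∃ φ' ∈ C F, ∀ i ∈ F, |φ' (e i) - φ (e i)| < ε)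
    (I0 : Set ι) (hI0 : ∀ F : Finset ι, (F : Set ι) ⊆ I0 → ∀ φ ∈ C F, {i | φ (e i) ≠ 0} ⊆ I0) :
    ∃ P : X →L[ℝ] X, (∀ x, P x ∈ csp e I0) ∧ ∀ x ∈ csp e I0, P x = x := by
  let L : (ι →₀ ℝ) →ₗ[ℝ] X := Finsupp.linearCombination ℝ e
  let L0 : (ι →₀ ℝ) →ₗ[ℝ] X := Finsupp.linearCombination ℝ (fun i => if i ∈ I0 then e i else 0)
  have hbound : ∀ a, ‖L0 a‖ ≤ (1 / c) * ‖L a‖ := by
    intro a
    rw [one_div, ← div_eq_inv_mul, le_div_iff₀ hc, mul_comm]
    by_contra hcon
    rw [not_le] at hcon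
    obtain ⟨φ, hφ1, hφ2, hφ3⟩ := hn (L0 a) _ hcon
    -- approximate
    let s : ℝ := ∑ i ∈ a.support, |a i|
    have hs : 0 ≤ s := Finset.sum_nonneg fun i _ => abs_nonneg _
    have hδ : 0 < (|φ (L0 a)| - ‖L a‖) / (s + 1) := div_pos (by linarith) (by linarith)
    obtain ⟨φ', hφ', happ⟩ := hC2 (a.support.filter (· ∈ I0)) φ ⟨hφ1, hφ2⟩ _ hδ
    have hsupp := hI0 (a.support.filter (· ∈ I0)) (fun i hi => by
      have := Finset.mem_coe.1 hi
      exact (Finset.mem_filter.1 this).2) φ' hφ'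
    have hL0 : ∀ ψ : X →L[ℝ] ℝ, ψ (L0 a) = ∑ i ∈ a.support, a i * (if i ∈ I0 then ψ (e i) else 0) := by
      intro ψ
      show ψ (Finsupp.linearCombination ℝ _ a) = _
      rw [Finsupp.linearCombination_apply, Finsupp.sum, map_sum]
      refine Finset.sum_congr rfl fun i _ => ?_
      rw [map_smul, smul_eq_mul]
      split_ifs
      · rfl
      · rw [map_zero]
    have hL : ∀ ψ : X →L[ℝ] ℝ, ψ (L a) = ∑ i ∈ a.support, a i * ψ (e i) := by
      intro ψ
      show ψ (Finsupp.linearCombination ℝ _ a) = _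
      rw [Finsupp.linearCombination_apply, Finsupp.sum, map_sum]
      refine Finset.sum_congr rfl fun i _ => ?_
      rw [map_smul, smul_eq_mul]
    have heq : φ' (L0 a) = φ' (L a) := by
      rw [hL0, hL]
      refine Finset.sum_congr rfl fun i _ => ?_
      split_ifs with h
      · rfl
      · have : φ' (e i) = 0 := by
          by_contra hne
          exact h (hsupp hne)
        rw [this]
    have hdiff : |φ (L0 a) - φ' (L0 a)| ≤ s * ((|φ (L0 a)| - ‖L a‖) / (s + 1)) := by
      rw [hL0 φ, hL0 φ', ← Finset.sum_sub_distrib]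
      refine (Finset.abs_sum_le_sum_abs _ _).trans ?_
      rw [Finset.sum_mul]
      refine Finset.sum_le_sum fun i hi => ?_
      rw [← mul_sub, abs_mul]
      refine mul_le_mul_of_nonneg_left ?_ (abs_nonneg _)
      split_ifs with h
      · rw [abs_sub_comm]
        rw [← hL0 φ]
        exact (happ i (Finset.mem_filter.2 ⟨hi, h⟩)).le
      · rw [sub_self, abs_zero, ← hL0 φ]
        exact hδ.le
    have h1 : |φ' (L a)| ≤ ‖L a‖ := by
      have := φ'.le_opNorm (L a)
      have h2 := (hC1 _ hφ').2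
      rw [Real.norm_eq_abs] at this
      nlinarith [norm_nonneg (L a)]
    have h2 : |φ (L0 a)| ≤ |φ' (L0 a)| + |φ (L0 a) - φ' (L0 a)| := by
      have := abs_add_le (φ' (L0 a)) (φ (L0 a) - φ' (L0 a))
      rwa [add_sub_cancel] at this
    rw [heq] at h2
    have h3 : s * ((|φ (L0 a)| - ‖L a‖) / (s + 1)) < |φ (L0 a)| - ‖L a‖ := by
      rw [mul_div_assoc', div_lt_iff₀ (by linarith)]
      nlinarith
    rw [heq] at hdiff
    linarith
  have hdense : DenseRange L := by
    intro x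
    have h1 : x ∈ csp e Set.univ := by rw [hd]; trivial
    have h2 : (Set.range L : Set X) = (Submodule.span ℝ (e '' Set.univ) : Set X) := by
      rw [image_univ, ← Finsupp.range_linearCombination]
      rfl
    rw [h2]
    exact h1
  let P : X →L[ℝ] X := L0.extendOfNorm L
  have hP : ∀ a, P (L a) = L0 a := fun a => LinearMap.extendOfNorm_eq hdense ⟨_, hbound⟩ a
  refine ⟨P, ?_, ?_⟩
  · intro x
    have h1 : x ∈ closure (Set.range L) := hdense x
    have h2 : IsClosed {x : X | P x ∈ csp e I0} := (csp_closed e I0).preimage P.continuous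
    refine closure_minimal ?_ h2 h1
    rintro _ ⟨a, rfl⟩
    show P (L a) ∈ csp e I0
    rw [hP]
    show Finsupp.linearCombination ℝ _ a ∈ csp e I0
    rw [Finsupp.linearCombination_apply]
    refine Submodule.sum_mem _ fun i _ => Submodule.smul_mem _ _ ?_
    split_ifs with h
    · exact mem_csp e h
    · exact Submodule.zero_mem _
  · intro x hx
    have h1 : csp e I0 ≤ LinearMap.ker (P - ContinuousLinearMap.id ℝ X).toLinearMap := by
      refine Submodule.topologicalClosure_minimal _ ?_ (P - ContinuousLinearMap.id ℝ X).isClosed_ker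
      rw [Submodule.span_le]
      rintro _ ⟨i, hi, rfl⟩
      show (P - ContinuousLinearMap.id ℝ X) (e i) = 0
      have h2 : L (Finsupp.single i 1) = e i := by
        show Finsupp.linearCombination ℝ e _ = _
        rw [Finsupp.linearCombination_single, one_smul]
      have h3 : L0 (Finsupp.single i 1) = e i := by
        show Finsupp.linearCombination ℝ _ _ = _
        rw [Finsupp.linearCombination_single, one_smul, if_pos hi]
      rw [sub_apply, ← h2, hP, h3, h2]
      simp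
    have h2 : (P - ContinuousLinearMap.id ℝ X) x = 0 := h1 hx
    rw [sub_apply] at h2
    have h3 : P x - x = 0 := h2
    exact sub_eq_zero.1 h3

end General

end Pool.Agent.Helper811.Pli
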