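import Pool.Agent.Helper811.Plich4

set_option autoImplicit false

open Set Topology Cardinal

namespace Pool.Agent.Helper811.Pli

open scoped Classical

variable {N A : Type} (mem : A → Set N)

theorem sp_eq (S : Set (J N A)) : sp mem S = csp (coordX mem) S := rfl

/-- The coordinates which belong to a set of branches. -/
def JM (M : Set A) : Set (J N A) := {j | ∀ p, j = Sum.inr p → p.1 ∈ M}

/-- The space has no countably norming linearly dense system. -/
theorem not_plichko [Countable N] (hA : ¬ (Set.univ : Set A).Countable)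
    (hinf : ∀ b, (mem b).Infinite) (had : ∀ b b', b ≠ b' → (mem b ∩ mem b').Finite)
    {ι : Type} (e : ι → XX mem) (hd : csp e Set.univ = ⊤) {c : ℝ} (hc : 0 < c)
    (hn : ∀ x : XX mem, ∀ r : ℝ, r < c * ‖x‖ →
      ∃ φ : XX mem →L[ℝ] ℝ, {i | φ (e i) ≠ 0}.Countable ∧ ‖φ‖ ≤ 1 ∧ r < |φ x|) : False := by
  -- supports of the vectors of the system
  have hM : ∀ i, ∃ S : Set (J N A), S.Countable ∧ e i ∈ csp (coordX mem) S := fun i =>
    exists_countable_csp (coordX mem) (e i) (by
      rw [← sp_eq, sp_univ]; trivial)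
  choose S hSc hS using hM
  -- the branches in terms of the system
  have hI : ∀ b, ∃ I : Set ι, I.Countable ∧ ∀ g, jb mem b g ∈ csp e I := by
    intro b
    have h1 : ∀ n : ℕ, ∃ I : Set ι, I.Countable ∧
        jb mem b (TopologicalSpace.denseSeq C(Q N, ℝ) n) ∈ csp e I := fun n =>
      exists_countable_csp e _ (by rw [hd]; trivial)
    choose I hIc hI using h1
    refine ⟨⋃ n, I n, countable_iUnion hIc, ?_⟩
    intro g
    have h2 : IsClosed {g : C(Q N, ℝ) | jb mem b g ∈ csp e (⋃ n, I n)} :=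
      (csp_closed e _).preimage (jb mem b).continuous
    have h3 : Set.range (TopologicalSpace.denseSeq C(Q N, ℝ)) ⊆
        {g : C(Q N, ℝ) | jb mem b g ∈ csp e (⋃ n, I n)} := by
      rintro _ ⟨n, rfl⟩
      exact csp_mono e (subset_iUnion I n) (hI n)
    exact closure_minimal h3 h2 (TopologicalSpace.denseRange_denseSeq C(Q N, ℝ) g)
  choose Ib hIbc hIb using hI
  have hT : ∀ n : N, ∃ I : Set ι, I.Countable ∧ coordX mem (Sum.inl n) ∈ csp e I := fun n =>
    exists_countable_csp e _ (by rw [hd]; trivial)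
  choose IN hINc hIN using hT
  -- functionals
  have hC := fun F : Finset ι => exists_countable_fun e
    {φ : XX mem →L[ℝ] ℝ | {i | φ (e i) ≠ 0}.Countable ∧ ‖φ‖ ≤ 1} F
  choose C hC1 hCc hC2 using hC
  -- closing off
  let Φ : Finset (ι ⊕ A) → Set (ι ⊕ A) := fun F =>
    ((⋃ i ∈ F.preimage Sum.inl Sum.inl_injective.injOn,
      ⋃ j ∈ S i, {x | ∃ p, j = Sum.inr p ∧ x = Sum.inr p.1}) ∪
    (⋃ b ∈ F.preimage Sum.inr Sum.inr_injective.injOn, Sum.inl '' Ib b)) ∪
    (⋃ φ ∈ C (F.preimage Sum.inl Sum.inl_injective.injOn), Sum.inl '' {i | φ (e i) ≠ 0})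
  have hΦ : ∀ F, #(Φ F) ≤ ℵ₀ := by
    intro F
    rw [Cardinal.le_aleph0_iff_set_countable]
    refine ((?_ : Set.Countable _).union ?_).union ?_
    · refine (Finset.countable_toSet _).biUnion fun i _ => (hSc i).biUnion fun j _ => ?_
      rcases j with n | p
      · refine Set.Countable.mono ?_ countable_empty
        rintro x ⟨p, hp, _⟩
        exact absurd hp (by simp)
      · refine (countable_singleton (Sum.inr p.1 : ι ⊕ A)).mono ?_
        rintro x ⟨p', hp', rfl⟩
        have : p = p' := Sum.inr_injective hp'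
        rw [this]
        rfl
    · exact (Finset.countable_toSet _).biUnion fun b _ => (hIbc b).image _
    · exact (hCc _).biUnion fun φ hφ => (hC1 _ hφ).1.image _
  obtain ⟨I', hSI, hIc, hI'⟩ := closing_off (le_refl ℵ₀) Φ hΦ
    (⋃ n : N, Sum.inl '' IN n) (by
      rw [Cardinal.le_aleph0_iff_set_countable]
      exact countable_iUnion fun n => (hINc n).image _)
  rw [Cardinal.le_aleph0_iff_set_countable] at hIc
  let I0 : Set ι := {i | (Sum.inl i : ι ⊕ A) ∈ I'}
  let M : Set A := {b | (Sum.inr b : ι ⊕ A) ∈ I'}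
  have hMc : M.Countable := hIc.preimage_of_injOn Sum.inr_injective.injOn
  have h1 : ∀ i ∈ I0, e i ∈ csp (coordX mem) (JM M) := by
    intro i hi
    refine csp_mono _ ?_ (hS i)
    rintro j hj p rfl
    have h2 := hI' {Sum.inl i} (by
      rw [Finset.coe_singleton, singleton_subset_iff]
      exact hi)
    refine h2 (Or.inl (Or.inl (mem_biUnion (show i ∈ _ from ?_) (mem_biUnion hj ⟨p, rfl, rfl⟩))))
    simp
  have h2 : ∀ b ∈ M, ∀ g, jb mem b g ∈ csp e I0 := by
    intro b hb g
    refine csp_mono e ?_ (hIb b g)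
    intro i hi
    have h3 := hI' {Sum.inr b} (by
      rw [Finset.coe_singleton, singleton_subset_iff]
      exact hb)
    refine h3 (Or.inl (Or.inr (mem_biUnion (show b ∈ _ from ?_) ⟨i, hi, rfl⟩)))
    simp
  have h3 : ∀ n, coordX mem (Sum.inl n) ∈ csp e I0 := by
    intro n
    refine csp_mono e ?_ (hIN n)
    intro i hi
    exact hSI (mem_iUnion.2 ⟨n, ⟨i, hi, rfl⟩⟩)
  have h4 : ∀ F : Finset ι, (F : Set ι) ⊆ I0 → ∀ φ ∈ C F, {i | φ (e i) ≠ 0} ⊆ I0 := by
    intro F hF φ hφ i hi
    have h5 := hI' (F.map Function.Embedding.inl) (by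
      intro x hx
      simp only [Finset.coe_map, mem_image] at hx
      obtain ⟨y, hy, rfl⟩ := hx
      exact hF hy)
    have h6 : (F.map (Function.Embedding.inl : ι ↪ ι ⊕ A)).preimage Sum.inl
        Sum.inl_injective.injOn = F := by
      ext x
      simp
    refine h5 (Or.inr (mem_biUnion (show φ ∈ _ from ?_) ⟨i, hi, rfl⟩))
    rw [h6]
    exact hφ
  obtain ⟨P, hP1, hP2⟩ := exists_projection e hd hc hn C hC1 hC2 I0 h4
  -- a branch outside
  obtain ⟨b, hb⟩ : ∃ b, b ∉ M := by
    by_contra hcon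
    refine hA (hMc.mono fun b _ => ?_)
    by_contra h
    exact hcon ⟨b, h⟩
  have h5 : csp e I0 ≤ csp (coordX mem) (JM M) := by
    refine Submodule.topologicalClosure_minimal _ ?_ (csp_closed _ _)
    rw [Submodule.span_le]
    rintro _ ⟨i, hi, rfl⟩
    exact h1 i hi
  refine no_ext mem hinf had b M hb (P.comp (jb mem b)) (fun g => h5 (hP1 _)) ?_
  intro n hn'
  show P (jb mem b (Xc n)) = _
  rw [jb_Xc mem b hn', hP2 _ (h3 n)]

end Pool.Agent.Helper811.Pli
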