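import Pool.Agent.Helper811.Plich5

set_option autoImplicit false

open Set Topology

namespace Pool.Agent.Helper811.Pli

open scoped Classical

variable {N A : Type} (mem : A → Set N)

/-- The dual ball. -/
abbrev BB : Type := {φ : WeakDual ℝ (XX mem) // ∀ x : XX mem, |φ x| ≤ ‖x‖}

/-- The evaluation map onto the dual ball. -/
noncomputable def kap (x : KK mem) : BB mem :=
  ⟨StrongDual.toWeakDual (ev mem x), fun u => ev_le mem x u⟩

theorem kap_apply (x : KK mem) (u : XX mem) : (kap mem x).1 u = vl mem u x := rfl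

theorem kap_coord (x : KK mem) (j : J N A) : (kap mem x).1 (coordX mem j) = x.1 j := rfl

theorem kap_continuous : Continuous (kap mem) := by
  refine Continuous.subtype_mk ?_ _
  refine WeakDual.continuous_of_continuous_eval fun u => ?_
  exact (vl mem u).continuous

/-- The underlying functional. -/
noncomputable def fn (φ : BB mem) : XX mem →L[ℝ] ℝ := WeakDual.toStrongDual φ.1

theorem fn_apply (φ : BB mem) (u : XX mem) : fn mem φ u = φ.1 u := rfl

/-- The point of the compact set. -/
noncomputable def inv (φ : BB mem) : KK mem := ⟨_, pt_mem mem (fn mem φ) φ.2⟩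

theorem inv_coord (φ : BB mem) (j : J N A) : (inv mem φ).1 j = φ.1 (coordX mem j) := rfl

theorem kap_inv (φ : BB mem) : kap mem (inv mem φ) = φ := by
  apply Subtype.ext
  have h1 : ev mem (inv mem φ) = fn mem φ := ev_pt mem (fn mem φ) φ.2
  have h2 : (kap mem (inv mem φ)).1 = StrongDual.toWeakDual (fn mem φ) := by
    show StrongDual.toWeakDual (ev mem (inv mem φ)) = _
    rw [h1]
  rw [h2]
  rfl

instance : CompactSpace (BB mem) :=
  Function.Surjective.compactSpace (f := kap mem) (kap_continuous mem) (fun φ => ⟨_, kap_inv mem φ⟩)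

theorem BB_ext {φ ψ : BB mem} (h : ∀ j, φ.1 (coordX mem j) = ψ.1 (coordX mem j)) : φ = ψ := by
  rw [← kap_inv mem φ, ← kap_inv mem ψ]
  congr 1
  apply Subtype.ext
  funext j
  exact h j

/-- The base point in the cube. -/
noncomputable def bp (φ : BB mem) : Q N := fun c => ⟨φ.1 (coordX mem (Sum.inl c)), by
  rw [mem_Icc, ← abs_le]
  exact (inv mem φ).2.1 c⟩

theorem bp_continuous : Continuous (bp mem) := by
  refine continuous_pi fun c => ?_
  refine Continuous.subtype_mk ?_ _
  exact (WeakDual.eval_continuous _).comp continuous_subtype_val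

theorem cut_continuous (b : A) : Continuous (cut mem b) := by
  refine continuous_pi fun c => ?_
  by_cases h : c ∈ mem b
  · simp only [cut, h, if_true]
    exact continuous_apply c
  · simp only [cut, h, if_false]
    exact continuous_const

/-- The embedding. -/
noncomputable def emb (d : ℕ → C(Q N, ℝ)) (φ : BB mem) : N ⊕ (A × ℕ) → ℝ :=
  Sum.elim (fun c => φ.1 (coordX mem (Sum.inl c)))
    (fun p => (φ.1 (coordX mem (Sum.inr (p.1, d p.2))) - d p.2 (cut mem p.1 (bp mem φ))) /
      (2 * ‖d p.2‖ + 1))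

theorem emb_inr (d : ℕ → C(Q N, ℝ)) (φ : BB mem) (b : A) (n : ℕ) : emb mem d φ (Sum.inr (b, n)) =
    (φ.1 (coordX mem (Sum.inr (b, d n))) - d n (cut mem b (bp mem φ))) / (2 * ‖d n‖ + 1) := rfl

theorem emb_continuous (d : ℕ → C(Q N, ℝ)) : Continuous (emb mem d) := by
  refine continuous_pi fun γ => ?_
  rcases γ with c | ⟨b, n⟩
  · exact (WeakDual.eval_continuous _).comp continuous_subtype_val
  · refine Continuous.div_const (Continuous.sub ?_ ?_) _
    · exact (WeakDual.eval_continuous _).comp continuous_subtype_val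
    · exact (d n).continuous.comp ((cut_continuous mem b).comp (bp_continuous mem))

theorem emb_bound (d : ℕ → C(Q N, ℝ)) (φ : BB mem) (γ : N ⊕ (A × ℕ)) : |emb mem d φ γ| ≤ 1 := by
  rcases γ with c | ⟨b, n⟩
  · exact (inv mem φ).2.1 c
  · rw [emb_inr, abs_div]
    have hpos : 0 < 2 * ‖d n‖ + 1 := by positivity
    rw [abs_of_pos hpos, div_le_one hpos]
    have h1 : |φ.1 (coordX mem (Sum.inr (b, d n)))| ≤ ‖d n‖ := (inv mem φ).2.2.1 b (d n)
    have h2 : |d n (cut mem b (bp mem φ))| ≤ ‖d n‖ := (d n).norm_coe_le_norm _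
    have h3 := abs_sub (φ.1 (coordX mem (Sum.inr (b, d n)))) (d n (cut mem b (bp mem φ)))
    linarith

theorem emb_injective (d : ℕ → C(Q N, ℝ)) (hd : DenseRange d) :
    Function.Injective (emb mem d) := by
  intro φ ψ h
  have h1 : ∀ c, φ.1 (coordX mem (Sum.inl c)) = ψ.1 (coordX mem (Sum.inl c)) := fun c =>
    congrFun h (Sum.inl c)
  have hbp : bp mem φ = bp mem ψ := by
    funext c
    exact Subtype.ext (h1 c)
  have h2 : ∀ b n, φ.1 (coordX mem (Sum.inr (b, d n))) = ψ.1 (coordX mem (Sum.inr (b, d n))) := by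
    intro b n
    have h3 := congrFun h (Sum.inr (b, n))
    rw [emb_inr, emb_inr, hbp] at h3
    have hpos : 2 * ‖d n‖ + 1 ≠ 0 := by positivity
    have h4 := (div_left_inj' hpos).1 h3
    linarith
  have h3 : ∀ b g, φ.1 (coordX mem (Sum.inr (b, g))) = ψ.1 (coordX mem (Sum.inr (b, g))) := by
    intro b g
    have hcl : IsClosed {g : C(Q N, ℝ) | fn mem φ (jb mem b g) = fn mem ψ (jb mem b g)} :=
      isClosed_eq ((fn mem φ).continuous.comp (jb mem b).continuous)
        ((fn mem ψ).continuous.comp (jb mem b).continuous)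
    have hsub : Set.range d ⊆ {g : C(Q N, ℝ) | fn mem φ (jb mem b g) = fn mem ψ (jb mem b g)} := by
      rintro _ ⟨n, rfl⟩
      exact h2 b n
    exact closure_minimal hsub hcl (hd g)
  refine BB_ext mem fun j => ?_
  rcases j with c | ⟨b, g⟩
  · exact h1 c
  · exact h3 b g

/-- Modification of a point outside of finitely many branches. -/
noncomputable def modi (F : Finset A) (t : Q N) (m : J N A → ℝ) : J N A → ℝ :=
  Sum.elim (fun c => m (Sum.inl c))
    (fun p => if p.1 ∈ F then m (Sum.inr p) else p.2 (cut mem p.1 t))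

theorem modi_inr (F : Finset A) (t : Q N) (m : J N A → ℝ) (b : A) (g : C(Q N, ℝ)) :
    modi mem F t m (Sum.inr (b, g)) = if b ∈ F then m (Sum.inr (b, g)) else g (cut mem b t) := rfl

theorem modi_mem (F : Finset A) {t : Q N} {m : J N A → ℝ} (hm : m ∈ KK mem)
    (ht : ∀ c, m (Sum.inl c) = t c) : modi mem F t m ∈ KK mem := by
  refine ⟨?_, ?_, ?_, ?_, ?_⟩
  · intro c
    exact hm.1 c
  · intro b g
    rw [modi_inr]
    split_ifs
    · exact hm.2.1 b g
    · exact g.norm_coe_le_norm _
  · intro b g h
    simp only [modi_inr]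
    split_ifs
    · exact hm.2.2.1 b g h
    · rfl
  · intro b s g
    simp only [modi_inr]
    split_ifs
    · exact hm.2.2.2.1 b s g
    · rfl
  · intro b c hc
    rw [modi_inr]
    show _ = m (Sum.inl c)
    split_ifs
    · exact hm.2.2.2.2 b c hc
    · rw [ht]
      show ((cut mem b t c : Set.Icc (-1 : ℝ) 1) : ℝ) = t c
      rw [cut_of_mem mem hc]

theorem emb_dense [Countable N] (d : ℕ → C(Q N, ℝ)) :
    Dense {φ : BB mem | (Function.support (emb mem d φ)).Countable} := by
  intro φ
  let x := inv mem φ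
  let y : Finset A → KK mem := fun F => ⟨modi mem F (bp mem φ) x.1,
    modi_mem mem F x.2 fun c => rfl⟩
  have h1 : Filter.Tendsto y Filter.atTop (𝓝 x) := by
    rw [tendsto_subtype_rng, tendsto_pi_nhds]
    intro j
    refine tendsto_const_nhds.congr' ?_
    rcases j with c | ⟨b, g⟩
    · exact Filter.Eventually.of_forall fun F => rfl
    · filter_upwards [Filter.eventually_ge_atTop {b}] with F hF
      have hb : b ∈ F := hF (Finset.mem_singleton_self b)
      show x.1 (Sum.inr (b, g)) = modi mem F (bp mem φ) x.1 (Sum.inr (b, g))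
      rw [modi_inr, if_pos hb]
  have h2 : Filter.Tendsto (fun F => kap mem (y F)) Filter.atTop (𝓝 φ) := by
    have := ((kap_continuous mem).tendsto x).comp h1
    rwa [kap_inv mem φ] at this
  refine mem_closure_of_tendsto h2 (Filter.Eventually.of_forall fun F => ?_)
  have h3 : Function.support (emb mem d (kap mem (y F))) ⊆
      Set.range Sum.inl ∪ Sum.inr '' ((F : Set A) ×ˢ (Set.univ : Set ℕ)) := by
    rintro (c | ⟨b, n⟩) h
    · exact Or.inl ⟨c, rfl⟩
    · right
      refine ⟨(b, n), ⟨?_, mem_univ _⟩, rfl⟩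
      by_contra hb
      apply h
      rw [emb_inr]
      have h4 : (kap mem (y F)).1 (coordX mem (Sum.inr (b, d n))) =
          d n (cut mem b (bp mem (kap mem (y F)))) := by
        rw [kap_coord]
        show modi mem F (bp mem φ) x.1 (Sum.inr (b, d n)) = _
        rw [modi_inr, if_neg (fun h => hb (by exact_mod_cast h))]
        rfl
      rw [h4, sub_self, zero_div]
  exact ((countable_range _).union
    ((F.countable_toSet.prod Set.countable_univ).image _)).mono h3

theorem valdivia [Countable N] :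
    ∃ (Γ : Type) (h : {φ : WeakDual ℝ (XX mem) // ∀ x : XX mem, |φ x| ≤ ‖x‖} → (Γ → ℝ)),
      Topology.IsEmbedding h ∧ (∀ b γ, |h b γ| ≤ 1) ∧
      Dense {b : {φ : WeakDual ℝ (XX mem) // ∀ x : XX mem, |φ x| ≤ ‖x‖} |
        (Function.support (h b)).Countable} := by
  let d := TopologicalSpace.denseSeq C(Q N, ℝ)
  exact ⟨N ⊕ (A × ℕ), emb mem d, ((emb_continuous mem d).isClosedEmbedding
    (emb_injective mem d (TopologicalSpace.denseRange_denseSeq _))).isEmbedding,
    emb_bound mem d, emb_dense mem d⟩

/-! ### An almost disjoint family -/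

/-- The branches of the binary tree. -/
def br (x : ℕ → Bool) : Set (List Bool) := Set.range fun n : ℕ => List.ofFn fun i : Fin n => x i

theorem br_infinite (x : ℕ → Bool) : (br x).Infinite := by
  refine Set.infinite_range_of_injective ?_
  intro n m h
  have := congrArg List.length h
  simpa using this

theorem br_disj (x y : ℕ → Bool) (h : x ≠ y) : (br x ∩ br y).Finite := by
  obtain ⟨k, hk⟩ := Function.ne_iff.1 h
  refine ((Set.finite_Iic k).image fun n : ℕ => List.ofFn fun i : Fin n => x i).subset ?_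
  rintro l ⟨⟨n, rfl⟩, ⟨m, hm⟩⟩
  refine ⟨n, ?_, rfl⟩
  rw [mem_Iic]
  by_contra hlt
  rw [not_le] at hlt
  have hnm : m = n := by
    have := congrArg List.length hm
    simpa using this
  subst hnm
  have h1 := List.ofFn_injective hm
  exact hk (congrFun h1 ⟨k, hlt⟩).symm

theorem bool_uncountable : ¬ (Set.univ : Set (ℕ → Bool)).Countable := by
  rw [← Cardinal.le_aleph0_iff_set_countable, Cardinal.mk_univ, not_le]
  have : Cardinal.mk (ℕ → Bool) = 2 ^ Cardinal.aleph0 := by simp
  rw [this]
  exact Cardinal.cantor _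

end Pool.Agent.Helper811.Pli
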