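import Pool.Agent.Helper811.Sigma

set_option autoImplicit false

open Set Topology Cardinal

namespace Pool.Agent.Helper811

/-- A continuous function on a compact space is determined by countably many members of a
separating family. -/
theorem exists_countable_det {T ι Y Z : Type} [TopologicalSpace T] [CompactSpace T]
    [TopologicalSpace Y] [T2Space Y] [MetricSpace Z]
    (f : ι → T → Y) (hf : ∀ i, Continuous (f i)) (hinj : ∀ x y, (∀ i, f i x = f i y) → x = y)
    (g : T → Z) (hg : Continuous g) :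
    ∃ J : Set ι, J.Countable ∧ ∀ x y, (∀ i ∈ J, f i x = f i y) → g x = g y := by
  classical
  have h : ∀ n : ℕ, ∃ u : Finset ι, ∀ x y, (∀ i ∈ u, f i x = f i y) →
      dist (g x) (g y) < 1 / ((n : ℝ) + 1) := by
    intro n
    have hN : IsCompact {p : T × T | 1 / ((n : ℝ) + 1) ≤ dist (g p.1) (g p.2)} :=
      (isClosed_le (by fun_prop) (by fun_prop)).isCompact
    have h1 : {p : T × T | 1 / ((n : ℝ) + 1) ≤ dist (g p.1) (g p.2)} ∩
        ⋂ i : ι, {p : T × T | f i p.1 = f i p.2} = ∅ := by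
      rw [eq_empty_iff_forall_notMem]
      rintro ⟨x, y⟩ ⟨hx, hy⟩
      have hxy : x = y := hinj x y fun i => mem_iInter.1 hy i
      subst hxy
      have : (1 : ℝ) / ((n : ℝ) + 1) ≤ 0 := by simpa using hx
      have hpos : (0 : ℝ) < 1 / ((n : ℝ) + 1) := by positivity
      linarith
    obtain ⟨u, hu⟩ := hN.elim_finite_subfamily_closed (fun i => {p : T × T | f i p.1 = f i p.2})
      (fun i => isClosed_eq ((hf i).comp continuous_fst) ((hf i).comp continuous_snd)) h1
    refine ⟨u, fun x y hxy => ?_⟩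
    by_contra hcon
    have : (x, y) ∈ {p : T × T | 1 / ((n : ℝ) + 1) ≤ dist (g p.1) (g p.2)} ∩
        ⋂ i ∈ u, {p : T × T | f i p.1 = f i p.2} :=
      ⟨not_lt.1 hcon, mem_iInter₂.2 fun i hi => hxy i hi⟩
    rw [hu] at this
    exact this
  choose u hu using h
  refine ⟨⋃ n, (u n : Set ι), countable_iUnion fun n => (u n).countable_toSet, ?_⟩
  intro x y hxy
  rw [← dist_le_zero]
  refine le_of_forall_pos_le_add fun ε hε => ?_
  obtain ⟨n, hn⟩ := exists_nat_one_div_lt hε
  have := hu n x y fun i hi => hxy i (mem_iUnion.2 ⟨n, hi⟩)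
  linarith

/-- The index set used for encoding a pair of points, a combination and its parameters. -/
abbrev Enc (Γ : Type) : Type := (Fin 3 × Γ) ⊕ Fin 4

/-- Retractions onto countable coordinate sets which respect a compact family of binary
operations and countably many continuous coordinates. -/
theorem exists_retraction {T P Γ ι Λ Y : Type} [TopologicalSpace T] [CompactSpace T]
    [TopologicalSpace P] [CompactSpace P] [Nonempty P] [MetricSpace Y]
    (H : T → (Γ → ℝ)) (hH : Continuous H) (hHinj : Function.Injective H)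
    (hdense : Dense {x | (Function.support (H x)).Countable})
    (enc : P → (Fin 4 → ℝ)) (henc : Continuous enc) (hencinj : Function.Injective enc)
    (comb : P → T → T → T) (hcomb : Continuous fun q : P × T × T => comb q.1 q.2.1 q.2.2)
    (hcombD : ∀ p x y, (Function.support (H x)).Countable → (Function.support (H y)).Countable →
      (Function.support (H (comb p x y))).Countable)
    (χ : ι → T → Y) (hχ : ∀ c, Continuous (χ c)) (hχinj : ∀ x y, (∀ c, χ c x = χ c y) → x = y)
    (lab : ι → Finset Λ) (hlab : ∀ F : Finset Λ, {c | lab c ⊆ F}.Countable)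
    (S : Set Λ) (hS : S.Countable) :
    ∃ (I : Set Γ) (M : Set Λ) (r : T → T), S ⊆ M ∧ M.Countable ∧ Continuous r ∧
      (∀ x, H (r x) = res I (H x)) ∧
      (∀ p x y, r (comb p x y) = comb p (r x) (r y)) ∧
      (∀ x c, (lab c : Set Λ) ⊆ M → χ c (r x) = χ c x) ∧
      (∀ x y, (∀ c, (lab c : Set Λ) ⊆ M → χ c x = χ c y) → r x = r y) := by
  classical
  -- the encoded compact set
  let G : T × T × P → (Enc Γ → ℝ) := fun q =>
    Sum.elim (fun jg : Fin 3 × Γ => (![H q.1, H q.2.1, H (comb q.2.2 q.1 q.2.1)] : Fin 3 → Γ → ℝ) jg.1 jg.2)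
      (enc q.2.2)
  have hG0 : ∀ q γ, G q (Sum.inl (0, γ)) = H q.1 γ := fun q γ => rfl
  have hG1 : ∀ q γ, G q (Sum.inl (1, γ)) = H q.2.1 γ := fun q γ => rfl
  have hG2 : ∀ q γ, G q (Sum.inl (2, γ)) = H (comb q.2.2 q.1 q.2.1) γ := fun q γ => rfl
  have hG3 : ∀ q j, G q (Sum.inr j) = enc q.2.2 j := fun q j => rfl
  have hcomb' : Continuous fun q : T × T × P => comb q.2.2 q.1 q.2.1 :=
    hcomb.comp (f := fun q : T × T × P => (q.2.2, q.1, q.2.1)) (by fun_prop)
  have hGc : Continuous G := by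
    refine continuous_pi fun e => ?_
    rcases e with ⟨j, γ⟩ | j
    · have h0 : Continuous fun q => G q (Sum.inl (0, γ)) := by
        simp only [hG0]
        exact (continuous_apply γ).comp (hH.comp continuous_fst)
      have h1 : Continuous fun q => G q (Sum.inl (1, γ)) := by
        simp only [hG1]
        exact (continuous_apply γ).comp (hH.comp (continuous_fst.comp continuous_snd))
      have h2 : Continuous fun q => G q (Sum.inl (2, γ)) := by
        simp only [hG2]
        exact (continuous_apply γ).comp (hH.comp hcomb')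
      fin_cases j
      · exact h0
      · exact h1
      · exact h2
    · simp only [hG3]
      exact (continuous_apply j).comp (henc.comp (continuous_snd.comp continuous_snd))
  set D : Set T := {x | (Function.support (H x)).Countable} with hD
  have hDG : ∀ q : T × T × P, q.1 ∈ D → q.2.1 ∈ D → G q ∈ Sg (Enc Γ) := by
    intro q h0 h1
    have h2 : (Function.support (H (comb q.2.2 q.1 q.2.1))).Countable := hcombD _ _ _ h0 h1
    have h3 : Function.support (G q) ⊆
        (fun γ => (Sum.inl (0, γ) : Enc Γ)) '' (Function.support (H q.1)) ∪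
        (fun γ => (Sum.inl (1, γ) : Enc Γ)) '' (Function.support (H q.2.1)) ∪
        (fun γ => (Sum.inl (2, γ) : Enc Γ)) '' (Function.support (H (comb q.2.2 q.1 q.2.1))) ∪
        range (Sum.inr : Fin 4 → Enc Γ) := by
      rintro (⟨j, γ⟩ | j) he
      · fin_cases j
        · exact Or.inl (Or.inl (Or.inl ⟨γ, he, rfl⟩))
        · exact Or.inl (Or.inl (Or.inr ⟨γ, he, rfl⟩))
        · exact Or.inl (Or.inr ⟨γ, he, rfl⟩)
      · exact Or.inr ⟨j, rfl⟩
    exact (((((show (Function.support (H q.1)).Countable from h0).image _).union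
      ((show (Function.support (H q.2.1)).Countable from h1).image _)).union
      (h2.image _)).union (countable_range _)).mono h3
  have hL : IsCompact (range G) := isCompact_range hGc
  have hLd : range G ⊆ closure (range G ∩ Sg (Enc Γ)) := by
    rintro _ ⟨q, rfl⟩
    have h1 : q ∈ closure {q : T × T × P | q.1 ∈ D ∧ q.2.1 ∈ D} := by
      have h2 : {q : T × T × P | q.1 ∈ D ∧ q.2.1 ∈ D} = D ×ˢ (D ×ˢ (Set.univ : Set P)) := by
        ext q
        simp
      rw [h2, closure_prod_eq, closure_prod_eq]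
      exact ⟨hdense _, hdense _, subset_closure (mem_univ _)⟩
    have h3 := image_closure_subset_closure_image hGc (mem_image_of_mem G h1)
    refine closure_mono ?_ h3
    rintro _ ⟨q', hq', rfl⟩
    exact ⟨mem_range_self _, hDG q' hq'.1 hq'.2⟩
  obtain ⟨Ψ, hΨc, hΨ⟩ := exists_good hL hLd
  -- determination
  have hJ : ∀ c, ∃ J : Set Γ, J.Countable ∧ ∀ x y, (∀ γ ∈ J, H x γ = H y γ) → χ c x = χ c y :=
    fun c => exists_countable_det (fun γ x => H x γ)
      (fun γ => (continuous_apply γ).comp hH) (fun x y h => hHinj (funext h)) (χ c) (hχ c)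
  choose J hJc hJ using hJ
  have hN : ∀ γ, ∃ N : Set ι, N.Countable ∧ ∀ x y, (∀ c ∈ N, χ c x = χ c y) → H x γ = H y γ :=
    fun γ => exists_countable_det χ hχ hχinj (fun x => H x γ) ((continuous_apply γ).comp hH)
  choose N hNc hN using hN
  -- closing off
  let Φ : Finset (Enc Γ ⊕ Λ) → Set (Enc Γ ⊕ Λ) := fun F =>
    (Sum.inl '' Ψ (F.preimage Sum.inl Sum.inl_injective.injOn)) ∪
    (⋃ γ ∈ {γ : Γ | ∃ j : Fin 3, (Sum.inl (Sum.inl (j, γ)) : Enc Γ ⊕ Λ) ∈ F},
      (range (fun j : Fin 3 => (Sum.inl (Sum.inl (j, γ)) : Enc Γ ⊕ Λ)) ∪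
        ⋃ c ∈ N γ, Sum.inr '' (lab c : Set Λ))) ∪
    (⋃ c ∈ {c | lab c ⊆ F.preimage Sum.inr Sum.inr_injective.injOn},
      (fun γ => (Sum.inl (Sum.inl (0, γ)) : Enc Γ ⊕ Λ)) '' J c)
  have hΦ : ∀ F, #(Φ F) ≤ ℵ₀ := by
    intro F
    rw [Cardinal.le_aleph0_iff_set_countable]
    refine (((hΨc _).image _).union ?_).union ?_
    · refine Set.Countable.biUnion ?_ fun γ _ => ?_
      · have : {γ : Γ | ∃ j : Fin 3, (Sum.inl (Sum.inl (j, γ)) : Enc Γ ⊕ Λ) ∈ F} =
            ⋃ j : Fin 3, (fun γ => (Sum.inl (Sum.inl (j, γ)) : Enc Γ ⊕ Λ)) ⁻¹' (F : Set (Enc Γ ⊕ Λ)) := by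
          ext γ
          simp
        rw [this]
        refine countable_iUnion fun j => ?_
        refine (F.countable_toSet).preimage_of_injOn ?_
        intro γ _ γ' _ h
        simpa using h
      · refine (countable_range _).union ?_
        exact (hNc γ).biUnion fun c _ => (lab c).countable_toSet.image _
    · exact (hlab _).biUnion fun c _ => (hJc c).image _
  obtain ⟨I', hSI, hIc, hI⟩ := closing_off (le_refl ℵ₀) Φ hΦ
    ((Sum.inr '' S) ∪ range (fun j : Fin 4 => (Sum.inl (Sum.inr j) : Enc Γ ⊕ Λ)))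
    (by
      rw [Cardinal.le_aleph0_iff_set_countable]
      exact (hS.image _).union (countable_range _))
  rw [Cardinal.le_aleph0_iff_set_countable] at hIc
  -- the components
  let I : Set Γ := {γ | (Sum.inl (Sum.inl (0, γ)) : Enc Γ ⊕ Λ) ∈ I'}
  let M : Set Λ := {l | (Sum.inr l : Enc Γ ⊕ Λ) ∈ I'}
  let IG : Set (Enc Γ) := {e | (Sum.inl e : Enc Γ ⊕ Λ) ∈ I'}
  have hsym : ∀ γ (j j' : Fin 3), (Sum.inl (Sum.inl (j, γ)) : Enc Γ ⊕ Λ) ∈ I' →
      (Sum.inl (Sum.inl (j', γ)) : Enc Γ ⊕ Λ) ∈ I' := by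
    intro γ j j' h
    have h1 := hI {(Sum.inl (Sum.inl (j, γ)) : Enc Γ ⊕ Λ)} (by simpa using h)
    refine h1 (Or.inl (Or.inr (mem_biUnion (show γ ∈ _ from ⟨j, by simp⟩) (Or.inl ⟨j', rfl⟩))))
  have hIG : ∀ γ (j : Fin 3), (Sum.inl (j, γ) : Enc Γ) ∈ IG ↔ γ ∈ I := by
    intro γ j
    exact ⟨fun h => hsym γ j 0 h, fun h => hsym γ 0 j h⟩
  have hIG4 : ∀ j : Fin 4, (Sum.inr j : Enc Γ) ∈ IG := fun j => hSI (Or.inr ⟨j, rfl⟩)
  have hIGΨ : ∀ F : Finset (Enc Γ), (F : Set (Enc Γ)) ⊆ IG → Ψ F ⊆ IG := by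
    intro F hF e he
    have h1 := hI (F.map Function.Embedding.inl) (by
      intro x hx
      simp only [Finset.coe_map, mem_image] at hx
      obtain ⟨y, hy, rfl⟩ := hx
      exact hF hy)
    refine h1 (Or.inl (Or.inl ⟨e, ?_, rfl⟩))
    have h2 : (F.map (Function.Embedding.inl : Enc Γ ↪ Enc Γ ⊕ Λ)).preimage Sum.inl
        Sum.inl_injective.injOn = F := by
      ext x
      simp
    rw [h2]
    exact he
  have hMN : ∀ γ ∈ I, ∀ c ∈ N γ, (lab c : Set Λ) ⊆ M := by
    intro γ hγ c hc l hl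
    have h1 := hI {(Sum.inl (Sum.inl (0, γ)) : Enc Γ ⊕ Λ)} (by
      rw [Finset.coe_singleton, singleton_subset_iff]
      exact hγ)
    exact h1 (Or.inl (Or.inr (mem_biUnion (show γ ∈ _ from ⟨0, by simp⟩)
      (Or.inr (mem_biUnion hc ⟨l, hl, rfl⟩)))))
  have hMJ : ∀ c, (lab c : Set Λ) ⊆ M → J c ⊆ I := by
    intro c hc γ hγ
    have h1 := hI ((lab c).map Function.Embedding.inr) (by
      intro x hx
      simp only [Finset.coe_map, mem_image] at hx
      obtain ⟨y, hy, rfl⟩ := hx
      exact hc hy)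
    refine h1 (Or.inr (mem_biUnion (show c ∈ _ from ?_) ⟨γ, hγ, rfl⟩))
    intro l hl
    simpa using hl
  -- the retraction
  have hkey : ∀ q : T × T × P, ∃ q' : T × T × P, H q'.1 = res I (H q.1) ∧
      H q'.2.1 = res I (H q.2.1) ∧ q'.2.2 = q.2.2 ∧
      H (comb q'.2.2 q'.1 q'.2.1) = res I (H (comb q.2.2 q.1 q.2.1)) := by
    intro q
    obtain ⟨q', hq'⟩ := hΨ IG hIGΨ (G q) (mem_range_self q)
    have hval : ∀ (j : Fin 3) γ, G q' (Sum.inl (j, γ)) = if γ ∈ I then G q (Sum.inl (j, γ)) else 0 := by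
      intro j γ
      rw [hq']
      by_cases h : γ ∈ I
      · rw [res_of_mem ((hIG γ j).2 h), if_pos h]
      · rw [res_of_notMem (fun h' => h ((hIG γ j).1 h')), if_neg h]
    have hres : ∀ (x : Γ → ℝ) γ, res I x γ = if γ ∈ I then x γ else 0 := by
      intro x γ
      by_cases h : γ ∈ I
      · rw [res_of_mem h, if_pos h]
      · rw [res_of_notMem h, if_neg h]
    refine ⟨q', ?_, ?_, ?_, ?_⟩
    · funext γ
      rw [hres, ← hG0 q' γ, hval, hG0]
    · funext γ
      rw [hres, ← hG1 q' γ, hval, hG1]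
    · apply hencinj
      funext j
      rw [← hG3 q', hq', res_of_mem (hIG4 j)]
      exact hG3 q j
    · funext γ
      rw [hres, ← hG2 q' γ, hval, hG2]
  have hr : ∀ x : T, ∃ y : T, H y = res I (H x) := by
    intro x
    obtain ⟨q', h, _⟩ := hkey (x, x, Classical.arbitrary P)
    exact ⟨q'.1, h⟩
  choose r hr using hr
  refine ⟨I, M, r, fun l hl => hSI (Or.inl ⟨l, hl, rfl⟩), ?_, ?_, hr, ?_, ?_, ?_⟩
  · refine hIc.preimage_of_injOn ?_
    exact Sum.inr_injective.injOn
  · have hemb : IsEmbedding H := (hH.isClosedEmbedding hHinj).isEmbedding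
    rw [hemb.continuous_iff]
    have : H ∘ r = res I ∘ H := funext hr
    rw [this]
    exact (continuous_res I).comp hH
  · intro p x y
    obtain ⟨q', h1, h2, h3, h4⟩ := hkey (x, y, p)
    have e1 : q'.1 = r x := hHinj (by rw [h1, hr])
    have e2 : q'.2.1 = r y := hHinj (by rw [h2, hr])
    apply hHinj
    rw [hr, ← h4, e1, e2, h3]
  · intro x c hc
    refine hJ c _ _ fun γ hγ => ?_
    rw [hr, res_of_mem (hMJ c hc hγ)]
  · intro x y hxy
    apply hHinj
    rw [hr, hr]
    funext γ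
    by_cases hγ : γ ∈ I
    · rw [res_of_mem hγ, res_of_mem hγ]
      exact hN γ x y fun c hc => hxy c (hMN γ hγ c hc)
    · rw [res_of_notMem hγ, res_of_notMem hγ]

end Pool.Agent.Helper811
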