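import Pool.Agent.Helper811.Count

set_option autoImplicit false
set_option linter.unusedSectionVars false

open Set Topology Cardinal

namespace Pool.Agent.Helper811

theorem orderTopology_of_compact {L : Type} [LinearOrder L] [τ : TopologicalSpace L]
    [CompactSpace L] (h1 : ∀ a : L, IsOpen (Iio a)) (h2 : ∀ a : L, IsOpen (Ioi a)) :
    OrderTopology L := by
  have hle : τ ≤ Preorder.topology L := by
    refine le_generateFrom ?_
    rintro s ⟨a, rfl | rfl⟩
    · exact h2 a
    · exact h1 a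
  have hτ' : @OrderTopology L (Preorder.topology L) _ :=
    @OrderTopology.mk L (Preorder.topology L) _ rfl
  refine ⟨le_antisymm hle ?_⟩
  have hcont : @Continuous L L τ (Preorder.topology L) id := continuous_id_iff_le.2 hle
  have hT2 : @T2Space L (Preorder.topology L) :=
    @OrderClosedTopology.to_t2Space L (Preorder.topology L) _
      (@OrderTopology.to_orderClosedTopology L (Preorder.topology L) _ hτ')
  have hcl : @IsClosedMap L L τ (Preorder.topology L) id :=
    @Continuous.isClosedMap L L τ (Preorder.topology L) _ hT2 id hcont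
  intro s hs
  have h3 : @IsClosed L τ sᶜ := hs.isClosed_compl
  have h4 := hcl sᶜ h3
  rw [image_id] at h4
  have h5 := (@isOpen_compl_iff L sᶜ (Preorder.topology L)).2 h4
  rwa [compl_compl] at h5

/-- A clopen set squeezed between the open and the closed final segment at a point is saturated. -/
def Squeezed {Γ L : Type} [LinearOrder L] (V : Set (Γ → ℝ)) (F : (Γ → ℝ) → L) : Prop :=
  ∀ p : L, ∀ U ⊆ V, IsClosed U → IsClosed (V \ U) → (∀ x ∈ V, p < F x → x ∈ U) →
    (∀ x ∈ U, p ≤ F x) → ∀ x ∈ V, ∀ y ∈ V, F x = p → F y = p → x ∈ U → y ∈ U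

theorem Squeezed.dual {Γ L : Type} [LinearOrder L] {V : Set (Γ → ℝ)} {F : (Γ → ℝ) → L}
    (h : Squeezed V F) : Squeezed (L := Lᵒᵈ) V (fun x => OrderDual.toDual (F x)) := by
  intro p U hUV hU hU' h1 h2 x hx y hy hxp hyp hxU
  by_contra hyU
  have h3 : V \ (V \ U) = U := by
    rw [sdiff_sdiff_right_self]
    exact inter_eq_right.2 hUV
  have := h (OrderDual.ofDual p) (V \ U) sdiff_subset hU' (by rw [h3]; exact hU)
    (by
      intro z hz hpz
      refine ⟨hz, fun hzU => ?_⟩
      exact absurd (h2 z hzU) (not_le.2 hpz))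
    (by
      intro z hz
      by_contra hcon
      exact hz.2 (h1 z hz.1 (not_le.1 hcon)))
    y hy x hx hyp hxp ⟨hy, hyU⟩
  exact this.2 hxU

variable {Γ : Type} {K : Type} [LinearOrder K] [TopologicalSpace K] [OrderTopology K]
  [CompactSpace K]

/-- Splitting: a finer linearly ordered image on which squeezed clopen sets are saturated. -/
theorem exists_split [Nonempty K] {V : Set (Γ → ℝ)} (hV : IsCompact V) {f : (Γ → ℝ) → K}
    (hf : ContinuousOn f V) (hs : ∀ k, ∃ x ∈ V, f x = k) :
    ∃ (L : Type) (_ : LinearOrder L) (_ : TopologicalSpace L) (_ : OrderTopology L)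
      (_ : CompactSpace L) (F : (Γ → ℝ) → L) (g : L → K),
      ContinuousOn F V ∧ (∀ p, ∃ x ∈ V, F x = p) ∧ Continuous g ∧ Function.Surjective g ∧
      Monotone g ∧ Squeezed V F := by
  classical
  let MC : Type := {U : Set (Γ → ℝ) // U ⊆ V ∧ IsClosed U ∧ IsClosed (V \ U) ∧
    ∀ x ∈ V, ∀ y ∈ V, f x < f y → x ∈ U → y ∈ U}
  let r : MC → MC → Prop := fun U U' => U.1 ⊆ U'.1
  let C : Set MC := maxChain r
  have hC : IsMaxChain r C := maxChain_spec
  let T : Type := K × (C → Bool)
  let Φ : (Γ → ℝ) → T := fun x => (f x, fun i => decide (x ∈ i.1.1))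
  have hΦ : ContinuousOn Φ V := by
    refine hf.prodMk (continuousOn_pi.2 fun i => ?_)
    rw [continuousOn_iff_continuous_domRestrict]
    rw [continuous_bool_rng true]
    have h1 : (V.domRestrict fun x => decide (x ∈ i.1.1)) ⁻¹' {true} =
        (Subtype.val : V → (Γ → ℝ)) ⁻¹' i.1.1 := by
      ext x
      simp
    have h2 : (V.domRestrict fun x => decide (x ∈ i.1.1)) ⁻¹' {true} =
        ((Subtype.val : V → (Γ → ℝ)) ⁻¹' (V \ i.1.1))ᶜ := by
      ext x
      simp
    constructor
    · rw [h1]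
      exact i.1.2.2.1.preimage continuous_subtype_val
    · rw [h2]
      exact (i.1.2.2.2.1.preimage continuous_subtype_val).isOpen_compl
  let L : Type := {t : T // t ∈ Φ '' V}
  have hle : ∀ x y : Γ → ℝ, Φ x ≤ Φ y ↔ (f x ≤ f y ∧ ∀ i : C, x ∈ i.1.1 → y ∈ i.1.1) := by
    intro x y
    rw [Prod.le_def, Pi.le_def]
    refine and_congr Iff.rfl (forall_congr' fun i => ?_)
    show (decide (x ∈ i.1.1) ≤ decide (y ∈ i.1.1)) ↔ _
    by_cases hx : x ∈ i.1.1 <;> by_cases hy : y ∈ i.1.1 <;> simp [hx, hy]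
  have htot : ∀ a b : L, a ≤ b ∨ b ≤ a := by
    rintro ⟨_, x, hx, rfl⟩ ⟨_, y, hy, rfl⟩
    have e1 : ((⟨Φ x, x, hx, rfl⟩ : L) ≤ ⟨Φ y, y, hy, rfl⟩) ↔ Φ x ≤ Φ y := Iff.rfl
    have e2 : ((⟨Φ y, y, hy, rfl⟩ : L) ≤ ⟨Φ x, x, hx, rfl⟩) ↔ Φ y ≤ Φ x := Iff.rfl
    rw [e1, e2, hle, hle]
    rcases lt_trichotomy (f x) (f y) with h | h | h
    · exact Or.inl ⟨h.le, fun i hxi => i.1.2.2.2.2 x hx y hy h hxi⟩
    · by_cases hall : ∀ i : C, x ∈ i.1.1 → y ∈ i.1.1
      · exact Or.inl ⟨h.le, hall⟩
      · refine Or.inr ⟨h.ge, fun j hyj => ?_⟩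
        obtain ⟨i, hi⟩ := not_forall.1 hall
        obtain ⟨hxi, hyi⟩ := Classical.not_imp.1 hi
        rcases hC.1.total i.2 j.2 with h' | h'
        · exact h' hxi
        · exact absurd (h' hyj) hyi
    · exact Or.inr ⟨h.le, fun i hxi => i.1.2.2.2.2 y hy x hx h hxi⟩
  let instL : LinearOrder L :=
    { (inferInstance : PartialOrder L) with
      le_total := htot
      toDecidableLE := Classical.decRel _ }
  let topL : TopologicalSpace L := instTopologicalSpaceSubtype
  have compL : CompactSpace L := isCompact_iff_compactSpace.1 (hV.image_of_continuousOn hΦ)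
  have hclosed_ge : ∀ a : L, IsClosed {b : L | a ≤ b} := by
    intro a
    have : {b : L | a ≤ b} = {b : L | a.1.1 ≤ b.1.1} ∩ ⋂ i : C, {b : L | a.1.2 i ≤ b.1.2 i} := by
      ext b
      simp only [mem_inter_iff, mem_iInter, mem_ofPred_eq]
      exact Iff.rfl
    rw [this]
    refine IsClosed.inter (isClosed_Ici.preimage (continuous_fst.comp continuous_subtype_val))
      (isClosed_iInter fun i => ?_)
    have hc : Continuous fun b : L => b.1.2 i :=
      (continuous_apply i).comp (continuous_snd.comp continuous_subtype_val)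
    exact (isClosed_discrete {c : Bool | a.1.2 i ≤ c}).preimage hc
  have hclosed_le : ∀ a : L, IsClosed {b : L | b ≤ a} := by
    intro a
    have : {b : L | b ≤ a} = {b : L | b.1.1 ≤ a.1.1} ∩ ⋂ i : C, {b : L | b.1.2 i ≤ a.1.2 i} := by
      ext b
      simp only [mem_inter_iff, mem_iInter, mem_ofPred_eq]
      exact Iff.rfl
    rw [this]
    refine IsClosed.inter (isClosed_Iic.preimage (continuous_fst.comp continuous_subtype_val))
      (isClosed_iInter fun i => ?_)
    have hc : Continuous fun b : L => b.1.2 i :=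
      (continuous_apply i).comp (continuous_snd.comp continuous_subtype_val)
    exact (isClosed_discrete {c : Bool | c ≤ a.1.2 i}).preimage hc
  have ordL : OrderTopology L := by
    refine orderTopology_of_compact ?_ ?_
    · intro a
      have : (Iio a : Set L) = {b : L | a ≤ b}ᶜ := by
        ext b
        simp
      rw [this]
      exact (hclosed_ge a).isOpen_compl
    · intro a
      have : (Ioi a : Set L) = {b : L | b ≤ a}ᶜ := by
        ext b
        simp
      rw [this]
      exact (hclosed_le a).isOpen_compl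
  -- the maps
  obtain ⟨x0, hx0, _⟩ := hs (Classical.arbitrary K)
  let F : (Γ → ℝ) → L := fun x => if h : x ∈ V then ⟨Φ x, x, h, rfl⟩ else ⟨Φ x0, x0, hx0, rfl⟩
  have hF : ∀ x, ∀ h : x ∈ V, F x = ⟨Φ x, x, h, rfl⟩ := fun x h => dif_pos h
  have hFle : ∀ x ∈ V, ∀ y ∈ V, F x ≤ F y ↔ (f x ≤ f y ∧ ∀ i : C, x ∈ i.1.1 → y ∈ i.1.1) := by
    intro x hx y hy
    rw [hF x hx, hF y hy, ← hle]
    exact Iff.rfl
  refine ⟨L, instL, topL, ordL, compL, F, fun t => t.1.1, ?_, ?_, ?_, ?_, ?_, ?_⟩
  · rw [continuousOn_iff_continuous_domRestrict, continuous_induced_rng]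
    rw [continuousOn_iff_continuous_domRestrict] at hΦ
    have : (Subtype.val ∘ V.domRestrict F : V → T) = V.domRestrict Φ := by
      funext x
      show (F x.1).1 = Φ x.1
      rw [hF x.1 x.2]
    rw [this]
    exact hΦ
  · rintro ⟨_, x, hx, rfl⟩
    exact ⟨x, hx, hF x hx⟩
  · exact continuous_fst.comp continuous_subtype_val
  · intro k
    obtain ⟨x, hx, hxk⟩ := hs k
    exact ⟨⟨Φ x, x, hx, rfl⟩, hxk⟩
  · intro a b hab
    exact hab.1
  · intro p U hUV hU hU' h1 h2 x hx y hy hxp hyp hxU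
    have hmono : ∀ a ∈ V, ∀ b ∈ V, f a < f b → a ∈ U → b ∈ U := by
      intro a ha b hb hab haU
      refine h1 b hb (lt_of_le_of_lt (h2 a haU) ?_)
      rw [← not_le]
      intro hba
      exact absurd ((hFle b hb a ha).1 hba).1 (not_le.2 hab)
    let u : MC := ⟨U, hUV, hU, hU', hmono⟩
    have hins : IsChain r (insert u C) := by
      refine hC.1.insert ?_
      intro c hc _
      by_cases hxc : x ∈ c.1
      · left
        intro z hz
        have h3 : F x ≤ F z := by rw [hxp]; exact h2 z hz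
        exact ((hFle x hx z (hUV hz)).1 h3).2 ⟨c, hc⟩ hxc
      · right
        intro z hz
        have hzV : z ∈ V := c.2.1 hz
        refine h1 z hzV ?_
        rw [← not_le, ← hxp]
        intro h3
        exact hxc (((hFle z hzV x hx).1 h3).2 ⟨c, hc⟩ hz)
    have hCu : C = insert u C := hC.2 hins (subset_insert u C)
    have hu : u ∈ C := by
      rw [hCu]
      exact mem_insert u C
    have h3 : F x ≤ F y := by rw [hxp, hyp]
    exact ((hFle x hx y hy).1 h3).2 ⟨u, hu⟩ hxU

end Pool.Agent.Helper811
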