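import Pool.Agent.Helper811.Split

set_option autoImplicit false
set_option linter.unusedSectionVars false

open Set Topology Cardinal

namespace Pool.Agent.Helper811

/-- Not the limit of a countable set from the left, in a strict form. -/
def LU {L : Type} [LinearOrder L] (p : L) : Prop :=
  ∀ Y : Set L, Y ⊆ Iio p → Y.Countable → ∃ y < p, ∀ y' ∈ Y, y' < y

/-- Not the limit of a countable set from the right, in a strict form. -/
def RU {L : Type} [LinearOrder L] (p : L) : Prop :=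
  ∀ Y : Set L, Y ⊆ Ioi p → Y.Countable → ∃ y, p < y ∧ ∀ y' ∈ Y, y < y'

variable {Γ : Type} {L : Type} [LinearOrder L] [TopologicalSpace L] [OrderTopology L]
  [CompactSpace L]

theorem LU.exists_between {p : L} (h : LU p) {y : L} (hy : y < p) : ∃ z, y < z ∧ z < p := by
  obtain ⟨z, hz, hyz⟩ := h {y} (by simpa using hy) (countable_singleton y)
  exact ⟨z, hyz y (mem_singleton y), hz⟩

theorem LU.exists_lt {p : L} (h : LU p) : ∃ y, y < p := by
  obtain ⟨z, hz, _⟩ := h ∅ (empty_subset _) countable_empty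
  exact ⟨z, hz⟩

/-- The closed final segment becomes open final segment: one-sidedness at left-uncountable
points. -/
theorem isClosed_Ioi_of_LU {V : Set (Γ → ℝ)} (hV : IsCompact V) (hd : V ⊆ closure (V ∩ Sg Γ))
    {F : (Γ → ℝ) → L} (hF : ContinuousOn F V) (hs : ∀ k, ∃ x ∈ V, F x = k)
    (hM : Squeezed V F) (p : L) (hp : LU p) : IsClosed (Ioi p) := by
  set U := closure {a | a ∈ V ∩ Sg Γ ∧ p ≤ F a} with hU
  set U' := closure {a | a ∈ V ∩ Sg Γ ∧ F a < p} with hU'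
  have hUV : U ⊆ V := closure_minimal (fun a ha => ha.1.1) hV.isClosed
  have hU'V : U' ⊆ V := closure_minimal (fun a ha => ha.1.1) hV.isClosed
  have hdisj : ∀ l, l ∈ U' → l ∈ U → False := fun l h1 h2 =>
    sides_disjoint hV hF p hp l h1 h2
  have hcompl : V \ U = U' := by
    ext l
    constructor
    · rintro ⟨hl, hlU⟩
      rcases closure_union_sides hd F p l hl with h | h
      · exact h
      · exact absurd h hlU
    · intro h
      exact ⟨hU'V h, fun h2 => hdisj l h h2⟩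
  have hgt : ∀ x ∈ V, p < F x → x ∈ U := by
    intro x hx hpx
    have h1 := exists_sigma_mem hd hF (isOpen_Ioi (a := p)) hx hpx
    refine closure_mono ?_ h1
    exact fun a ha => ⟨ha.1, le_of_lt ha.2⟩
  have hlt : ∀ x ∈ V, F x < p → x ∈ U' := by
    intro x hx hpx
    have h1 := exists_sigma_mem hd hF (isOpen_Iio (a := p)) hx hpx
    refine closure_mono ?_ h1
    exact fun a ha => ⟨ha.1, ha.2⟩
  have hUge : ∀ x ∈ U, p ≤ F x := by
    have h1 : U ⊆ V ∩ F ⁻¹' (Ici p) := by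
      refine closure_minimal ?_ (isCompact_pre hV hF isClosed_Ici).isClosed
      exact fun a ha => ⟨ha.1.1, ha.2⟩
    exact fun x hx => (h1 hx).2
  have hUc : IsCompact U := hV.of_isClosed_subset isClosed_closure hUV
  have hU'c : IsCompact U' := hV.of_isClosed_subset isClosed_closure hU'V
  -- some point of the left part lies over `p`
  obtain ⟨x, hxU', hxp⟩ : ∃ x ∈ U', F x = p := by
    have h1 : IsClosed (F '' U') := (hU'c.image_of_continuousOn (hF.mono hU'V)).isClosed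
    have h2 : Iio p ⊆ F '' U' := by
      intro y hy
      obtain ⟨z, hz, hzy⟩ := hs y
      exact ⟨z, hlt z hz (by rw [hzy]; exact hy), hzy⟩
    have hlub : IsLUB (Iio p) p := by
      refine ⟨fun y hy => le_of_lt hy, fun b hb => ?_⟩
      by_contra hbp
      obtain ⟨z, hz1, hz2⟩ := hp.exists_between (not_le.1 hbp)
      exact absurd (hb hz2) (not_le.2 hz1)
    have h3 : p ∈ closure (Iio p) := hlub.mem_closure hp.exists_lt
    exact closure_minimal h2 h1 h3
  have himg : F '' U = Ioi p := by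
    ext q
    constructor
    · rintro ⟨z, hz, rfl⟩
      rcases (hUge z hz).eq_or_lt with h | h
      · exfalso
        have := hM p U hUV isClosed_closure (by rw [hcompl]; exact isClosed_closure) hgt hUge
          z (hUV hz) x (hU'V hxU') h.symm hxp hz
        exact hdisj x hxU' this
      · exact h
    · intro hq
      obtain ⟨z, hz, hzq⟩ := hs q
      exact ⟨z, hgt z hz (by rw [hzq]; exact hq), hzq⟩
  rw [← himg]
  exact (hUc.image_of_continuousOn (hF.mono hUV)).isClosed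

theorem isClosed_Iio_of_RU {V : Set (Γ → ℝ)} (hV : IsCompact V) (hd : V ⊆ closure (V ∩ Sg Γ))
    {F : (Γ → ℝ) → L} (hF : ContinuousOn F V) (hs : ∀ k, ∃ x ∈ V, F x = k)
    (hM : Squeezed V F) (p : L) (hp : RU p) : IsClosed (Iio p) := by
  have : CompactSpace Lᵒᵈ := inferInstanceAs (CompactSpace L)
  have h := isClosed_Ioi_of_LU (L := Lᵒᵈ) hV hd (F := fun v => OrderDual.toDual (F v))
    (continuous_toDual.comp_continuousOn hF)
    (fun k => by
      obtain ⟨v, hv, hvk⟩ := hs (OrderDual.ofDual k)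
      exact ⟨v, hv, congrArg OrderDual.toDual hvk⟩) hM.dual (OrderDual.toDual p) hp
  exact h

/-- Suprema of increasing sequences below a left-uncountable point. -/
theorem exists_seq_sup (hr : ∀ p : L, RU p → IsClosed (Iio p)) {p : L} (hp : LU p)
    (next : L → L) (hnext : ∀ y < p, y < next y ∧ next y < p) (y0 : L) (hy0 : y0 < p) :
    ∃ q, IsLUB (range fun n => next^[n] y0) q ∧ q < p ∧ (∀ n, next^[n] y0 < p) ∧
      (∀ n, next^[n] y0 < next^[n + 1] y0) ∧ (∀ n, next^[n] y0 < q) ∧ ¬ LU q ∧ ¬ RU q := by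
  have hlt : ∀ n, next^[n] y0 < p := by
    intro n
    induction n with
    | zero => exact hy0
    | succ n ih =>
      rw [Function.iterate_succ_apply']
      exact (hnext _ ih).2
  have hstep : ∀ n, next^[n] y0 < next^[n + 1] y0 := by
    intro n
    rw [Function.iterate_succ_apply']
    exact (hnext _ (hlt n)).1
  obtain ⟨q, hq⟩ := exists_isLUB_of_compact (range fun n => next^[n] y0) (range_nonempty _)
  have hqn : ∀ n, next^[n] y0 < q := fun n => (hstep n).trans_le (hq.1 (mem_range_self (n + 1)))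
  refine ⟨q, hq, ?_, hlt, hstep, hqn, ?_, ?_⟩
  · obtain ⟨z, hz, hzn⟩ := hp (range fun n => next^[n] y0) (by
      rintro _ ⟨n, rfl⟩
      exact hlt n) (countable_range _)
    exact (hq.2 fun y hy => (hzn y hy).le).trans_lt hz
  · intro hLU
    obtain ⟨z, hz, hzn⟩ := hLU (range fun n => next^[n] y0) (by
      rintro _ ⟨n, rfl⟩
      exact hqn n) (countable_range _)
    exact absurd (hq.2 fun y hy => (hzn y hy).le) (not_le.2 hz)
  · intro hRU
    have h1 : q ∈ closure (range fun n => next^[n] y0) := hq.mem_closure (range_nonempty _)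
    have h2 : (range fun n => next^[n] y0) ⊆ Iio q := by
      rintro _ ⟨n, rfl⟩
      exact hqn n
    exact lt_irrefl q (closure_minimal h2 (hr q hRU) h1)

/-- Density of the points of countable character, left case. -/
theorem mem_closure_good_left (hr : ∀ p : L, RU p → IsClosed (Iio p)) {p : L} (hp : LU p) :
    p ∈ closure {q : L | ¬ LU q ∧ ¬ RU q} := by
  classical
  rw [mem_closure_iff_nhds]
  intro t ht
  obtain ⟨y, hy, hsub⟩ := exists_Ioc_subset_of_mem_nhds ht hp.exists_lt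
  have hn : ∀ y : L, ∃ z, y < p → y < z ∧ z < p := by
    intro y
    by_cases h : y < p
    · obtain ⟨z, hz⟩ := hp.exists_between h
      exact ⟨z, fun _ => hz⟩
    · exact ⟨y, fun h' => absurd h' h⟩
  choose next hnext using hn
  obtain ⟨q, _, hqp, _, _, hyq, h1, h2⟩ := exists_seq_sup hr hp next hnext y hy
  exact ⟨q, hsub ⟨hyq 0, hqp.le⟩, h1, h2⟩

theorem mem_closure_good (hl : ∀ p : L, LU p → IsClosed (Ioi p))
    (hr : ∀ p : L, RU p → IsClosed (Iio p)) (p : L) :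
    p ∈ closure {q : L | ¬ LU q ∧ ¬ RU q} := by
  by_cases h1 : LU p
  · exact mem_closure_good_left hr h1
  · by_cases h2 : RU p
    · have : CompactSpace Lᵒᵈ := inferInstanceAs (CompactSpace L)
      have h := mem_closure_good_left (L := Lᵒᵈ) (p := OrderDual.toDual p) hl h2
      have e : {q : L | ¬ LU q ∧ ¬ RU q} = {q : L | ¬ RU q ∧ ¬ LU q} := by
        ext q
        exact and_comm
      rw [e]
      exact h
    · exact subset_closure ⟨h1, h2⟩

/-- Over points of countable character the Sigma-part is dense in the fibre. -/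
theorem mem_closure_fiber {V : Set (Γ → ℝ)} (hV : IsCompact V) (hd : V ⊆ closure (V ∩ Sg Γ))
    {F : (Γ → ℝ) → L} (hF : ContinuousOn F V) (d : L) (h1 : ¬ LU d) (h2 : ¬ RU d)
    (l : Γ → ℝ) (hl : l ∈ V) (hld : F l = d) : l ∈ closure {a | a ∈ V ∩ Sg Γ ∧ F a = d} := by
  classical
  obtain ⟨Y, hY, hYc, hYcof⟩ : ∃ Y : Set L, Y ⊆ Iio d ∧ Y.Countable ∧ ∀ y < d, ∃ y' ∈ Y, y ≤ y' := by
    by_contra hcon
    refine h1 fun Y hY hYc => ?_
    by_contra h
    refine hcon ⟨Y, hY, hYc, fun y hy => ?_⟩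
    by_contra h3
    refine h ⟨y, hy, fun y' hy' => ?_⟩
    by_contra h4
    exact h3 ⟨y', hy', not_lt.1 h4⟩
  obtain ⟨Z, hZ, hZc, hZcof⟩ : ∃ Z : Set L, Z ⊆ Ioi d ∧ Z.Countable ∧ ∀ y, d < y → ∃ y' ∈ Z, y' ≤ y := by
    by_contra hcon
    refine h2 fun Y hY hYc => ?_
    by_contra h
    refine hcon ⟨Y, hY, hYc, fun y hy => ?_⟩
    by_contra h3
    refine h ⟨y, hy, fun y' hy' => ?_⟩
    by_contra h4
    exact h3 ⟨y', hy', not_lt.1 h4⟩
  have hsep : ∀ k k' : L, ∃ G : Finset Γ, k < k' → ∀ u ∈ V ∩ F ⁻¹' Iic k, ∀ v ∈ V ∩ F ⁻¹' Ici k',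
      ∃ γ ∈ G, u γ ≠ v γ := by
    intro k k'
    by_cases hkk : k < k'
    · obtain ⟨G, _, hG⟩ := exists_finset_sep (isCompact_pre hV hF (isClosed_Iic (a := k)))
        (isCompact_pre hV hF (isClosed_Ici (a := k'))) univ (by
          intro a ha b hb
          by_contra hne
          have hab : a = b := by
            funext γ
            by_contra h
            exact hne ⟨γ, mem_univ γ, h⟩
          rw [← hab] at hb
          exact absurd (ha.2.trans_lt hkk) (not_lt.2 hb.2))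
      exact ⟨G, fun _ => hG⟩
    · exact ⟨∅, fun h => absurd h hkk⟩
  choose Fs hFs using hsep
  obtain ⟨Ψ, hΨc, hΨ⟩ := exists_good hV hd
  rw [mem_closure_iff_nhds]
  intro t ht
  obtain ⟨Ft, ε, hε, hFt⟩ := mem_nhds_pi_real ht
  obtain ⟨I, hSI, hIc, hI⟩ := closing_off (le_refl ℵ₀) Ψ
    (fun F => Cardinal.le_aleph0_iff_set_countable.2 (hΨc F))
    ((Ft : Set Γ) ∪ (⋃ y ∈ Y, (Fs y d : Set Γ)) ∪ (⋃ z ∈ Z, (Fs d z : Set Γ))) (by
      rw [Cardinal.le_aleph0_iff_set_countable]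
      exact (Ft.countable_toSet.union (hYc.biUnion fun y _ => (Fs y d).countable_toSet)).union
        (hZc.biUnion fun z _ => (Fs d z).countable_toSet))
  have hresV : res I l ∈ V := hΨ I hI l hl
  refine ⟨res I l, hFt _ ?_, ⟨hresV, ?_⟩, ?_⟩
  · intro γ hγ
    rw [res_of_mem (hSI (Or.inl (Or.inl hγ)))]
    simpa using hε
  · exact (Cardinal.le_aleph0_iff_set_countable.1 hIc).mono (support_res_subset I l)
  · refine le_antisymm ?_ ?_
    · by_contra hcon
      obtain ⟨z, hz, hle⟩ := hZcof _ (not_le.1 hcon)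
      obtain ⟨γ, hγ, hne⟩ := hFs d z (hZ hz) l ⟨hl, hld.le⟩ (res I l) ⟨hresV, hle⟩
      exact hne (res_of_mem (hSI (Or.inr (mem_biUnion hz hγ)))).symm
    · by_contra hcon
      obtain ⟨y, hy, hle⟩ := hYcof _ (not_le.1 hcon)
      obtain ⟨γ, hγ, hne⟩ := hFs y d (hY hy) (res I l) ⟨hresV, hle⟩ l ⟨hl, hld.ge⟩
      exact hne (res_of_mem (hSI (Or.inl (Or.inr (mem_biUnion hy hγ)))))

/-- Cluster points of sequences of the Sigma-part over increasing sequences. -/
theorem exists_cluster {V : Set (Γ → ℝ)} (hV : IsCompact V)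
    {F : (Γ → ℝ) → L} (hF : ContinuousOn F V) (b : ℕ → Γ → ℝ) (hb : ∀ n, b n ∈ V ∩ Sg Γ)
    (C : Set (Γ → ℝ)) (hC : IsClosed C) (hbC : ∀ n, b n ∈ C) (y : ℕ → L) (hy : Monotone y) (q : L)
    (hq : IsLUB (range y) q) (hyb : ∀ n, y n ≤ F (b n)) (hbq : ∀ n, F (b n) ≤ q) :
    ∃ a, a ∈ V ∩ Sg Γ ∧ a ∈ C ∧ F a = q := by
  let S : Set Γ := ⋃ n, Function.support (b n)
  have hS : S.Countable := countable_iUnion fun n => (hb n).2
  have hsuppcl : IsClosed {v : Γ → ℝ | Function.support v ⊆ S} := by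
    have : {v : Γ → ℝ | Function.support v ⊆ S} = ⋂ γ ∈ Sᶜ, {v : Γ → ℝ | v γ = 0} := by
      ext v
      simp only [mem_ofPred_eq, mem_iInter]
      constructor
      · intro h γ hγ
        by_contra hne
        exact hγ (h hne)
      · intro h γ hγ
        by_contra hne
        exact hγ (h γ hne)
    rw [this]
    exact isClosed_biInter fun γ _ => isClosed_eq (continuous_apply γ) continuous_const
  obtain ⟨a, haV, ha⟩ := hV.exists_mapClusterPt (f := Filter.atTop) (u := b)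
    (Filter.le_principal_iff.2 (Filter.mem_map.2 (Filter.univ_mem' fun n => (hb n).1)))
  have hmem : ∀ (T : Set (Γ → ℝ)), IsClosed T → (∀ᶠ n in Filter.atTop, b n ∈ T) → a ∈ T := by
    intro T hT h
    exact hT.mem_of_mapClusterPt ha h
  refine ⟨a, ⟨haV, ?_⟩, hmem C hC (Filter.Eventually.of_forall hbC), ?_⟩
  · exact hS.mono (hmem _ hsuppcl (Filter.Eventually.of_forall fun n =>
      subset_iUnion (fun n => Function.support (b n)) n))
  · refine le_antisymm ?_ ?_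
    · exact (hmem _ (isCompact_pre hV hF (isClosed_Iic (a := q))).isClosed
        (Filter.Eventually.of_forall fun n => ⟨(hb n).1, hbq n⟩)).2
    · refine hq.2 ?_
      rintro _ ⟨n, rfl⟩
      refine (hmem _ (isCompact_pre hV hF (isClosed_Ici (a := y n))).isClosed ?_).2
      filter_upwards [Filter.eventually_ge_atTop n] with m hm
      exact ⟨(hb m).1, (hy hm).trans (hyb m)⟩

/-- Density of fibre pairs of the Sigma-part over left-uncountable points. -/
theorem pair_mem_closure_left {V : Set (Γ → ℝ)} (hV : IsCompact V)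
    {F : (Γ → ℝ) → L} (hF : ContinuousOn F V) (hr : ∀ p : L, RU p → IsClosed (Iio p))
    (A0 : Set (Γ → ℝ)) (hA0 : A0 ⊆ V ∩ Sg Γ)
    (hA0q : ∀ a ∈ V ∩ Sg Γ, ¬ LU (F a) → ¬ RU (F a) → a ∈ A0)
    (p : L) (hp : LU p) (hpc : IsClosed (Ioi p)) (hpA : ∀ a ∈ A0, F a ≠ p)
    (l l' : Γ → ℝ) (hl : l ∈ closure A0) (hl' : l' ∈ closure A0) (hlp : F l = p)
    (hlp' : F l' = p) :
    (l, l') ∈ closure {e : (Γ → ℝ) × (Γ → ℝ) | e.1 ∈ A0 ∧ e.2 ∈ A0 ∧ F e.1 = F e.2} := by
  classical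
  have hclV : closure A0 ⊆ V := closure_minimal (hA0.trans inter_subset_left) hV.isClosed
  -- points of `A0` close to a given point with values in a prescribed interval
  have happ : ∀ m ∈ closure A0, F m = p → ∀ (G : Finset Γ) (ε : ℝ), 0 < ε → ∀ y < p,
      ∃ a ∈ A0, (∀ γ ∈ G, |a γ - m γ| ≤ ε) ∧ y < F a ∧ F a < p := by
    intro m hm hmp G ε hε y hy
    have hO : IsOpen (Ioi y ∩ (Ioi p)ᶜ) := isOpen_Ioi.inter hpc.isOpen_compl
    have hmO : F m ∈ Ioi y ∩ (Ioi p)ᶜ := by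
      rw [hmp]
      exact ⟨hy, fun h => lt_irrefl _ h⟩
    have h1 : F ⁻¹' (Ioi y ∩ (Ioi p)ᶜ) ∈ 𝓝[V] m := (hF m (hclV hm)) (hO.mem_nhds hmO)
    rw [mem_nhdsWithin] at h1
    obtain ⟨u, hu, hmu, hsub⟩ := h1
    obtain ⟨a, ha1, ha2⟩ := mem_closure_iff.1 hm (u ∩ {x | ∀ γ ∈ G, |x γ - m γ| < ε})
      (hu.inter (isOpen_box G m ε)) ⟨hmu, fun γ _ => by simpa using hε⟩
    have h2 := hsub ⟨ha1.1, (hA0 ha2).1⟩
    refine ⟨a, ha2, fun γ hγ => (ha1.2 γ hγ).le, h2.1, ?_⟩
    exact lt_of_le_of_ne (not_lt.1 h2.2) (hpA a ha2)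
  rw [mem_closure_iff_nhds]
  intro t ht
  rw [nhds_prod_eq, Filter.mem_prod_iff] at ht
  obtain ⟨t1, ht1, t2, ht2, ht⟩ := ht
  obtain ⟨G1, ε1, hε1, hG1⟩ := mem_nhds_pi_real ht1
  obtain ⟨G2, ε2, hε2, hG2⟩ := mem_nhds_pi_real ht2
  have hb1 : ∀ y : L, ∃ a, y < p → a ∈ A0 ∧ (∀ γ ∈ G1, |a γ - l γ| ≤ ε1 / 2) ∧ y < F a ∧ F a < p := by
    intro y
    by_cases hy : y < p
    · obtain ⟨a, ha⟩ := happ l hl hlp G1 (ε1 / 2) (half_pos hε1) y hy
      exact ⟨a, fun _ => ha⟩
    · exact ⟨l, fun h => absurd h hy⟩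
  have hb2 : ∀ y : L, ∃ a, y < p → a ∈ A0 ∧ (∀ γ ∈ G2, |a γ - l' γ| ≤ ε2 / 2) ∧ y < F a ∧ F a < p := by
    intro y
    by_cases hy : y < p
    · obtain ⟨a, ha⟩ := happ l' hl' hlp' G2 (ε2 / 2) (half_pos hε2) y hy
      exact ⟨a, fun _ => ha⟩
    · exact ⟨l, fun h => absurd h hy⟩
  choose b1 hb1 using hb1
  choose b2 hb2 using hb2
  obtain ⟨y0, hy0⟩ := hp.exists_lt
  obtain ⟨q, hq, hqp, hyp, hyy, hyq, hq1, hq2⟩ := exists_seq_sup hr hp
    (fun y => F (b2 (F (b1 y))))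
    (fun y hy => by
      have h1 := hb1 y hy
      have h2 := hb2 (F (b1 y)) h1.2.2.2
      exact ⟨h1.2.2.1.trans h2.2.2.1, h2.2.2.2⟩) y0 hy0
  set y : ℕ → L := fun n => (fun y => F (b2 (F (b1 y))))^[n] y0 with hydef
  have hys : ∀ n, y (n + 1) = F (b2 (F (b1 (y n)))) := fun n =>
    Function.iterate_succ_apply' _ n y0
  have hymono : Monotone y := monotone_nat_of_le_succ fun n => (hyy n).le
  have hcl : ∀ (G : Finset Γ) (m : Γ → ℝ) (ε : ℝ), IsClosed {x : Γ → ℝ | ∀ γ ∈ G, |x γ - m γ| ≤ ε} := by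
    intro G m ε
    have : {x : Γ → ℝ | ∀ γ ∈ G, |x γ - m γ| ≤ ε} = ⋂ γ ∈ G, {x : Γ → ℝ | |x γ - m γ| ≤ ε} := by
      ext x; simp
    rw [this]
    refine isClosed_biInter fun γ _ => isClosed_le (by fun_prop) continuous_const
  obtain ⟨a, haV, haG, haq⟩ := exists_cluster hV hF (fun n => b1 (y n))
    (fun n => hA0 (hb1 _ (hyp n)).1) _ (hcl G1 l (ε1 / 2)) (fun n => (hb1 _ (hyp n)).2.1) y hymono q
    hq (fun n => (hb1 _ (hyp n)).2.2.1.le) (fun n => by
      have h2 := hb2 (F (b1 (y n))) (hb1 _ (hyp n)).2.2.2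
      refine (h2.2.2.1.le).trans ?_
      rw [← hys]
      exact (hyq (n + 1)).le)
  obtain ⟨a', haV', haG', haq'⟩ := exists_cluster hV hF (fun n => b2 (F (b1 (y n))))
    (fun n => hA0 (hb2 _ (hb1 _ (hyp n)).2.2.2).1) _ (hcl G2 l' (ε2 / 2))
    (fun n => (hb2 _ (hb1 _ (hyp n)).2.2.2).2.1) y hymono q
    hq (fun n => by
      rw [← hys]
      exact (hyy n).le) (fun n => by
      rw [← hys]
      exact (hyq (n + 1)).le)
  refine ⟨(a, a'), ht ⟨hG1 _ ?_, hG2 _ ?_⟩, hA0q a haV (by rw [haq]; exact hq1)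
    (by rw [haq]; exact hq2), hA0q a' haV' (by rw [haq']; exact hq1) (by rw [haq']; exact hq2), ?_⟩
  · intro γ hγ
    exact (haG γ hγ).trans_lt (half_lt_self hε1)
  · intro γ hγ
    exact (haG' γ hγ).trans_lt (half_lt_self hε2)
  · show F a = F a'
    rw [haq, haq']

/-- Density of fibre pairs of the Sigma-part. -/
theorem pair_mem_closure {V : Set (Γ → ℝ)} (hV : IsCompact V) (hd : V ⊆ closure (V ∩ Sg Γ))
    {F : (Γ → ℝ) → L} (hF : ContinuousOn F V) (hl : ∀ p : L, LU p → IsClosed (Ioi p))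
    (hr : ∀ p : L, RU p → IsClosed (Iio p))
    (l l' : Γ → ℝ)
    (hlm : l ∈ closure {a | a ∈ V ∩ Sg Γ ∧ ¬ LU (F a) ∧ ¬ RU (F a)})
    (hlm' : l' ∈ closure {a | a ∈ V ∩ Sg Γ ∧ ¬ LU (F a) ∧ ¬ RU (F a)})
    (hll : F l = F l') :
    (l, l') ∈ closure {e : (Γ → ℝ) × (Γ → ℝ) |
      e.1 ∈ {a | a ∈ V ∩ Sg Γ ∧ ¬ LU (F a) ∧ ¬ RU (F a)} ∧
      e.2 ∈ {a | a ∈ V ∩ Sg Γ ∧ ¬ LU (F a) ∧ ¬ RU (F a)} ∧ F e.1 = F e.2} := by
  have hclV : closure {a | a ∈ V ∩ Sg Γ ∧ ¬ LU (F a) ∧ ¬ RU (F a)} ⊆ V :=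
    closure_minimal (fun a ha => ha.1.1) hV.isClosed
  by_cases h1 : LU (F l)
  · exact pair_mem_closure_left hV hF hr {a | a ∈ V ∩ Sg Γ ∧ ¬ LU (F a) ∧ ¬ RU (F a)}
      (fun a ha => ha.1) (fun a ha h2 h3 => ⟨ha, h2, h3⟩) (F l) h1 (hl _ h1)
      (fun a ha h => ha.2.1 (by rw [h]; exact h1)) l l' hlm hlm' rfl hll.symm
  · by_cases h2 : RU (F l)
    · have : CompactSpace Lᵒᵈ := inferInstanceAs (CompactSpace L)
      have h := pair_mem_closure_left (L := Lᵒᵈ) hV (F := fun v => OrderDual.toDual (F v))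
        (continuous_toDual.comp_continuousOn hF) hl
        {a | a ∈ V ∩ Sg Γ ∧ ¬ LU (F a) ∧ ¬ RU (F a)}
        (fun a ha => ha.1) (fun a ha h3 h4 => ⟨ha, h4, h3⟩) (OrderDual.toDual (F l)) h2 (hr _ h2)
        (fun a ha h => ha.2.2 (by
          have h' : F a = F l := h
          rw [h']; exact h2)) l l' hlm hlm' rfl (congrArg OrderDual.toDual hll.symm)
      exact h
    · have e1 := mem_closure_fiber hV hd hF (F l) h1 h2 l (hclV hlm) rfl
      have e2 := mem_closure_fiber hV hd hF (F l) h1 h2 l' (hclV hlm') hll.symm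
      have e3 : (l, l') ∈ closure ({a | a ∈ V ∩ Sg Γ ∧ F a = F l} ×ˢ
          {a | a ∈ V ∩ Sg Γ ∧ F a = F l}) := by
        rw [closure_prod_eq]
        exact ⟨e1, e2⟩
      refine closure_mono ?_ e3
      rintro ⟨a, b⟩ ⟨ha, hb⟩
      have ha2 : F a = F l := ha.2
      have hb2 : F b = F l := hb.2
      refine ⟨⟨ha.1, ?_, ?_⟩, ⟨hb.1, ?_, ?_⟩, ?_⟩
      · show ¬ LU (F a)
        rw [ha2]; exact h1
      · show ¬ RU (F a)
        rw [ha2]; exact h2
      · show ¬ LU (F b)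
        rw [hb2]; exact h1
      · show ¬ RU (F b)
        rw [hb2]; exact h2
      · show F a = F b
        rw [ha2, hb2]

/-- A countable family of continuous functions separating the points supported in a countable
set of coordinates. -/
theorem exists_sep_family {V : Set (Γ → ℝ)} (hV : IsCompact V)
    {F : (Γ → ℝ) → L} (hF : ContinuousOn F V) (I : Set Γ) (hI : I.Countable) :
    ∃ φ : ℕ → L → ℝ, (∀ n, Continuous (φ n)) ∧
      ∀ x ∈ V, ∀ y ∈ V, Function.support x ⊆ I → Function.support y ⊆ I → F x ≠ F y →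
        ∃ n, φ n (F x) ≠ φ n (F y) := by
  classical
  let VI : Set (Γ → ℝ) := V ∩ {v | Function.support v ⊆ I}
  have hsuppcl : IsClosed {v : Γ → ℝ | Function.support v ⊆ I} := by
    have : {v : Γ → ℝ | Function.support v ⊆ I} = ⋂ γ ∈ Iᶜ, {v : Γ → ℝ | v γ = 0} := by
      ext v
      simp only [mem_ofPred_eq, mem_iInter]
      constructor
      · intro h γ hγ
        by_contra hne
        exact hγ (h hne)
      · intro h γ hγ
        by_contra hne
        exact hγ (h γ hne)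
    rw [this]
    exact isClosed_biInter fun γ _ => isClosed_eq (continuous_apply γ) continuous_const
  have hVI : IsCompact VI := hV.inter_right hsuppcl
  have hFI : ContinuousOn F VI := hF.mono inter_subset_left
  have hIsep : ∀ x ∈ VI, ∀ y ∈ VI, x ≠ y → ∃ γ ∈ I, x γ ≠ y γ := by
    intro x hx y hy hxy
    by_contra hne
    refine hxy (funext fun γ => ?_)
    by_cases hγ : γ ∈ I
    · by_contra h
      exact hne ⟨γ, hγ, h⟩
    · have h1 : x γ = 0 := by
        by_contra h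
        exact hγ (hx.2 h)
      have h2 : y γ = 0 := by
        by_contra h
        exact hγ (hy.2 h)
      rw [h1, h2]
  let WW : Set (Set (Γ → ℝ)) := ⋃ G ∈ {G : Finset Γ | (G : Set Γ) ⊆ I}, boxes G
  have hWW : WW.Countable := by
    refine Set.Countable.biUnion ?_ fun G _ => boxes_countable G
    rw [← Cardinal.le_aleph0_iff_set_countable]
    exact mk_finsets_le (le_refl _) I (by rwa [Cardinal.le_aleph0_iff_set_countable])
  have hch : ∀ P : Set (Γ → ℝ) × Set (Γ → ℝ), ∃ φ : L → ℝ, Continuous φ ∧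
      ((∃ ψ : L → ℝ, Continuous ψ ∧ (∀ x ∈ VI ∩ P.1, ψ (F x) = 0) ∧ ∀ x ∈ VI ∩ P.2, ψ (F x) = 1) →
        (∀ x ∈ VI ∩ P.1, φ (F x) = 0) ∧ ∀ x ∈ VI ∩ P.2, φ (F x) = 1) := by
    intro P
    by_cases h : ∃ ψ : L → ℝ, Continuous ψ ∧ (∀ x ∈ VI ∩ P.1, ψ (F x) = 0) ∧
        ∀ x ∈ VI ∩ P.2, ψ (F x) = 1
    · obtain ⟨ψ, h1, h2⟩ := h
      exact ⟨ψ, h1, fun _ => h2⟩
    · exact ⟨fun _ => 0, continuous_const, fun h' => absurd h' h⟩
  choose Ph hPh1 hPh2 using hch
  obtain ⟨φ, hφ⟩ := ((hWW.prod hWW).image Ph |>.insert (fun _ => (0 : ℝ))).exists_eq_range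
    (insert_nonempty _ _)
  have hφmem : ∀ n, φ n ∈ insert (fun _ => (0 : ℝ)) (Ph '' (WW ×ˢ WW)) := by
    intro n
    rw [hφ]
    exact mem_range_self n
  refine ⟨φ, ?_, ?_⟩
  · intro n
    rcases hφmem n with h | ⟨P, _, h⟩
    · rw [h]
      exact continuous_const
    · rw [← h]
      exact hPh1 P
  · intro x hx y hy hxI hyI hne
    obtain ⟨φ0, hφx, hφy, _⟩ := exists_continuous_zero_one_of_isClosed
      (isClosed_singleton (x := F x)) (isClosed_singleton (x := F y))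
      (by rw [Set.disjoint_singleton]; exact hne)
    have hx0 : φ0 (F x) = 0 := hφx (mem_singleton _)
    have hy1 : φ0 (F y) = 1 := hφy (mem_singleton _)
    have hsepbox : ∀ C D : Set L, IsClosed C → IsClosed D → Disjoint C D →
        ∃ W ∈ WW, VI ∩ F ⁻¹' C ⊆ W ∧ Disjoint (VI ∩ F ⁻¹' D) W := by
      intro C D hC hD hCD
      obtain ⟨G, hG, W, hW, h1, h2⟩ := exists_box_sep (isCompact_pre hVI hFI hC)
        (isCompact_pre hVI hFI hD) I (by
          intro a ha b hb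
          refine hIsep a ha.1 b hb.1 ?_
          rintro rfl
          exact Set.disjoint_left.1 hCD ha.2 hb.2)
      exact ⟨W, mem_biUnion (show G ∈ {G : Finset Γ | (G : Set Γ) ⊆ I} from hG) hW, h1, h2⟩
    obtain ⟨W1, hW1, hxW1, hD1⟩ := hsepbox {F x} {p | 1 / 3 ≤ φ0 p} isClosed_singleton
      (isClosed_le continuous_const φ0.continuous) (by
        rw [Set.disjoint_singleton_left]
        show ¬ (1 / 3 ≤ φ0 (F x))
        rw [hx0]
        norm_num)
    obtain ⟨W2, hW2, hyW2, hD2⟩ := hsepbox {F y} {p | φ0 p ≤ 2 / 3} isClosed_singleton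
      (isClosed_le φ0.continuous continuous_const) (by
        rw [Set.disjoint_singleton_left]
        show ¬ (φ0 (F y) ≤ 2 / 3)
        rw [hy1]
        norm_num)
    have hex : ∃ ψ : L → ℝ, Continuous ψ ∧ (∀ z ∈ VI ∩ W1, ψ (F z) = 0) ∧
        ∀ z ∈ VI ∩ W2, ψ (F z) = 1 := by
      refine ⟨fun p => max 0 (min 1 (3 * φ0 p - 1)), by fun_prop, ?_, ?_⟩
      · intro z hz
        have h1 : φ0 (F z) < 1 / 3 := by
          by_contra h
          exact Set.disjoint_left.1 hD1 ⟨hz.1, not_lt.1 h⟩ hz.2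
        show max 0 (min 1 (3 * φ0 (F z) - 1)) = 0
        exact max_eq_left ((min_le_right _ _).trans (by linarith))
      · intro z hz
        have h1 : 2 / 3 < φ0 (F z) := by
          by_contra h
          exact Set.disjoint_left.1 hD2 ⟨hz.1, not_lt.1 h⟩ hz.2
        show max 0 (min 1 (3 * φ0 (F z) - 1)) = 1
        rw [min_eq_left (by linarith)]
        exact max_eq_right zero_le_one
    have h3 := hPh2 (W1, W2) hex
    have hmem : Ph (W1, W2) ∈ range φ := by
      rw [← hφ]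
      exact Or.inr (mem_image_of_mem _ ⟨hW1, hW2⟩)
    obtain ⟨n, hn⟩ := hmem
    refine ⟨n, ?_⟩
    rw [hn]
    have e1 : Ph (W1, W2) (F x) = 0 := h3.1 x ⟨⟨hx, hxI⟩, hxW1 ⟨⟨hx, hxI⟩, rfl⟩⟩
    have e2 : Ph (W1, W2) (F y) = 1 := h3.2 y ⟨⟨hy, hyI⟩, hyW2 ⟨⟨hy, hyI⟩, rfl⟩⟩
    rw [e1, e2]
    exact zero_ne_one

end Pool.Agent.Helper811
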